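import Pool.Agent.T2h63.MT.Stm
import Pool.Agent.R932.Tan

/-!
# MTG: the monodromy group is the group of all symplectic similitudes
-/

set_option autoImplicit false

open Matrix MvPolynomial

namespace Pool.Agent.T2h63.MT.G

open Pool.Agent.Y95.MT Pool.Agent.W528.ZC

section alg

variable {K : Type} [Field K] {N : ℕ} {J : Matrix (Fin N) (Fin N) K}

lemma skew_inv_mul (hJ : Jᵀ = -J) (hd : J.det ≠ 0) {B : Matrix (Fin N) (Fin N) K} (hB : Bᵀ = B) :
    (J⁻¹ * B)ᵀ * J + J * (J⁻¹ * B) = 0 := by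
  have hu : IsUnit J.det := isUnit_iff_ne_zero.2 hd
  have h0 : (-J)⁻¹ = -J⁻¹ := Matrix.inv_eq_right_inv (by
    rw [neg_mul_neg, Matrix.mul_nonsing_inv _ hu])
  have h1 : (J⁻¹)ᵀ = -J⁻¹ := by
    rw [Matrix.transpose_nonsing_inv, hJ, h0]
  rw [Matrix.transpose_mul, h1, hB, mul_neg, neg_mul, Matrix.mul_assoc,
    Matrix.nonsing_inv_mul _ hu, mul_one, ← Matrix.mul_assoc, Matrix.mul_nonsing_inv _ hu,
    one_mul, neg_add_cancel]

lemma symm_sum [CharZero K] {A : Matrix (Fin N) (Fin N) K} (hA : Aᵀ = A) :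
    A = ∑ x, ∑ y, (A x y / 2) • (Matrix.single x y (1 : K) + Matrix.single y x 1) := by
  ext a b
  simp only [Matrix.sum_apply, Matrix.smul_apply, Matrix.add_apply, Matrix.single_apply,
    smul_eq_mul, mul_add, Finset.sum_add_distrib, mul_ite, mul_one, mul_zero, ite_and]
  have e1 : ∑ x, ∑ y, (if x = a then if y = b then A x y / 2 else 0 else 0) = A a b / 2 := by
    rw [Finset.sum_eq_single a, Finset.sum_eq_single b]
    · simp
    · intro y _ hy
      simp [hy]
    · intro h; exact absurd (Finset.mem_univ _) h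
    · intro x _ hx
      refine Finset.sum_eq_zero fun y _ => ?_
      simp [hx]
    · intro h; exact absurd (Finset.mem_univ _) h
  have e2 : ∑ x, ∑ y, (if y = a then if x = b then A x y / 2 else 0 else 0) = A b a / 2 := by
    rw [Finset.sum_eq_single b, Finset.sum_eq_single a]
    · simp
    · intro y _ hy
      simp [hy]
    · intro h; exact absurd (Finset.mem_univ _) h
    · intro x _ hx
      refine Finset.sum_eq_zero fun y _ => ?_
      simp [hx]
    · intro h; exact absurd (Finset.mem_univ _) h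
  have e3 := congrFun (congrFun hA a) b
  rw [Matrix.transpose_apply] at e3
  rw [e1, e2, e3]
  ring

lemma map_inv' {k : Type} [Field k] (j : k →+* K) {J : Matrix (Fin N) (Fin N) k}
    (hd : J.det ≠ 0) : (J.map j)⁻¹ = J⁻¹.map j := by
  refine Matrix.inv_eq_right_inv ?_
  rw [← Matrix.map_mul, Matrix.mul_nonsing_inv _ (isUnit_iff_ne_zero.2 hd),
    Matrix.map_one _ (map_zero _) (map_one _)]

lemma map_single' {k : Type} [Field k] (j : k →+* K) (x y : Fin N) :
    (Matrix.single x y (1 : k)).map j = Matrix.single x y 1 := by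
  ext a b
  simp only [Matrix.map_apply, Matrix.single_apply]
  split_ifs
  · exact map_one j
  · exact map_zero j

/-- The skew matrices are spanned by those over a subfield. -/
lemma skew_span [CharZero K] {k : Type} [Field k] (j : k →+* K)
    {J : Matrix (Fin N) (Fin N) k} (hJ : Jᵀ = -J) (hd : J.det ≠ 0)
    (L : Submodule K (Matrix (Fin N) (Fin N) K))
    (hL : ∀ Y : Matrix (Fin N) (Fin N) k, Yᵀ * J + J * Y = 0 → Y.map j ∈ L)
    (X : Matrix (Fin N) (Fin N) K) (hX : Xᵀ * J.map j + J.map j * X = 0) : X ∈ L := by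
  have hu : IsUnit (J.map j).det := by
    rw [← RingHom.mapMatrix_apply, ← RingHom.map_det]
    exact isUnit_iff_ne_zero.2 ((map_ne_zero j).2 hd)
  have hJK : (J.map j)ᵀ = -(J.map j) := by
    rw [← Matrix.transpose_map, hJ]
    ext a b
    simp
  have hA : (J.map j * X)ᵀ = J.map j * X := by
    rw [Matrix.transpose_mul, hJK, mul_neg]
    exact neg_eq_of_add_eq_zero_right hX
  have hXe : X = (J.map j)⁻¹ * (J.map j * X) := by
    rw [← Matrix.mul_assoc, Matrix.nonsing_inv_mul _ hu, one_mul]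
  rw [hXe, symm_sum hA, Finset.mul_sum]
  refine Submodule.sum_mem _ fun x _ => ?_
  rw [Finset.mul_sum]
  refine Submodule.sum_mem _ fun y _ => ?_
  rw [Matrix.mul_smul]
  refine Submodule.smul_mem _ _ ?_
  have h1 := hL (J⁻¹ * (Matrix.single x y 1 + Matrix.single y x 1))
    (skew_inv_mul hJ hd (by
      rw [Matrix.transpose_add, Matrix.transpose_single, Matrix.transpose_single, add_comm]))
  rw [Matrix.map_mul, Matrix.map_add _ (map_add j), map_single', map_single', ← map_inv' j hd]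
    at h1
  exact h1

lemma tv_eq (v : Fin N → K) : vecMulVec v (v ᵥ* J) = vecMulVec v v * J := by
  rw [Matrix.vecMulVec_mul]

lemma tv_zero [CharZero K] (hJ : Jᵀ = -J) (v : Fin N → K) : (v ᵥ* J) ⬝ᵥ v = 0 := by
  have h1 : (v ᵥ* J) ⬝ᵥ v = -((v ᵥ* J) ⬝ᵥ v) := by
    calc (v ᵥ* J) ⬝ᵥ v = v ⬝ᵥ (v ᵥ* J) := dotProduct_comm _ _
      _ = v ⬝ᵥ (Jᵀ *ᵥ v) := by rw [Matrix.mulVec_transpose]
      _ = -(v ⬝ᵥ (J *ᵥ v)) := by rw [hJ, Matrix.neg_mulVec, dotProduct_neg]
      _ = -((v ᵥ* J) ⬝ᵥ v) := by rw [Matrix.dotProduct_mulVec]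
  have h2 : (2 : K) * ((v ᵥ* J) ⬝ᵥ v) = 0 := by linear_combination h1
  exact (mul_eq_zero.1 h2).resolve_left two_ne_zero

lemma tv_skew (hJ : Jᵀ = -J) (v : Fin N → K) (c : K) :
    (c • vecMulVec v (v ᵥ* J))ᵀ * J + J * (c • vecMulVec v (v ᵥ* J)) = 0 := by
  have h0 : (vecMulVec v v)ᵀ = vecMulVec v v := by
    ext a b
    simp [vecMulVec_apply, mul_comm]
  rw [tv_eq, Matrix.transpose_smul, Matrix.transpose_mul, hJ, h0, Matrix.smul_mul,
    Matrix.mul_smul, ← smul_add, neg_mul, neg_mul, Matrix.mul_assoc, neg_add_cancel, smul_zero]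

lemma tv_sq [CharZero K] (hJ : Jᵀ = -J) (v : Fin N → K) (c : K) :
    (c • vecMulVec v (v ᵥ* J)) * (c • vecMulVec v (v ᵥ* J)) = 0 := by
  rw [smul_mul_smul_comm, vmv_mul, tv_zero hJ, zero_smul, smul_zero]

/-- the factor of a similitude is nonzero -/
lemma factor_ne (hN : 0 < N) (hd : J.det ≠ 0) {g : Matrix (Fin N) (Fin N) K} (hg : g.det ≠ 0)
    {c : K} (h : gᵀ * J * g = c • J) : c ≠ 0 := by
  rintro rfl
  have : Nonempty (Fin N) := Fin.pos_iff_nonempty.1 hN
  have h1 := congrArg Matrix.det h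
  rw [zero_smul, Matrix.det_mul, Matrix.det_mul, Matrix.det_transpose, Matrix.det_zero] at h1
  exact (mul_ne_zero (mul_ne_zero hg hd) hg) h1

lemma sim_smul {g : Matrix (Fin N) (Fin N) K} {c : K} (h : gᵀ * J * g = c • J) (t : K) :
    (t • g)ᵀ * J * (t • g) = (t * t * c) • J := by
  rw [Matrix.transpose_smul, Matrix.smul_mul, Matrix.smul_mul, Matrix.mul_smul, h, smul_smul,
    smul_smul, mul_assoc]

/-- the polynomial which expresses that the form is multiplied by a scalar -/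
noncomputable def pol (J : Matrix (Fin N) (Fin N) K) (a b c d : Fin N) :
    MvPolynomial (Fin N × Fin N) K :=
  (∑ x, ∑ y, X (x, a) * C (J x y) * X (y, b)) * C (J c d) -
    (∑ x, ∑ y, X (x, c) * C (J x y) * X (y, d)) * C (J a b)

lemma ev_pol (g : Matrix (Fin N) (Fin N) K) (a b c d : Fin N) :
    ev g (pol J a b c d) = (gᵀ * J * g) a b * J c d - (gᵀ * J * g) c d * J a b := by
  have h : ∀ a b, (gᵀ * J * g) a b = ∑ x, ∑ y, g x a * J x y * g y b := by
    intro a b
    simp only [Matrix.mul_apply, Matrix.transpose_apply, Finset.sum_mul]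
    exact Finset.sum_comm
  rw [h, h, pol]
  simp only [map_sub, map_mul, map_sum, ev_X, ev_C]

lemma factor_of (g : Matrix (Fin N) (Fin N) K)
    (h : ∀ a b c d, (gᵀ * J * g) a b * J c d - (gᵀ * J * g) c d * J a b = 0) :
    ∃ c : K, gᵀ * J * g = c • J := by
  by_cases hJ : J = 0
  · exact ⟨0, by rw [hJ, Matrix.mul_zero, Matrix.zero_mul, smul_zero]⟩
  have h1 : ∃ c d, J c d ≠ 0 := by
    by_contra hc
    push Not at hc
    exact hJ (by ext a b; exact hc a b)
  obtain ⟨c, d, hcd⟩ := h1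
  refine ⟨(gᵀ * J * g) c d / J c d, ?_⟩
  ext a b
  rw [Matrix.smul_apply, smul_eq_mul]
  field_simp
  linear_combination h a b c d

end alg

section main

variable {ℓ : ℕ} [Fact ℓ.Prime] {N : ℕ} {Γ : Type} [Group Γ] {K : Type} [Field K]
  {ρ : Γ →* Matrix (Fin N) (Fin N) ℚ_[ℓ]} {J : Matrix (Fin N) (Fin N) ℚ_[ℓ]}

lemma sim_map (j : ℚ_[ℓ] →+* K) {g : Matrix (Fin N) (Fin N) ℚ_[ℓ]} {c : ℚ_[ℓ]}
    (h : gᵀ * J * g = c • J) : (g.map j)ᵀ * J.map j * g.map j = j c • J.map j := by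
  rw [← Matrix.transpose_map, ← Matrix.map_mul, ← Matrix.map_mul, h]
  ext a b
  simp

lemma sim_pow {γ : Γ} {c : ℚ_[ℓ]} (h : (ρ γ)ᵀ * J * ρ γ = c • J) (m : ℕ) :
    (ρ (γ ^ m))ᵀ * J * ρ (γ ^ m) = c ^ m • J := by
  induction m with
  | zero => rw [pow_zero, map_one, Matrix.transpose_one, one_mul, mul_one, pow_zero, one_smul]
  | succ m ih =>
    rw [pow_succ, map_mul, Matrix.transpose_mul]
    calc (ρ γ)ᵀ * (ρ (γ ^ m))ᵀ * J * (ρ (γ ^ m) * ρ γ)
        = (ρ γ)ᵀ * ((ρ (γ ^ m))ᵀ * J * ρ (γ ^ m)) * ρ γ := by simp only [Matrix.mul_assoc]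
      _ = c ^ (m + 1) • J := by
        rw [ih, Matrix.mul_smul, Matrix.smul_mul, h, smul_smul, pow_succ]

lemma mem_St_of_unif [Infinite K] {j : ℚ_[ℓ] →+* K} {Δ : Subgroup Γ} (hΔ : Δ.FiniteIndex)
    (hu : ∀ f ∈ IG ρ j, ∀ s ∈ Δ, ev ((ρ s).map j) f = 0) {γ : Γ} (hγ : γ ∈ Δ) :
    (ρ γ).map j ∈ St (IG ρ j) := by
  intro f hf
  refine ⟨Δ, hΔ, fun s hs => ?_⟩
  rw [ev_sub, one_mul, ← Matrix.map_mul, ← map_mul]
  exact hu f hf _ (Δ.mul_mem hs hγ)

lemma smul_one_eq (c : K) :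
    pw {1} (fun _ => (1 : Matrix (Fin N) (Fin N) K)) c = c • (1 : Matrix (Fin N) (Fin N) K) := by
  rw [pw, Finset.sum_singleton, zpow_one]

lemma gr_one : Gr {1} (fun _ => (1 : Matrix (Fin N) (Fin N) K)) := by
  constructor
  · intro a ha b hb
    rw [Finset.mem_singleton] at ha hb
    rw [ha, hb, if_pos rfl, one_mul]
  · rw [Finset.sum_singleton]

theorem key [CharZero K] [TopologicalSpace Γ] [IsTopologicalGroup Γ] [CompactSpace Γ] [IsAlgClosed K]
    (hTRV : S_TRV) (hUNI : S_UNI) (hρ : Continuous ρ) (j : ℚ_[ℓ] →+* K) (hJ : Jᵀ = -J)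
    (hd : J.det ≠ 0)
    (hsim : ∀ γ, ∃ c : ℚ_[ℓ], (ρ γ)ᵀ * J * ρ γ = c • J)
    (hun : ∃ γ, ∃ c : ℚ_[ℓ], (ρ γ)ᵀ * J * ρ γ = c • J ∧ ∀ m : ℕ, 0 < m → c ^ m ≠ 1)
    (htan : ∀ X, Xᵀ * J + J * X = 0 → Pool.Agent.Y142.ZO.IsTangent ℓ ρ X)
    (g : Matrix (Fin N) (Fin N) K) (hg : g.det ≠ 0) :
    InZS (IG ρ j) g ↔ ∃ c : K, gᵀ * J.map j * g = c • J.map j := by
  constructor
  · intro h
    refine factor_of g fun a b c d => ?_
    rw [← ev_pol]
    refine h _ ⟨⊤, inferInstance, fun s _ => ?_⟩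
    obtain ⟨t, ht⟩ := hsim s
    rw [ev_pol, sim_map j ht]
    simp only [Matrix.smul_apply, smul_eq_mul]
    ring
  · rintro ⟨c, hc⟩
    rcases Nat.eq_zero_or_pos N with hN | hN
    · subst hN
      have h1 : g = 1 := Subsingleton.elim _ _
      rw [h1]
      exact InZS_one
    have hdK : (J.map j).det ≠ 0 := by
      rw [← RingHom.mapMatrix_apply, ← RingHom.map_det]
      exact (map_ne_zero j).2 hd
    have hJK : (J.map j)ᵀ = -(J.map j) := by
      rw [← Matrix.transpose_map, hJ]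
      ext a b
      simp
    -- the Lie algebra
    have hLS : ∀ X : Matrix (Fin N) (Fin N) K, Xᵀ * J.map j + J.map j * X = 0 →
        X ∈ LS (IG ρ j) := by
      refine skew_span j hJ hd _ fun Y hY => ?_
      obtain ⟨σ, hσ⟩ := htan Y hY
      exact Pool.Agent.R932.tan_LS hρ hσ j
    -- the symplectic group
    have hSp : ∀ x : Matrix (Fin N) (Fin N) K, xᵀ * J.map j * x = J.map j → x ∈ St (IG ρ j) := by
      intro x hx
      refine hTRV K N (J.map j) hJK hdK (St (IG ρ j)) (fun v t => ?_) x hx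
      exact hUNI K (Fin N) (IG ρ j) _ (hLS _ (tv_skew hJK v t)) (tv_sq hJK v t)
    -- the scalars
    have hsc : ∀ t : K, t ≠ 0 → t • (1 : Matrix (Fin N) (Fin N) K) ∈ St (IG ρ j) := by
      obtain ⟨Δ, hΔ, hu⟩ := exists_unif ρ j
      obtain ⟨γ, c, hγ, hcm⟩ := hun
      obtain ⟨m, hm, hγm⟩ : ∃ m : ℕ, 0 < m ∧ γ ^ m ∈ Δ := by
        have hM0 : Δ.normalCore.index ≠ 0 := Subgroup.FiniteIndex.index_ne_zero
        exact ⟨Δ.normalCore.index, Nat.pos_of_ne_zero hM0,
          Δ.normalCore_le (Δ.normalCore.pow_index_mem γ)⟩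
      have h1 := sim_map j (sim_pow hγ m)
      have h1i : ρ (γ ^ m) * ρ (γ ^ m)⁻¹ = 1 := by rw [← map_mul, mul_inv_cancel, map_one]
      obtain ⟨r, hr⟩ : ∃ r, r = (ρ (γ ^ m)).map j := ⟨_, rfl⟩
      obtain ⟨r', hr'⟩ : ∃ r', r' = (ρ (γ ^ m)⁻¹).map j := ⟨_, rfl⟩
      have hrr : r * r' = 1 := by
        rw [hr, hr', ← Matrix.map_mul, h1i, Matrix.map_one _ (map_zero _) (map_one _)]
      rw [← hr] at h1
      have hrS : r ∈ St (IG ρ j) := by
        rw [hr]
        exact mem_St_of_unif hΔ hu hγm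
      have hrd : r.det ≠ 0 := by
        intro h0
        have h2 := congrArg Matrix.det hrr
        rw [Matrix.det_mul, h0, zero_mul, Matrix.det_one] at h2
        exact zero_ne_one h2
      have hc0 : j (c ^ m) ≠ 0 := factor_ne hN hdK hrd h1
      obtain ⟨s, hs⟩ := IsAlgClosed.exists_pow_nat_eq (j (c ^ m)) (n := 2) (by norm_num)
      have hs0 : s ≠ 0 := by
        rintro rfl
        rw [zero_pow two_ne_zero] at hs
        exact hc0 hs.symm
      have h2 : r'ᵀ * J.map j * r' = (j (c ^ m))⁻¹ • J.map j := by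
        have h3 : r'ᵀ * (rᵀ * J.map j * r) * r' = J.map j := by
          calc r'ᵀ * (rᵀ * J.map j * r) * r' = (r * r')ᵀ * J.map j * (r * r') := by
                rw [Matrix.transpose_mul]
                simp only [Matrix.mul_assoc]
            _ = J.map j := by rw [hrr, Matrix.transpose_one, one_mul, mul_one]
        rw [h1, Matrix.mul_smul, Matrix.smul_mul] at h3
        rw [← h3, smul_smul, h3, inv_mul_cancel₀ hc0, one_smul]
      have h3 : s • r' ∈ St (IG ρ j) := by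
        refine hSp _ ?_
        rw [sim_smul h2, ← pow_two, hs, mul_inv_cancel₀ hc0, one_smul]
      have h4 : s • (1 : Matrix (Fin N) (Fin N) K) ∈ St (IG ρ j) := by
        have h5 := (St (IG ρ j)).mul_mem hrS h3
        rwa [Matrix.mul_smul, hrr] at h5
      have h5 : ∀ k : ℕ, s ^ k • (1 : Matrix (Fin N) (Fin N) K) ∈ St (IG ρ j) := by
        intro k
        have h6 := (St (IG ρ j)).pow_mem h4 k
        rwa [smul_pow, one_pow] at h6
      have h6 : Function.Injective fun k : ℕ => s ^ k := by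
        intro a b hab
        by_contra hne
        have h7 : ∀ a b : ℕ, a < b → s ^ a = s ^ b → False := by
          intro a b hlt hab
          have h8 : s ^ (b - a) = 1 := by
            have h9 : s ^ a * s ^ (b - a) = s ^ a * 1 := by
              rw [← pow_add, Nat.add_sub_cancel' hlt.le, mul_one, hab]
            exact mul_left_cancel₀ (pow_ne_zero _ hs0) h9
          have h9 : j (c ^ (m * (b - a))) = 1 := by
            rw [pow_mul, map_pow, ← hs, ← pow_mul, mul_comm 2, pow_mul, h8, one_pow]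
          refine hcm (m * (b - a)) (Nat.mul_pos hm (Nat.sub_pos_of_lt hlt)) ?_
          apply j.injective
          rw [h9, map_one]
        rcases lt_or_gt_of_ne hne with h | h
        · exact h7 a b h hab
        · exact h7 b a h hab.symm
      have h7 : dr {1} (fun _ => (1 : Matrix (Fin N) (Fin N) K)) ∈ LS (IG ρ j) := by
        refine dr_mem_LS gr_one fun f hf => ?_
        refine (Set.infinite_range_of_injective h6).mono ?_
        rintro _ ⟨k, rfl⟩
        refine ⟨pow_ne_zero _ hs0, ?_⟩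
        rw [smul_one_eq]
        exact h5 k f hf
      intro t ht
      have h8 := pw_mem_St gr_one h7 ht
      rwa [smul_one_eq] at h8
    -- conclusion
    have hc0 : c ≠ 0 := factor_ne hN hdK hg hc
    obtain ⟨t, ht⟩ := IsAlgClosed.exists_pow_nat_eq c (n := 2) (by norm_num)
    have ht0 : t ≠ 0 := by
      rintro rfl
      rw [zero_pow two_ne_zero] at ht
      exact hc0 ht.symm
    have h1 : t⁻¹ • g ∈ St (IG ρ j) := by
      refine hSp _ ?_
      rw [sim_smul hc, ← ht]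
      have h2 : t⁻¹ * t⁻¹ * t ^ 2 = 1 := by field_simp
      rw [h2, one_smul]
    have h2 : g = (t • (1 : Matrix (Fin N) (Fin N) K)) * (t⁻¹ • g) := by
      rw [Matrix.smul_mul, one_mul, smul_smul, mul_inv_cancel₀ ht0, one_smul]
    rw [h2]
    exact InZS_of_St InZS_one ((St (IG ρ j)).mul_mem (hsc t ht0) h1)

end main

end Pool.Agent.T2h63.MT.G

namespace Pool.Agent.T2h63.MT

open Pool.Agent.Y95.MT

theorem t_MTG (hTRV : S_TRV) (hUNI : S_UNI) : S_MTG := by
  intro ℓ _ N Γ _ _ _ _ ρ hρ J hJ hd hsim hun htan g hg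
  rw [InG0_iff]
  exact G.key hTRV hUNI hρ _ hJ hd hsim hun htan g hg

end Pool.Agent.T2h63.MT
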