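import Pool.Agent.T2h63.MT.Stm2
import Pool.Agent.T2h63.MT.MTG

/-!
# GAC (helper5): the Lie algebra of the second summand is an ideal of the symplectic Lie algebra
-/

set_option autoImplicit false

open Matrix MvPolynomial

namespace Pool.Agent.T2h63.MT.GAC

open Pool.Agent.Y95.MT Pool.Agent.W528.ZC

section adj

variable {K : Type} [Field K] {ι : Type} [Fintype ι] [DecidableEq ι]

theorem lin_sum (φ : Matrix ι ι K →ₗ[K] K) (M : Matrix ι ι K) :
    φ M = ∑ a, ∑ b, φ (Matrix.single a b 1) * M a b := by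
  conv_lhs => rw [Matrix.matrix_eq_sum_single M]
  rw [map_sum]
  refine Finset.sum_congr rfl fun a _ => ?_
  rw [map_sum]
  refine Finset.sum_congr rfl fun b _ => ?_
  have h : Matrix.single a b (M a b) = M a b • Matrix.single a b (1 : K) := by
    rw [Matrix.smul_single, smul_eq_mul, mul_one]
  rw [h, map_smul, smul_eq_mul, mul_comm]

theorem map_D_mul (y : Matrix ι ι K) (A B : Matrix ι ι (MvPolynomial (ι × ι) K)) :
    (A * B).map (fun f => ev 1 (D y f)) =
      A.map (fun f => ev 1 (D y f)) * B.map (ev 1) + A.map (ev 1) * B.map (fun f => ev 1 (D y f)) := by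
  ext a b
  rw [Matrix.map_apply, Matrix.mul_apply, Matrix.add_apply, Matrix.mul_apply, Matrix.mul_apply,
    map_sum, map_sum, ← Finset.sum_add_distrib]
  refine Finset.sum_congr rfl fun i _ => ?_
  rw [Derivation.leibniz, map_add, smul_eq_mul, smul_eq_mul, map_mul, map_mul]
  simp only [Matrix.map_apply]
  ring

/-- the generic matrix -/
noncomputable def gen (ι K : Type) [Field K] : Matrix ι ι (MvPolynomial (ι × ι) K) :=
  Matrix.of fun a b => X (a, b)

theorem gen_ev (g : Matrix ι ι K) : (gen ι K).map (ev g) = g := by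
  ext a b
  rw [Matrix.map_apply, gen, Matrix.of_apply, ev_X]

theorem gen_D (y : Matrix ι ι K) : (gen ι K).map (fun f => ev 1 (D y f)) = y := by
  ext a b
  rw [Matrix.map_apply, gen, Matrix.of_apply, D_X, map_sum]
  simp only [map_mul, ev_C, ev_X]
  rw [Finset.sum_eq_single a]
  · rw [Matrix.one_apply_eq, mul_one]
  · intro i _ hi
    rw [Matrix.one_apply_ne (Ne.symm hi), mul_zero]
  · intro h
    exact absurd (Finset.mem_univ a) h

theorem adj_ev (g : Matrix ι ι K) : (gen ι K).adjugate.map (ev g) = g.adjugate := by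
  have h := (ev g).toRingHom.map_adjugate (gen ι K)
  have h2 : (ev g).toRingHom.mapMatrix (gen ι K) = g := gen_ev g
  rw [h2] at h
  exact h

theorem adj_D (y : Matrix ι ι K) : ∃ c : K,
    (gen ι K).adjugate.map (fun f => ev 1 (D y f)) = c • (1 : Matrix ι ι K) - y := by
  refine ⟨ev 1 (D y (gen ι K).det), ?_⟩
  have h1 := map_D_mul y (gen ι K) (gen ι K).adjugate
  rw [Matrix.mul_adjugate, gen_D, gen_ev, adj_ev, Matrix.adjugate_one, mul_one, one_mul] at h1
  have h2 : ((gen ι K).det • (1 : Matrix ι ι (MvPolynomial (ι × ι) K))).map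
      (fun f => ev 1 (D y f)) = ev 1 (D y (gen ι K).det) • (1 : Matrix ι ι K) := by
    ext a b
    rw [Matrix.map_apply, Matrix.smul_apply, Matrix.smul_apply, smul_eq_mul, smul_eq_mul]
    by_cases hab : a = b
    · rw [hab, Matrix.one_apply_eq, Matrix.one_apply_eq, mul_one, mul_one]
    · rw [Matrix.one_apply_ne hab, Matrix.one_apply_ne hab, mul_zero, mul_zero, map_zero, map_zero]
  rw [h2] at h1
  rw [h1]
  abel

/-- for a linear functional `φ` the function `g ↦ φ (g Z adj g)` is a polynomial -/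
theorem exists_adj (φ : Matrix ι ι K →ₗ[K] K) (Z : Matrix ι ι K) :
    ∃ f : MvPolynomial (ι × ι) K, (∀ g, ev g f = φ (g * Z * g.adjugate)) ∧
      ∀ y, ∃ c : K, ev 1 (D y f) = φ (y * Z - Z * y) + c * φ Z := by
  obtain ⟨P, hP⟩ : ∃ P, P = gen ι K * Z.map C * (gen ι K).adjugate := ⟨_, rfl⟩
  have hZ1 : ∀ g : Matrix ι ι K, (Z.map (C : K → MvPolynomial (ι × ι) K)).map (ev g) = Z := by
    intro g
    ext a b
    rw [Matrix.map_apply, Matrix.map_apply, ev_C]
  have hZ2 : ∀ y : Matrix ι ι K, (Z.map (C : K → MvPolynomial (ι × ι) K)).map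
      (fun f => ev 1 (D y f)) = 0 := by
    intro y
    ext a b
    rw [Matrix.map_apply, Matrix.map_apply, Matrix.zero_apply]
    have h : D y (C (Z a b)) = 0 := by
      have := (D y).map_algebraMap (Z a b)
      rwa [MvPolynomial.algebraMap_eq] at this
    rw [h, map_zero]
  refine ⟨∑ a, ∑ b, C (φ (Matrix.single a b 1)) * P a b, fun g => ?_, fun y => ?_⟩
  · have h1 : P.map (ev g) = g * Z * g.adjugate := by
      have h2 : P.map (ev g) = (gen ι K).map (ev g) * (Z.map C).map (ev g) *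
          (gen ι K).adjugate.map (ev g) := by
        rw [hP]
        rw [Matrix.map_mul, Matrix.map_mul]
      rw [h2, gen_ev, hZ1, adj_ev]
    rw [lin_sum φ (g * Z * g.adjugate), ← h1, map_sum]
    refine Finset.sum_congr rfl fun a _ => ?_
    rw [map_sum]
    refine Finset.sum_congr rfl fun b _ => ?_
    rw [map_mul, ev_C, Matrix.map_apply]
  · obtain ⟨c, hc⟩ := adj_D y
    refine ⟨c, ?_⟩
    have h1 : P.map (fun f => ev 1 (D y f)) = y * Z - Z * y + c • Z := by
      rw [hP, map_D_mul, map_D_mul, hc, hZ2, gen_D, hZ1, adj_ev, Matrix.adjugate_one]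
      have h3 : (gen ι K * Z.map C).map (ev (1 : Matrix ι ι K)) = Z := by
        rw [Matrix.map_mul, gen_ev, hZ1, one_mul]
      rw [h3, mul_zero, add_zero, mul_one, mul_sub, Matrix.mul_smul, mul_one]
      abel
    have h2 : φ (y * Z - Z * y) + c * φ Z = φ (P.map (fun f => ev 1 (D y f))) := by
      rw [h1, map_add, map_smul, smul_eq_mul]
    rw [h2, lin_sum φ (P.map _), map_sum, map_sum]
    refine Finset.sum_congr rfl fun a _ => ?_
    rw [map_sum, map_sum]
    refine Finset.sum_congr rfl fun b _ => ?_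
    rw [Derivation.leibniz]
    have h : D y (C (φ (Matrix.single a b 1))) = 0 := by
      have := (D y).map_algebraMap (φ (Matrix.single a b 1))
      rwa [MvPolynomial.algebraMap_eq] at this
    rw [h, smul_zero, add_zero, smul_eq_mul, map_mul, ev_C, Matrix.map_apply]

end adj

section conj

variable {k K : Type} [Field k] [Field K] {ι : Type} [Fintype ι] [DecidableEq ι] {Γ : Type}
  [Group Γ] {ρ : Γ →* Matrix ι ι k} {j : k →+* K}

theorem map_mul_inv (s : Γ) : (ρ s).map j * (ρ s⁻¹).map j = 1 := by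
  rw [← Matrix.map_mul, ← map_mul, mul_inv_cancel, map_one,
    Matrix.map_one _ (map_zero _) (map_one _)]

theorem conj_LS (s : Γ) {y : Matrix ι ι K} (hy : y ∈ LS (IG ρ j)) :
    (ρ s).map j * y * (ρ s⁻¹).map j ∈ LS (IG ρ j) := by
  have h1 : ∀ s : Γ, (ρ s).map j * (ρ s⁻¹).map j = 1 := fun s => map_mul_inv s
  have h2 : ∀ (s : Γ) (f : MvPolynomial (ι × ι) K), f ∈ IG ρ j →
      Pool.Agent.W528.ZC.sub ((ρ s).map j) ((ρ s⁻¹).map j) f ∈ IG ρ j := by
    rintro s f ⟨Δ, hΔ, hf⟩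
    refine ⟨Δ.normalCore, inferInstance, fun t ht => ?_⟩
    rw [ev_sub, ← Matrix.map_mul, ← map_mul, ← Matrix.map_mul, ← map_mul]
    exact hf _ (Δ.normalCore_le (Δ.normalCore_normal.conj_mem t ht s))
  refine LS_conj (h1 s) ?_ (h2 s) ?_ hy
  · have h3 := h1 s⁻¹
    rwa [inv_inv] at h3
  · have h3 := h2 s⁻¹
    rwa [inv_inv] at h3

end conj

/-- the second block -/
def fbl (κ : Type) [Fintype κ] [DecidableEq κ] (K : Type) [Field K] (n : ℕ) :
    Matrix (Fin n) (Fin n) K →ₗ[K] Matrix (κ ⊕ Fin n) (κ ⊕ Fin n) K where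
  toFun Z := fromBlocks 0 0 0 Z
  map_add' A B := by
    rw [Matrix.fromBlocks_add]
    simp
  map_smul' c A := by
    rw [Matrix.fromBlocks_smul]
    simp

theorem fbl_apply {κ : Type} [Fintype κ] [DecidableEq κ] {K : Type} [Field K] {n : ℕ}
    (Z : Matrix (Fin n) (Fin n) K) : fbl κ K n Z = fromBlocks 0 0 0 Z := rfl

theorem fb_map {κ : Type} {n : ℕ} {k K : Type} [Field k] [Field K] (j : k →+* K)
    (A : Matrix κ κ k) (B : Matrix (Fin n) (Fin n) k) :
    (fromBlocks A 0 0 B).map j = fromBlocks (A.map j) 0 0 (B.map j) := by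
  ext a b
  rcases a with a | a <;> rcases b with b | b <;> simp

theorem main {κ : Type} [Fintype κ] [DecidableEq κ] {N : ℕ} {Γ : Type} [Group Γ]
    {k K : Type} [Field k] [Field K]
    (a : Γ →* Matrix κ κ k) (ρ : Γ →* Matrix (Fin N) (Fin N) k) (j : k →+* K)
    (Z : Matrix (Fin N) (Fin N) K) (hZ : fromBlocks 0 0 0 Z ∈ LS (IG (dsum a ρ) j))
    (A : Matrix (Fin N) (Fin N) K) (hA : A ∈ LS (IG ρ j)) :
    fromBlocks 0 0 0 (A * Z - Z * A) ∈ LS (IG (dsum a ρ) j) := by
  obtain ⟨Lb, hLb⟩ : ∃ Lb, Lb = (LS (IG (dsum a ρ) j)).comap (fbl κ K N) := ⟨_, rfl⟩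
  have hmem : ∀ Z : Matrix (Fin N) (Fin N) K, Z ∈ Lb ↔
      fromBlocks 0 0 0 Z ∈ LS (IG (dsum a ρ) j) := by
    intro Z
    rw [hLb]
    rfl
  have hconj : ∀ (s : Γ) (Z : Matrix (Fin N) (Fin N) K), Z ∈ Lb →
      (ρ s).map j * Z * (ρ s⁻¹).map j ∈ Lb := by
    intro s Z hZ
    rw [hmem] at hZ ⊢
    have h := conj_LS s hZ
    have h1 : ∀ s : Γ, dsum a ρ s = fromBlocks (a s) 0 0 (ρ s) := fun s => rfl
    rw [h1, h1, fb_map, fb_map, Matrix.fromBlocks_multiply, Matrix.fromBlocks_multiply] at h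
    simpa using h
  rw [← hmem] at hZ ⊢
  by_contra hcon
  obtain ⟨φ, hφ, hφL⟩ := Submodule.exists_le_ker_of_notMem hcon
  obtain ⟨f, hf1, hf2⟩ := exists_adj φ Z
  have hfI : f ∈ IG ρ j := by
    refine ⟨⊤, inferInstance, fun s _ => ?_⟩
    rw [hf1]
    obtain ⟨g, hg⟩ : ∃ g, g = (ρ s).map j := ⟨_, rfl⟩
    obtain ⟨g', hg'⟩ : ∃ g', g' = (ρ s⁻¹).map j := ⟨_, rfl⟩
    have h2 : g * g' = 1 := by
      rw [hg, hg']
      exact map_mul_inv s
    rw [← hg]
    have h3 : g.adjugate = g.det • g' := by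
      calc g.adjugate = g.adjugate * (g * g') := by rw [h2, mul_one]
        _ = g.det • g' := by
          rw [← Matrix.mul_assoc, Matrix.adjugate_mul, Matrix.smul_mul, one_mul]
    rw [h3, Matrix.mul_smul, map_smul]
    have h4 := hconj s Z hZ
    rw [← hg, ← hg'] at h4
    rw [LinearMap.mem_ker.1 (hφL h4), smul_zero]
  obtain ⟨Δ, hΔ, h1⟩ := hA f hfI
  have h2 := h1 1 Δ.one_mem
  rw [map_one, Matrix.map_one _ (map_zero _) (map_one _)] at h2
  obtain ⟨c, hc⟩ := hf2 A
  rw [h2, LinearMap.mem_ker.1 (hφL hZ), mul_zero, add_zero] at hc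
  exact hφ hc.symm

end Pool.Agent.T2h63.MT.GAC

namespace Pool.Agent.T2h63.MT

open Pool.Agent.Y95.MT

/-- GAC -/
theorem t_GAC : S_GAC := by
  intro ℓ _ κ _ _ N Γ _ _ _ _ a ρ hρ J hJ hd htan K _ _ _ j Z hZ A hA
  refine GAC.main a ρ j Z hZ A ?_
  refine G.skew_span j hJ hd _ (fun Y hY => ?_) A hA
  obtain ⟨σ, hσ⟩ := htan Y hY
  exact Pool.Agent.R932.tan_LS hρ hσ j

end Pool.Agent.T2h63.MT
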