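import Pool.Agent.T2h63.MT.Stm2

/-!
# A nonzero element of the Lie algebra of the second summand from an independent eigenvalue
-/

set_option autoImplicit false
set_option linter.unusedSectionVars false

namespace Pool.Agent.T2h63.MT.GAE

open MvPolynomial Matrix Pool.Agent.W528.ZC Pool.Agent.Y95.MT Pool.Agent.R932
open Pool.Agent.T2h63.MT (dsum Mul)

noncomputable section

section

variable {k K : Type} [Field k] [Field K] {κ : Type} [Fintype κ] [DecidableEq κ] {N : ℕ}
  {Γ : Type} [Group Γ] {a : Γ →* Matrix κ κ k} {ρ : Γ →* Matrix (Fin N) (Fin N) k} {j : k →+* K}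

theorem dsum_map (γ : Γ) :
    (dsum a ρ γ).map j = fromBlocks ((a γ).map j) 0 0 ((ρ γ).map j) := by
  show (fromBlocks (a γ) 0 0 (ρ γ)).map j = _
  ext x y
  rcases x with x | x <;> rcases y with y | y <;> simp

/-- the polynomial which says that the multiplier is the coordinate of the first summand -/
def mp (κ : Type) (J : Matrix (Fin N) (Fin N) K) (o : κ) (x y : Fin N) :
    MvPolynomial ((κ ⊕ Fin N) × (κ ⊕ Fin N)) K :=
  (∑ p, ∑ q, X (Sum.inr p, Sum.inr x) * (C (J p q) * X (Sum.inr q, Sum.inr y))) -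
    X (Sum.inl o, Sum.inl o) * C (J x y)

theorem ev_mp (J : Matrix (Fin N) (Fin N) K) (o : κ) (x y : Fin N) (A : Matrix κ κ K)
    (B : Matrix (Fin N) (Fin N) K) :
    ev (fromBlocks A 0 0 B) (mp κ J o x y) = (Bᵀ * J * B) x y - A o o * J x y := by
  unfold mp
  rw [map_sub, map_mul, ev_X, ev_C, map_sum]
  simp only [Matrix.fromBlocks_apply₁₁]
  congr 1
  rw [Matrix.mul_assoc, Matrix.mul_apply]
  refine Finset.sum_congr rfl fun p _ => ?_
  rw [map_sum, Matrix.mul_apply, Finset.mul_sum]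
  refine Finset.sum_congr rfl fun q _ => ?_
  rw [map_mul, map_mul, ev_X, ev_X, ev_C]
  simp only [Matrix.fromBlocks_apply₂₂, Matrix.transpose_apply]

theorem ev_D_mp (J : Matrix (Fin N) (Fin N) K) (o : κ) (x y : Fin N)
    (Z : Matrix (Fin N) (Fin N) K) :
    ev 1 (D (fromBlocks 0 0 0 Z) (mp κ J o x y)) = (Zᵀ * J + J * Z) x y := by
  unfold mp
  rw [map_sub, map_sub, ev_D_mul, ev_D_C, mul_zero, zero_add, ev_D_X, ev_C, one_mul]
  simp only [Matrix.fromBlocks_apply₁₁, Matrix.zero_apply, mul_zero, sub_zero]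
  rw [map_sum, map_sum, Matrix.add_apply, Matrix.mul_apply, Matrix.mul_apply]
  have h : ∀ p : Fin N, ev (1 : Matrix (κ ⊕ Fin N) (κ ⊕ Fin N) K) (D (fromBlocks 0 0 0 Z)
      (∑ q, X (Sum.inr p, Sum.inr x) * (C (J p q) * X (Sum.inr q, Sum.inr y)))) =
      (if p = x then (1 : K) else 0) * (∑ q, J p q * Z q y) + J p y * Z p x := by
    intro p
    rw [map_sum, map_sum]
    have h2 : ∀ q : Fin N, ev (1 : Matrix (κ ⊕ Fin N) (κ ⊕ Fin N) K) (D (fromBlocks 0 0 0 Z)
        (X (Sum.inr p, Sum.inr x) * (C (J p q) * X (Sum.inr q, Sum.inr y)))) =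
        (if p = x then (1 : K) else 0) * (J p q * Z q y) +
          (J p q * (if q = y then (1 : K) else 0)) * Z p x := by
      intro q
      rw [ev_D_mul, ev_D_mul, ev_D_C, ev_D_X, ev_D_X, map_mul, ev_X, ev_X, ev_C, one_mul, mul_zero,
        add_zero]
      simp only [Matrix.fromBlocks_apply₂₂, Matrix.one_apply, Sum.inr.injEq]
    simp only [h2]
    rw [Finset.sum_add_distrib, ← Finset.mul_sum, ← Finset.sum_mul]
    congr 2
    simp
  simp only [h]
  rw [Finset.sum_add_distrib]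
  rw [add_comm]
  congr 1
  · refine Finset.sum_congr rfl fun p _ => ?_
    rw [Matrix.transpose_apply, mul_comm]
  · simp

theorem skew_of_LS {J : Matrix (Fin N) (Fin N) k} {o : κ}
    (hmul : ∀ γ, (ρ γ)ᵀ * J * ρ γ = a γ o o • J) {Z : Matrix (Fin N) (Fin N) K}
    (hZ : fromBlocks 0 0 0 Z ∈ LS (IG (dsum a ρ) j)) : Zᵀ * J.map j + J.map j * Z = 0 := by
  ext x y
  have h1 : mp κ (J.map j) o x y ∈ IG (dsum a ρ) j := by
    refine ⟨⊤, inferInstance, fun s _ => ?_⟩
    rw [dsum_map, ev_mp]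
    have h2 := congrArg (fun M : Matrix (Fin N) (Fin N) k => M.map j x y) (hmul s)
    simp only [Matrix.map_mul, Matrix.transpose_map] at h2
    rw [h2]
    simp
  have h2 := InZS_one _ (hZ _ h1)
  rw [ev_D_mp] at h2
  rw [h2, Matrix.zero_apply]

end

variable {ℓ : ℕ} [Fact ℓ.Prime] {n : ℕ} {κ : Type} [Fintype κ] [DecidableEq κ] {Γ : Type}
  [Group Γ] {β : Γ →* Matrix (Fin n) (Fin n) ℚ_[ℓ]} {v : Γ →* Matrix κ κ ℚ_[ℓ]}
  {K : Type} [Field K] [CharZero K] [IsAlgClosed K] {j : ℚ_[ℓ] →+* K}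

theorem exists_LS {U : Submodule K (Fin n → K)} {γ : Γ}
    (h : Ind ((v γ).map j) ((β γ).map j) U) :
    ∃ Z : Matrix (Fin n) (Fin n) K, fromBlocks 0 0 0 Z ∈ LS (IG (dsum v β) j) ∧
      ∃ w ∈ U, Z *ᵥ w = w ∧ w ≠ 0 := by
  classical
  obtain ⟨x, ⟨w, hwU, hw0, hw⟩, hx⟩ := h
  obtain ⟨k, hk, hkG, hkx⟩ := exists_k hx
  obtain ⟨A, hA⟩ : ∃ A, A = (v γ).map j := ⟨_, rfl⟩
  obtain ⟨B, hB⟩ : ∃ B, B = (β γ).map j := ⟨_, rfl⟩
  obtain ⟨F, hF⟩ : ∃ F, F = (dsum v β γ).map j := ⟨_, rfl⟩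
  have hFb : F = fromBlocks A 0 0 B := by
    rw [hF, hA, hB, dsum_map]
  rw [← hB] at hw
  rw [← hA] at hkG hx
  obtain ⟨P, hP⟩ := exists_crt k (Fintype.card (κ ⊕ Fin n))
    (insert (x : K) (F.charpoly.roots.toFinset ∪ A.charpoly.roots.toFinset))
  have hPx : ∀ y : K, y = x ∨ y ∈ F.charpoly.roots ∨ y ∈ A.charpoly.roots →
      (Polynomial.X - Polynomial.C y) ^ Fintype.card (κ ⊕ Fin n) ∣ P - Polynomial.C (k y) := by
    intro y hy
    refine hP y ?_
    rw [Finset.mem_insert, Finset.mem_union, Multiset.mem_toFinset, Multiset.mem_toFinset]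
    exact hy
  have hcard : Fintype.card (κ ⊕ Fin n) = Fintype.card κ + n := by simp
  have hAA : A * (v γ⁻¹).map j = 1 := by
    rw [hA, ← Matrix.map_mul, ← map_mul, mul_inv_cancel, map_one,
      Matrix.map_one _ (map_zero _) (map_one _)]
  have hFF : F * (dsum v β γ⁻¹).map j = 1 := by
    rw [hF, ← Matrix.map_mul, ← map_mul, mul_inv_cancel, map_one,
      Matrix.map_one _ (map_zero _) (map_one _)]
  have h1 : Polynomial.aeval F P ∈ LS (IG (dsum v β) j) := by
    refine torus_LS γ hk fun u => ?_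
    refine Submodule.span_mono ?_ (gen_top F u)
    rintro u ⟨y, hy, hu⟩
    refine ⟨y, charpoly_root_ne hFF hy, ⟨Fintype.card (κ ⊕ Fin n), ?_⟩,
      aeval_gen (hPx y (Or.inr (Or.inl hy))) hu⟩
    rw [← hF]
    exact hu
  have h2 : Polynomial.aeval A P = 0 := by
    have h3 : ∀ u, Polynomial.aeval A P *ᵥ u = 0 := by
      intro u
      have h4 := gen_top A u
      induction h4 using Submodule.span_induction with
      | mem u hu =>
        obtain ⟨y, hy, hu⟩ := hu
        have hy0 := charpoly_root_ne hAA hy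
        have h5 : k y = 0 := by
          have h6 := hkG (Units.mk0 y hy0) (Subgroup.subset_closure (by
            show A.charpoly.IsRoot _
            rw [Units.val_mk0]
            exact (Polynomial.mem_roots (Matrix.charpoly_monic A).ne_zero).1 hy))
          rwa [Units.val_mk0] at h6
        rw [aeval_gen (hPx y (Or.inr (Or.inr hy))) (w := u), h5, zero_smul]
        rw [hcard, add_comm, pow_add, Module.End.mul_apply, hu, map_zero]
      | zero => rw [Matrix.mulVec_zero]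
      | add a b _ _ ha hb => rw [Matrix.mulVec_add, ha, hb, add_zero]
      | smul z a _ ha => rw [Matrix.mulVec_smul, ha, smul_zero]
    ext a b
    have h4 := congrFun (h3 (Pi.single b 1)) a
    rw [Matrix.mulVec_single_one] at h4
    exact h4
  refine ⟨Polynomial.aeval B P, ?_, w, hwU, ?_, hw0⟩
  · rw [hFb, aeval_fb, h2] at h1
    exact h1
  · have hn : 0 < Fintype.card (κ ⊕ Fin n) := by
      rw [hcard]
      rcases Nat.eq_zero_or_pos n with h0 | h0
      · subst h0
        exact absurd (Subsingleton.elim w 0) hw0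
      · omega
    rw [aeval_gen (hPx x (Or.inl rfl)) (w := w), hkx, one_smul]
    obtain ⟨m, hm⟩ : ∃ m, Fintype.card (κ ⊕ Fin n) = m + 1 := ⟨_, (Nat.succ_pred_eq_of_pos hn).symm⟩
    rw [hm, pow_succ, Module.End.mul_apply]
    have h3 : (Matrix.toLin' B - (x : K) • 1) w = 0 := by
      rw [LinearMap.sub_apply, Matrix.toLin'_apply, hw, LinearMap.smul_apply,
        Module.End.one_apply, sub_self]
    have h4 : ((Matrix.toLin' B - (x : K) • 1 : Module.End K (Fin n → K))) w = 0 := h3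
    rw [h4, map_zero]

end

end Pool.Agent.T2h63.MT.GAE

namespace Pool.Agent.T2h63.MT

open Matrix
open Pool.Agent.Y95.MT (LS IG)

/-- **GAE** -/
theorem t_GAE : S_GAE := by
  intro ℓ _ κ _ _ N Γ _ a ρ J o hM K _ _ _ j γ hI
  obtain ⟨Z, hZ, w, -, hw, hw0⟩ := GAE.exists_LS (v := a) (β := ρ) (j := j) hI
  refine ⟨Z, ?_, GAE.skew_of_LS hM.mul hZ, hZ⟩
  rintro rfl
  rw [Matrix.zero_mulVec] at hw
  exact hw0 hw.symm

end Pool.Agent.T2h63.MT
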