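import Pool.Agent.T2h63.MT.Stm2
import Pool.Agent.T2h63.MT.MTG

/-!
# GAI: the monodromy group of the sum (helper3)
-/

set_option autoImplicit false

open Matrix MvPolynomial

namespace Pool.Agent.T2h63.MT.GAI

open Pool.Agent.Y95.MT Pool.Agent.W528.ZC

section alg

variable {K : Type} [Field K] {κ : Type} [Fintype κ] [DecidableEq κ] {N : ℕ}

/-- multiplication of the Lagrangian part by `c` -/
def dm (D : Matrix (Fin N) (Fin N) K) (c : K) : Matrix (Fin N) (Fin N) K := 1 + (c - 1) • D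

theorem dm_sim {J D : Matrix (Fin N) (Fin N) K} (hD : D * D = D) (hJ : Dᵀ * J + J * D = J) (c : K) :
    (dm D c)ᵀ * J * dm D c = c • J := by
  have h0 : Dᵀ * J * D = 0 := by
    have h1 : Dᵀ * J = J - J * D := eq_sub_of_add_eq hJ
    rw [h1, sub_mul, Matrix.mul_assoc, hD, sub_self]
  unfold dm
  rw [Matrix.transpose_add, Matrix.transpose_one, Matrix.transpose_smul]
  have h2 : (1 + (c - 1) • Dᵀ) * J * (1 + (c - 1) • D) =
      J + (c - 1) • (Dᵀ * J + J * D) + ((c - 1) * (c - 1)) • (Dᵀ * J * D) := by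
    simp only [add_mul, mul_add, one_mul, mul_one, Matrix.smul_mul, Matrix.mul_smul, smul_add,
      smul_smul]
    abel
  rw [h2, hJ, h0, smul_zero, add_zero]
  module

theorem dm_mul {D : Matrix (Fin N) (Fin N) K} (hD : D * D = D) (c c' : K) :
    dm D c * dm D c' = dm D (c * c') := by
  unfold dm
  simp only [add_mul, mul_add, one_mul, mul_one, Matrix.smul_mul, Matrix.mul_smul, hD, smul_smul]
  module

theorem dm_one (D : Matrix (Fin N) (Fin N) K) : dm D 1 = 1 := by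
  unfold dm
  rw [sub_self, zero_smul, add_zero]

theorem sim_mul {J g h : Matrix (Fin N) (Fin N) K} {c d : K} (hg : gᵀ * J * g = c • J)
    (hh : hᵀ * J * h = d • J) : (g * h)ᵀ * J * (g * h) = (c * d) • J := by
  rw [Matrix.transpose_mul]
  calc hᵀ * gᵀ * J * (g * h) = hᵀ * (gᵀ * J * g) * h := by simp only [Matrix.mul_assoc]
    _ = (c * d) • J := by rw [hg, Matrix.mul_smul, Matrix.smul_mul, hh, smul_smul]

/-- substitution of the second block -/
noncomputable def sb (D s : Matrix (Fin N) (Fin N) K) (o : κ)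
    (f : MvPolynomial ((κ ⊕ Fin N) × (κ ⊕ Fin N)) K) : MvPolynomial (κ × κ) K :=
  aeval (fun q : (κ ⊕ Fin N) × (κ ⊕ Fin N) =>
    (fromBlocks (Matrix.of fun i j => X (i, j)) 0 0
      (Matrix.of fun i j => C (s i j) + (X (o, o) - 1) * C ((D * s) i j)) :
      Matrix (κ ⊕ Fin N) (κ ⊕ Fin N) (MvPolynomial (κ × κ) K)) q.1 q.2) f

theorem ev_sb (D s : Matrix (Fin N) (Fin N) K) (o : κ) (v : Matrix κ κ K)
    (f : MvPolynomial ((κ ⊕ Fin N) × (κ ⊕ Fin N)) K) :
    ev v (sb D s o f) = ev (fromBlocks v 0 0 (dm D (v o o) * s)) f := by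
  unfold Pool.Agent.W528.ZC.ev sb
  have h : (aeval fun q : κ × κ => v q.1 q.2).comp
      (aeval fun q : (κ ⊕ Fin N) × (κ ⊕ Fin N) =>
      (fromBlocks (Matrix.of fun i j => X (i, j)) 0 0
      (Matrix.of fun i j => C (s i j) + (X (o, o) - 1) * C ((D * s) i j)) :
        Matrix (κ ⊕ Fin N) (κ ⊕ Fin N) (MvPolynomial (κ × κ) K)) q.1 q.2) =
      (aeval (fun q : (κ ⊕ Fin N) × (κ ⊕ Fin N) =>
        (fromBlocks v 0 0 (dm D (v o o) * s)) q.1 q.2) :
        MvPolynomial ((κ ⊕ Fin N) × (κ ⊕ Fin N)) K →ₐ[K] K) := by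
    refine MvPolynomial.algHom_ext fun p => ?_
    rw [AlgHom.comp_apply, aeval_X, aeval_X]
    obtain ⟨x, y⟩ := p
    rcases x with x | x <;> rcases y with y | y
    · simp
    · simp
    · simp
    · simp only [Matrix.fromBlocks_apply₂₂, Matrix.of_apply, map_add, map_mul, map_sub, map_one,
        aeval_X, aeval_C]
      unfold dm
      rw [add_mul, one_mul, Matrix.smul_mul, Matrix.add_apply, Matrix.smul_apply, smul_eq_mul]
      rfl
  exact congrArg (fun F : MvPolynomial ((κ ⊕ Fin N) × (κ ⊕ Fin N)) K →ₐ[K] K => F f) h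

/-- the polynomial which expresses the similitude condition -/
noncomputable def pl (J : Matrix (Fin N) (Fin N) K) (o : κ) (a b : Fin N) :
    MvPolynomial ((κ ⊕ Fin N) × (κ ⊕ Fin N)) K :=
  (∑ x, ∑ y, X (Sum.inr x, Sum.inr a) * C (J x y) * X (Sum.inr y, Sum.inr b)) -
    X (Sum.inl o, Sum.inl o) * C (J a b)

theorem ev_pl (J : Matrix (Fin N) (Fin N) K) (o : κ) (a b : Fin N)
    (G : Matrix (κ ⊕ Fin N) (κ ⊕ Fin N) K) :
    ev G (pl J o a b) = (G.toBlocks₂₂ᵀ * J * G.toBlocks₂₂) a b - G.toBlocks₁₁ o o * J a b := by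
  have h : (G.toBlocks₂₂ᵀ * J * G.toBlocks₂₂) a b =
      ∑ x, ∑ y, G (Sum.inr x) (Sum.inr a) * J x y * G (Sum.inr y) (Sum.inr b) := by
    simp only [Matrix.mul_apply, Matrix.transpose_apply, Finset.sum_mul]
    exact Finset.sum_comm
  rw [h, pl]
  simp only [map_sub, map_mul, map_sum, ev_X, ev_C]
  rfl

end alg

section main

variable {ℓ : ℕ} [Fact ℓ.Prime] {κ : Type} [Fintype κ] [DecidableEq κ] {N : ℕ} {Γ : Type} [Group Γ]
  {K : Type} [Field K] [CharZero K]
  {a : Γ →* Matrix κ κ ℚ_[ℓ]} {ρ : Γ →* Matrix (Fin N) (Fin N) ℚ_[ℓ]}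
  {J : Matrix (Fin N) (Fin N) ℚ_[ℓ]} {o : κ}

theorem mul_oo (hM : Mul ℓ κ N Γ a ρ J o) (γ : Γ) : a γ o o * a γ⁻¹ o o = 1 := by
  have h1 : (a γ * a γ⁻¹) o o = 1 := by
    rw [← map_mul, mul_inv_cancel, map_one, Matrix.one_apply_eq]
  rw [Matrix.mul_apply, Finset.sum_eq_single o] at h1
  · exact h1
  · intro i _ hi
    rw [hM.row γ i hi, zero_mul]
  · intro h
    exact absurd (Finset.mem_univ _) h

theorem main (hTRV : S_TRV) (hUNI : S_UNI) (hLAG : S_LAG) (hM : Mul ℓ κ N Γ a ρ J o)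
    (j : ℚ_[ℓ] →+* K)
    (hLS : ∀ Z : Matrix (Fin N) (Fin N) K, Zᵀ * J.map j + J.map j * Z = 0 →
      fromBlocks 0 0 0 Z ∈ LS (IG (dsum a ρ) j))
    (G : Matrix (κ ⊕ Fin N) (κ ⊕ Fin N) K) (hG : G.det ≠ 0) :
    InZS (IG (dsum a ρ) j) G ↔ G = fromBlocks G.toBlocks₁₁ 0 0 G.toBlocks₂₂ ∧
      InZS (IG a j) G.toBlocks₁₁ ∧
      G.toBlocks₂₂ᵀ * J.map j * G.toBlocks₂₂ = G.toBlocks₁₁ o o • J.map j := by
  have htot : ∀ s, (dsum a ρ s).map j = fromBlocks ((a s).map j) 0 0 ((ρ s).map j) :=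
    fun s => fb_map _ _ _
  constructor
  · intro h
    refine ⟨?_, ?_, ?_⟩
    · ext x y
      rcases x with x | x <;> rcases y with y | y
      · rfl
      · have h1 := h (X (Sum.inl x, Sum.inr y)) ⟨⊤, inferInstance, fun s _ => by
          rw [ev_X, htot, Matrix.fromBlocks_apply₁₂]
          rfl⟩
        rw [ev_X] at h1
        rw [Matrix.fromBlocks_apply₁₂, Matrix.zero_apply]
        exact h1
      · have h1 := h (X (Sum.inr x, Sum.inl y)) ⟨⊤, inferInstance, fun s _ => by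
          rw [ev_X, htot, Matrix.fromBlocks_apply₂₁]
          rfl⟩
        rw [ev_X] at h1
        rw [Matrix.fromBlocks_apply₂₁, Matrix.zero_apply]
        exact h1
      · rfl
    · rintro f ⟨Δ, hΔ, hf⟩
      rw [← ev_upK (n := N)]
      refine h _ ⟨Δ, hΔ, fun s hs => ?_⟩
      rw [ev_upK, htot, Matrix.toBlocks_fromBlocks₁₁]
      exact hf s hs
    · ext x y
      have h1 := h (pl (J.map j) o x y) ⟨⊤, inferInstance, fun s _ => by
        rw [ev_pl, htot, Matrix.toBlocks_fromBlocks₁₁, Matrix.toBlocks_fromBlocks₂₂,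
          Pool.Agent.T2h63.MT.G.sim_map j (hM.mul s), Matrix.smul_apply, smul_eq_mul, Matrix.map_apply (M := a s),
          sub_self]⟩
      rw [ev_pl, sub_eq_zero] at h1
      rw [h1, Matrix.smul_apply, smul_eq_mul]
  · rintro ⟨h1, h2, h3⟩ f hf
    obtain ⟨v, hv⟩ : ∃ v, v = G.toBlocks₁₁ := ⟨_, rfl⟩
    obtain ⟨g, hg⟩ : ∃ g, g = G.toBlocks₂₂ := ⟨_, rfl⟩
    rw [← hv, ← hg] at h1 h3
    rw [← hv] at h2
    have hJK : (J.map j)ᵀ = -(J.map j) := by
      rw [← Matrix.transpose_map, hM.alt]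
      ext x y
      simp
    have hdK : (J.map j).det ≠ 0 := by
      rw [← RingHom.mapMatrix_apply, ← RingHom.map_det]
      exact (map_ne_zero j).2 hM.det
    -- the symplectic group
    have hSp : ∀ x : Matrix (Fin N) (Fin N) K, xᵀ * J.map j * x = J.map j →
        fromBlocks 1 0 0 x ∈ St (IG (dsum a ρ) j) := by
      intro x hx
      let M : Submonoid (Matrix (Fin N) (Fin N) K) :=
        { carrier := {x | fromBlocks 1 0 0 x ∈ St (IG (dsum a ρ) j)}
          one_mem' := by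
            show fromBlocks 1 0 0 1 ∈ St (IG (dsum a ρ) j)
            rw [Matrix.fromBlocks_one]
            exact Submonoid.one_mem _
          mul_mem' := by
            intro x y hx hy
            have h4 := (St (IG (dsum a ρ) j)).mul_mem hx hy
            rw [fb_mul, one_mul] at h4
            exact h4 }
      refine hTRV K N (J.map j) hJK hdK M (fun u t => ?_) x hx
      show fromBlocks 1 0 0 (1 + t • vecMulVec u (u ᵥ* J.map j)) ∈ St (IG (dsum a ρ) j)
      have h4 := hUNI K (κ ⊕ Fin N) (IG (dsum a ρ) j)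
        (fromBlocks 0 0 0 (t • vecMulVec u (u ᵥ* J.map j))) (hLS _ (Pool.Agent.T2h63.MT.G.tv_skew hJK u t)) (by
          rw [fb_mul, Pool.Agent.T2h63.MT.G.tv_sq hJK, mul_zero, Matrix.fromBlocks_zero])
      have h5 : (1 : Matrix (κ ⊕ Fin N) (κ ⊕ Fin N) K) +
          fromBlocks 0 0 0 (t • vecMulVec u (u ᵥ* J.map j)) =
          fromBlocks 1 0 0 (1 + t • vecMulVec u (u ᵥ* J.map j)) := by
        rw [← Matrix.fromBlocks_one, Matrix.fromBlocks_add]
        simp only [add_zero]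
      rw [h5] at h4
      exact h4
    obtain ⟨D, hD, hDJ⟩ := hLAG K N (J.map j) hJK hdK
    -- the row of `v`
    have hrow : ∀ i, i ≠ o → v o i = 0 := by
      intro i hi
      have h4 := h2 (X (o, i)) ⟨⊤, inferInstance, fun s _ => by
        rw [ev_X, Matrix.map_apply, hM.row s i hi, map_zero]⟩
      rwa [ev_X] at h4
    have hvd : v.det ≠ 0 := by
      intro h0
      apply hG
      rw [h1, Matrix.det_fromBlocks_zero₂₁, h0, zero_mul]
    have hvo : v o o ≠ 0 := by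
      intro h0
      apply hvd
      refine Matrix.det_eq_zero_of_row_eq_zero o fun i => ?_
      by_cases hi : i = o
      · rw [hi, h0]
      · exact hrow i hi
    obtain ⟨s, hs⟩ : ∃ s, s = dm D (v o o)⁻¹ * g := ⟨_, rfl⟩
    have hsS : sᵀ * J.map j * s = J.map j := by
      rw [hs, sim_mul (dm_sim hD hDJ _) h3, inv_mul_cancel₀ hvo, one_smul]
    have hgs : g = dm D (v o o) * s := by
      rw [hs, ← Matrix.mul_assoc, dm_mul hD, mul_inv_cancel₀ hvo, dm_one, one_mul]
    have h6 : ev v (sb D s o f) = 0 := by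
      refine h2 _ ?_
      obtain ⟨Δ, hΔ, hu⟩ := exists_unif (dsum a ρ) j
      refine ⟨Δ, hΔ, fun γ hγ => ?_⟩
      rw [ev_sb]
      obtain ⟨t, ht⟩ : ∃ t, t = (ρ γ⁻¹).map j * (dm D (((a γ).map j) o o) * s) := ⟨_, rfl⟩
      have htS : tᵀ * J.map j * t = J.map j := by
        have h7 := sim_mul (dm_sim hD hDJ (((a γ).map j) o o))
          (show sᵀ * J.map j * s = (1 : K) • J.map j by rw [one_smul]; exact hsS)
        have h8 := sim_mul (Pool.Agent.T2h63.MT.G.sim_map j (hM.mul γ⁻¹)) h7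
        rw [ht, h8, mul_one, Matrix.map_apply, ← map_mul, mul_comm, mul_oo hM γ, map_one, one_smul]
      have h7 := hu _ (hSp t htS f hf) γ hγ
      rw [ev_sub, htot, one_mul, fb_mul, mul_one, ht, ← Matrix.mul_assoc, ← Matrix.map_mul,
        ← map_mul, mul_inv_cancel, map_one, Matrix.map_one _ (map_zero _) (map_one _), one_mul]
        at h7
      exact h7
    rw [ev_sb, ← hgs, ← h1] at h6
    exact h6

end main

end Pool.Agent.T2h63.MT.GAI

namespace Pool.Agent.T2h63.MT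

open Pool.Agent.Y95.MT

theorem t_GAI (hTRV : S_TRV) (hUNI : S_UNI) (hLAG : S_LAG) : S_GAI := by
  intro ℓ _ κ _ _ N Γ _ a ρ J o hM hLS G hG
  rw [InG0_iff, InG0_iff]
  exact GAI.main hTRV hUNI hLAG hM _ hLS G hG

end Pool.Agent.T2h63.MT
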