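import Pool.Agent.T2h63.MT.Stm2

/-!
# IDL: the symplectic Lie algebra is simple
-/

set_option autoImplicit false

open Matrix

namespace Pool.Agent.T2h63.MT.Idl

variable {F : Type} [Field F] {N : ℕ}

/-- `x xᵀ` -/
def O (x : Fin N → F) : Matrix (Fin N) (Fin N) F := vecMulVec x x

lemma O_tr (x : Fin N → F) : (O x)ᵀ = O x := by
  ext a b
  simp [O, vecMulVec_apply, mul_comm]

lemma O_mid (x : Fin N → F) (M : Matrix (Fin N) (Fin N) F) :
    O x * M * O x = (x ⬝ᵥ (M *ᵥ x)) • O x := by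
  ext a b
  simp only [O, Matrix.mul_apply, vecMulVec_apply, Matrix.smul_apply, smul_eq_mul, dotProduct,
    mulVec, Finset.sum_mul, Finset.mul_sum]
  rw [Finset.sum_comm]
  refine Finset.sum_congr rfl fun i _ => Finset.sum_congr rfl fun j _ => ?_
  ring

lemma O_mid' (x y : Fin N → F) (M M' : Matrix (Fin N) (Fin N) F) :
    O y * M * O x * M' * O y = ((y ⬝ᵥ (M *ᵥ x)) * (x ⬝ᵥ (M' *ᵥ y))) • O y := by
  have h : O y * M * O x * M' * O y = O y * (M * O x * M') * O y := by
    simp only [Matrix.mul_assoc]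
  rw [h, O_mid]
  congr 1
  have h1 : (M * O x * M') *ᵥ y = (x ⬝ᵥ (M' *ᵥ y)) • (M *ᵥ x) := by
    rw [← Matrix.mulVec_mulVec, ← Matrix.mulVec_mulVec]
    have h2 : O x *ᵥ (M' *ᵥ y) = (x ⬝ᵥ (M' *ᵥ y)) • x := by
      ext a
      simp only [O, mulVec, dotProduct, vecMulVec_apply, Pi.smul_apply, smul_eq_mul,
        Finset.sum_mul]
      refine Finset.sum_congr rfl fun i _ => ?_
      ring
    rw [h2, Matrix.mulVec_smul]
  rw [h1, dotProduct_smul, smul_eq_mul]
  ring

lemma O_add_sub (y u : Fin N → F) : O (y + u) + O (y - u) = (2 : F) • O y + (2 : F) • O u := by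
  ext a b
  simp only [O, Matrix.add_apply, Matrix.smul_apply, vecMulVec_apply, Pi.add_apply, Pi.sub_apply,
    smul_eq_mul]
  ring

lemma single_O (a b : Fin N) :
    Matrix.single a b (1 : F) + Matrix.single b a 1 =
      O (Pi.single a 1 + Pi.single b 1) - O (Pi.single a 1) - O (Pi.single b 1) := by
  have h : ∀ a b : Fin N, ∀ i j, Matrix.single a b (1 : F) i j =
      (Pi.single a 1 : Fin N → F) i * (Pi.single b 1 : Fin N → F) j := by
    intro a b i j
    rw [Matrix.single_apply, Pi.single_apply, Pi.single_apply]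
    by_cases h1 : a = i
    · by_cases h2 : b = j
      · rw [if_pos ⟨h1, h2⟩, if_pos h1.symm, if_pos h2.symm, one_mul]
      · rw [if_neg (fun h => h2 h.2), if_neg (Ne.symm h2), mul_zero]
    · rw [if_neg (fun h => h1 h.1), if_neg (Ne.symm h1), zero_mul]
  ext i j
  simp only [O, Matrix.add_apply, Matrix.sub_apply, vecMulVec_apply, Pi.add_apply, h]
  ring

lemma symm_sum' [CharZero F] {A : Matrix (Fin N) (Fin N) F} (hA : Aᵀ = A) :
    A = ∑ x, ∑ y, (A x y / 2) • (Matrix.single x y (1 : F) + Matrix.single y x 1) := by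
  ext a b
  simp only [Matrix.sum_apply, Matrix.smul_apply, Matrix.add_apply, Matrix.single_apply,
    smul_eq_mul, mul_add, Finset.sum_add_distrib, mul_ite, mul_one, mul_zero, ite_and]
  have e1 : ∑ x, ∑ y, (if x = a then if y = b then A x y / 2 else 0 else 0) = A a b / 2 := by
    rw [Finset.sum_eq_single a, Finset.sum_eq_single b]
    · simp
    · intro y _ hy
      simp [hy]
    · intro h; exact absurd (Finset.mem_univ _) h
    · intro x _ hx
      refine Finset.sum_eq_zero fun y _ => ?_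
      simp [hx]
    · intro h; exact absurd (Finset.mem_univ _) h
  have e2 : ∑ x, ∑ y, (if y = a then if x = b then A x y / 2 else 0 else 0) = A b a / 2 := by
    rw [Finset.sum_eq_single b, Finset.sum_eq_single a]
    · simp
    · intro y _ hy
      simp [hy]
    · intro h; exact absurd (Finset.mem_univ _) h
    · intro x _ hx
      refine Finset.sum_eq_zero fun y _ => ?_
      simp [hx]
    · intro h; exact absurd (Finset.mem_univ _) h
  have e3 := congrFun (congrFun hA a) b
  rw [Matrix.transpose_apply] at e3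
  rw [e1, e2, e3]
  ring

end Idl

open Idl

theorem t_IDL : S_IDL := by
  intro F _ _ N J hJ hd 𝔞 h𝔞 Z hZa hZ hZ0 A hA
  have hu : IsUnit J.det := isUnit_iff_ne_zero.2 hd
  -- the form
  have hskew : ∀ x y : Fin N → F, x ⬝ᵥ (J *ᵥ y) = -(y ⬝ᵥ (J *ᵥ x)) := by
    intro x y
    rw [Matrix.dotProduct_mulVec, ← Matrix.mulVec_transpose, hJ, Matrix.neg_mulVec,
      neg_dotProduct, dotProduct_comm]
  have hself : ∀ x : Fin N → F, x ⬝ᵥ (J *ᵥ x) = 0 := by
    intro x
    have h1 := hskew x x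
    have h2 : (2 : F) * (x ⬝ᵥ (J *ᵥ x)) = 0 := by linear_combination h1
    exact (mul_eq_zero.1 h2).resolve_left two_ne_zero
  have Tskew : ∀ x : Fin N → F, (O x * J)ᵀ * J + J * (O x * J) = 0 := by
    intro x
    rw [Matrix.transpose_mul, O_tr, hJ, neg_mul, neg_mul, Matrix.mul_assoc, neg_add_cancel]
  have Tsq : ∀ x : Fin N → F, (O x * J) * (O x * J) = 0 := by
    intro x
    have : (O x * J) * (O x * J) = (O x * J * O x) * J := by simp only [Matrix.mul_assoc]
    rw [this, O_mid, hself, zero_smul, Matrix.zero_mul]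
  have dbl : ∀ (x : Fin N → F) (M : Matrix (Fin N) (Fin N) F), M ∈ 𝔞 →
      (O x * J) * M * (O x * J) ∈ 𝔞 := by
    intro x M hM
    have h1 := h𝔞 _ (Tskew x) _ (h𝔞 _ (Tskew x) M hM)
    have h2 : (O x * J) * ((O x * J) * M - M * (O x * J)) - ((O x * J) * M - M * (O x * J)) *
        (O x * J) = (-2 : F) • ((O x * J) * M * (O x * J)) := by
      have e1 : (O x * J) * ((O x * J) * M) = 0 := by
        rw [← Matrix.mul_assoc, Tsq, Matrix.zero_mul]
      have e2 : M * (O x * J) * (O x * J) = 0 := by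
        rw [Matrix.mul_assoc, Tsq, Matrix.mul_zero]
      rw [Matrix.mul_sub, Matrix.sub_mul, e1, e2, zero_sub, sub_zero, ← Matrix.mul_assoc, neg_smul,
        two_smul]
      abel
    rw [h2] at h1
    exact (Submodule.smul_mem_iff _ (by norm_num)).1 h1
  -- a vector with nonzero value
  have hS : (J * Z)ᵀ = J * Z := by
    rw [Matrix.transpose_mul, hJ, mul_neg]
    exact neg_eq_of_add_eq_zero_right hZ
  have hx : ∃ x : Fin N → F, x ⬝ᵥ ((J * Z) *ᵥ x) ≠ 0 := by
    by_contra hc
    push Not at hc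
    have hval : ∀ a b : Fin N, (Pi.single a (1 : F)) ⬝ᵥ ((J * Z) *ᵥ (Pi.single b 1)) =
        (J * Z) a b := by
      intro a b
      simp
    have h0 : J * Z = 0 := by
      ext a b
      have h1 := hc (Pi.single a 1 + Pi.single b 1)
      rw [Matrix.mulVec_add, dotProduct_add, add_dotProduct, add_dotProduct, hc (Pi.single a 1),
        hc (Pi.single b 1), hval, hval] at h1
      have h2 : (J * Z) b a = (J * Z) a b := by
        conv_lhs => rw [← hS]
        rfl
      rw [h2] at h1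
      have h3 : (2 : F) * (J * Z) a b = 0 := by linear_combination h1
      exact (mul_eq_zero.1 h3).resolve_left two_ne_zero
    apply hZ0
    have h1 : J⁻¹ * (J * Z) = Z := by
      rw [← Matrix.mul_assoc, Matrix.nonsing_inv_mul _ hu, one_mul]
    rw [← h1, h0, Matrix.mul_zero]
  obtain ⟨x, hx⟩ := hx
  have Tx : O x * J ∈ 𝔞 := by
    have h1 := dbl x Z hZa
    have h2 : (O x * J) * Z * (O x * J) = (x ⬝ᵥ ((J * Z) *ᵥ x)) • (O x * J) := by
      have : (O x * J) * Z * (O x * J) = (O x * (J * Z) * O x) * J := by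
        simp only [Matrix.mul_assoc]
      rw [this, O_mid, Matrix.smul_mul]
    rw [h2] at h1
    exact (Submodule.smul_mem_iff _ hx).1 h1
  have Ty : ∀ y : Fin N → F, x ⬝ᵥ (J *ᵥ y) ≠ 0 → O y * J ∈ 𝔞 := by
    intro y hy
    have h1 := dbl y _ Tx
    have h2 : (O y * J) * (O x * J) * (O y * J) =
        ((y ⬝ᵥ (J *ᵥ x)) * (x ⬝ᵥ (J *ᵥ y))) • (O y * J) := by
      have : (O y * J) * (O x * J) * (O y * J) = (O y * J * O x * J * O y) * J := by
        simp only [Matrix.mul_assoc]
      rw [this, O_mid', Matrix.smul_mul]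
    rw [h2] at h1
    refine (Submodule.smul_mem_iff _ ?_).1 h1
    rw [hskew y x]
    exact mul_ne_zero (neg_ne_zero.2 hy) hy
  have Tall : ∀ y : Fin N → F, O y * J ∈ 𝔞 := by
    intro y
    by_cases hy : x ⬝ᵥ (J *ᵥ y) = 0
    · have hu0 : x ⬝ᵥ (J *ᵥ (Z *ᵥ x)) ≠ 0 := by
        rw [Matrix.mulVec_mulVec]
        exact hx
      set u := Z *ᵥ x with hud
      have h1 : O (y + u) * J ∈ 𝔞 := Ty _ (by
        rw [Matrix.mulVec_add, dotProduct_add, hy, zero_add]
        exact hu0)
      have h2 : O (y - u) * J ∈ 𝔞 := Ty _ (by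
        rw [Matrix.mulVec_sub, dotProduct_sub, hy, zero_sub]
        exact neg_ne_zero.2 hu0)
      have h3 : O u * J ∈ 𝔞 := Ty _ hu0
      have h4 : (2 : F) • (O y * J) = O (y + u) * J + O (y - u) * J - (2 : F) • (O u * J) := by
        rw [← Matrix.add_mul, O_add_sub, Matrix.add_mul, Matrix.smul_mul, Matrix.smul_mul]
        abel
      have h5 : (2 : F) • (O y * J) ∈ 𝔞 := by
        rw [h4]
        exact Submodule.sub_mem _ (Submodule.add_mem _ h1 h2) (Submodule.smul_mem _ _ h3)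
      exact (Submodule.smul_mem_iff _ two_ne_zero).1 h5
    · exact Ty y hy
  -- the inverse
  have hJi : (J⁻¹)ᵀ = -J⁻¹ := by
    have h0 : (-J)⁻¹ = -J⁻¹ := Matrix.inv_eq_right_inv (by
      rw [neg_mul_neg, Matrix.mul_nonsing_inv _ hu])
    rw [Matrix.transpose_nonsing_inv, hJ, h0]
  have Oall : ∀ b : Fin N → F, J⁻¹ * O b ∈ 𝔞 := by
    intro b
    have h1 := Tall (J⁻¹ *ᵥ b)
    have h2 : O (J⁻¹ *ᵥ b) = J⁻¹ * O b * (J⁻¹)ᵀ := by
      unfold O
      rw [Matrix.mul_vecMulVec, Matrix.vecMulVec_mul, Matrix.vecMul_transpose]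
    rw [h2, hJi, mul_neg, neg_mul, Matrix.mul_assoc (J⁻¹ * O b), Matrix.nonsing_inv_mul _ hu,
      mul_one] at h1
    exact (Submodule.neg_mem_iff _).1 h1
  have hB : (J * A)ᵀ = J * A := by
    rw [Matrix.transpose_mul, hJ, mul_neg]
    exact neg_eq_of_add_eq_zero_right hA
  have hAe : A = J⁻¹ * (J * A) := by
    rw [← Matrix.mul_assoc, Matrix.nonsing_inv_mul _ hu, one_mul]
  rw [hAe, symm_sum' hB, Finset.mul_sum]
  refine Submodule.sum_mem _ fun a _ => ?_
  rw [Finset.mul_sum]
  refine Submodule.sum_mem _ fun b _ => ?_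
  rw [Matrix.mul_smul]
  refine Submodule.smul_mem _ _ ?_
  rw [single_O, Matrix.mul_sub, Matrix.mul_sub]
  exact Submodule.sub_mem _ (Submodule.sub_mem _ (Oall _) (Oall _)) (Oall _)

end Pool.Agent.T2h63.MT
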