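import Pool.Agent.T2h63.MT.NDG
import Pool.Agent.T2h63.CY.Cpa
import Pool.Agent.W437.HD.Fixed

/-!
# Hodge structures of Calabi-Yau type, task IRR: the Lie algebra acts irreducibly
-/

set_option autoImplicit false

open Matrix

namespace Pool.Agent.T2h63.MT

namespace PHS

variable {N w : ℕ} (V : PHS N w)

theorem map_mul' (σ : ℂ ≃+* ℂ) (a b : Matrix (Fin N) (Fin N) ℂ) :
    (a * b).map σ = a.map σ * b.map σ := Matrix.map_mul

theorem map_sub' (σ : ℂ ≃+* ℂ) (a b : Matrix (Fin N) (Fin N) ℂ) :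
    (a - b).map σ = a.map σ - b.map σ := Matrix.map_sub σ (map_sub σ) a b

theorem map_add' (σ : ℂ ≃+* ℂ) (a b : Matrix (Fin N) (Fin N) ℂ) :
    (a + b).map σ = a.map σ + b.map σ := Matrix.map_add σ (map_add σ) a b

theorem map_smul' (σ : ℂ ≃+* ℂ) (c : ℂ) (a : Matrix (Fin N) (Fin N) ℂ) :
    (c • a).map σ = σ c • a.map σ := by
  ext i j
  exact map_mul σ _ _

theorem map_zero' (σ : ℂ ≃+* ℂ) : (0 : Matrix (Fin N) (Fin N) ℂ).map σ = 0 :=
  Matrix.map_zero σ (map_zero σ)

theorem map_map' (σ τ : ℂ ≃+* ℂ) (a : Matrix (Fin N) (Fin N) ℂ) :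
    (a.map τ).map σ = a.map (τ.trans σ) := by
  ext i j
  rfl

theorem cm_map (σ : ℂ ≃+* ℂ) (A : Matrix (Fin N) (Fin N) ℚ) : (cm A).map σ = cm A := by
  ext i j
  show σ ((A i j : ℚ) : ℂ) = ((A i j : ℚ) : ℂ)
  exact map_ratCast σ _

variable {V}

/-- The Lie algebra is stable under the automorphisms of the complex numbers. -/
theorem InLie.map {y : Matrix (Fin N) (Fin N) ℂ} (hy : V.InLie y) (σ : ℂ ≃+* ℂ) :
    V.InLie (y.map σ) := by
  intro 𝔤 hb hX
  let 𝔤' : Submodule ℂ (Matrix (Fin N) (Fin N) ℂ) :=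
    { carrier := {a | a.map σ ∈ 𝔤}
      add_mem' := fun {a b} ha hb => by
        show (a + b).map σ ∈ 𝔤
        rw [map_add']
        exact 𝔤.add_mem ha hb
      zero_mem' := by
        show (0 : Matrix (Fin N) (Fin N) ℂ).map σ ∈ 𝔤
        rw [map_zero']
        exact 𝔤.zero_mem
      smul_mem' := fun c a ha => by
        show (c • a).map σ ∈ 𝔤
        rw [map_smul']
        exact 𝔤.smul_mem _ ha }
  refine hy 𝔤' (fun a ha b hb' => ?_) (fun τ => ?_)
  · show (a * b - b * a).map σ ∈ 𝔤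
    rw [map_sub', map_mul', map_mul']
    exact hb _ ha _ hb'
  · show (V.X.map τ).map σ ∈ 𝔤
    rw [map_map']
    exact hX _

variable (V) in
theorem InLie.X : V.InLie V.X := by
  intro 𝔤 _ hX
  have h := hX (RingEquiv.refl ℂ)
  have h2 : V.X.map (RingEquiv.refl ℂ) = V.X := by
    ext i j
    rfl
  rwa [h2] at h

/-- The elements of the Lie algebra are skew. -/
theorem InLie.skew {y : Matrix (Fin N) (Fin N) ℂ} (hy : V.InLie y) :
    yᵀ * cm V.J + cm V.J * y = 0 := by
  let 𝔤 : Submodule ℂ (Matrix (Fin N) (Fin N) ℂ) :=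
    { carrier := {a | aᵀ * cm V.J + cm V.J * a = 0}
      add_mem' := fun {a b} ha hb => by
        show (a + b)ᵀ * cm V.J + cm V.J * (a + b) = 0
        have ha' : aᵀ * cm V.J + cm V.J * a = 0 := ha
        have hb' : bᵀ * cm V.J + cm V.J * b = 0 := hb
        have h : (a + b)ᵀ * cm V.J + cm V.J * (a + b) =
            (aᵀ * cm V.J + cm V.J * a) + (bᵀ * cm V.J + cm V.J * b) := by
          rw [Matrix.transpose_add]
          noncomm_ring
        rw [h, ha', hb', add_zero]
      zero_mem' := by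
        show (0 : Matrix (Fin N) (Fin N) ℂ)ᵀ * cm V.J + cm V.J * 0 = 0
        rw [Matrix.transpose_zero, Matrix.zero_mul, Matrix.mul_zero, add_zero]
      smul_mem' := fun c a ha => by
        show (c • a)ᵀ * cm V.J + cm V.J * (c • a) = 0
        have ha' : aᵀ * cm V.J + cm V.J * a = 0 := ha
        rw [Matrix.transpose_smul, Matrix.smul_mul, Matrix.mul_smul, ← smul_add, ha', smul_zero] }
  refine hy 𝔤 (fun a ha b hb => ?_) (fun σ => ?_)
  · show (a * b - b * a)ᵀ * cm V.J + cm V.J * (a * b - b * a) = 0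
    have ha' : aᵀ * cm V.J + cm V.J * a = 0 := ha
    have hb' : bᵀ * cm V.J + cm V.J * b = 0 := hb
    have ha2 : aᵀ * cm V.J = -(cm V.J * a) := eq_neg_of_add_eq_zero_left ha'
    have hb2 : bᵀ * cm V.J = -(cm V.J * b) := eq_neg_of_add_eq_zero_left hb'
    rw [Matrix.transpose_sub, Matrix.transpose_mul, Matrix.transpose_mul, Matrix.sub_mul,
      Matrix.mul_assoc, Matrix.mul_assoc, ha2, hb2, Matrix.mul_neg, Matrix.mul_neg,
      ← Matrix.mul_assoc, ← Matrix.mul_assoc, ha2, hb2]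
    noncomm_ring
  · show (V.X.map σ)ᵀ * cm V.J + cm V.J * V.X.map σ = 0
    have h := congrArg (fun M : Matrix (Fin N) (Fin N) ℂ => M.map σ) V.X_skew
    rw [map_add', map_mul', map_mul', map_zero', cm_map] at h
    exact h

variable (V) in
/-- The weights. -/
noncomputable def wt (_ : PHS N w) (p : ℕ) : ℂ := ((2 * (p : ℤ) - w : ℤ) : ℂ)

variable (V) in
theorem wt_inj {p q : ℕ} (h : V.wt p = V.wt q) : p = q := by
  have h1 : (2 * (p : ℤ) - w : ℤ) = 2 * (q : ℤ) - w := Int.cast_injective h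
  omega

variable (V) in
theorem X_e {p : ℕ} (hp : p ≤ w) : V.X * V.e p = V.wt p • V.e p := by
  rw [PHS.X, Finset.sum_mul, Finset.sum_eq_single p]
  · rw [Matrix.smul_mul, V.mul p hp p hp, if_pos rfl]
    rfl
  · intro q hq hqp
    have hq' := Finset.mem_range.1 hq
    rw [Matrix.smul_mul, V.mul q (by omega) p hp, if_neg hqp, smul_zero]
  · intro h
    exact absurd (Finset.mem_range.2 (by omega)) h

variable (V) in
theorem e_X {p : ℕ} (hp : p ≤ w) : V.e p * V.X = V.wt p • V.e p := by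
  rw [PHS.X, Finset.mul_sum, Finset.sum_eq_single p]
  · rw [Matrix.mul_smul, V.mul p hp p hp, if_pos rfl]
    rfl
  · intro q hq hqp
    have hq' := Finset.mem_range.1 hq
    rw [Matrix.mul_smul, V.mul p hp q (by omega), if_neg hqp.symm, smul_zero]
  · intro h
    exact absurd (Finset.mem_range.2 (by omega)) h

variable (V) in
/-- A matrix which commutes with the Hodge operator commutes with the projections. -/
theorem comm_e {A : Matrix (Fin N) (Fin N) ℂ} (hA : A * V.X = V.X * A) {p : ℕ} (hp : p ≤ w) :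
    A * V.e p = V.e p * A := by
  have key : ∀ q ≤ w, ∀ r ≤ w, q ≠ r → V.e q * A * V.e r = 0 := by
    intro q hq r hr hqr
    have h1 : V.e q * (A * V.X) * V.e r = V.wt r • (V.e q * A * V.e r) := by
      rw [Matrix.mul_assoc, Matrix.mul_assoc, V.X_e hr, Matrix.mul_smul, Matrix.mul_smul,
        ← Matrix.mul_assoc]
    have h2 : V.e q * (V.X * A) * V.e r = V.wt q • (V.e q * A * V.e r) := by
      rw [← Matrix.mul_assoc, V.e_X hq, Matrix.smul_mul, Matrix.smul_mul]
    rw [hA, h2] at h1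
    have h3 : (V.wt q - V.wt r) • (V.e q * A * V.e r) = 0 := by
      rw [sub_smul, h1, sub_self]
    rcases smul_eq_zero.1 h3 with h4 | h4
    · exact absurd (V.wt_inj (sub_eq_zero.1 h4)) hqr
    · exact h4
  have h1 : A * V.e p = V.e p * A * V.e p := by
    conv_lhs => rw [← Matrix.one_mul (A * V.e p), ← V.sum, Finset.sum_mul]
    rw [Finset.sum_eq_single p]
    · rw [Matrix.mul_assoc]
    · intro q hq hqp
      have hq' := Finset.mem_range.1 hq
      rw [← Matrix.mul_assoc]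
      exact key q (by omega) p hp hqp
    · intro h
      exact absurd (Finset.mem_range.2 (by omega)) h
  have h2 : V.e p * A = V.e p * A * V.e p := by
    conv_lhs => rw [← Matrix.mul_one (V.e p * A), ← V.sum, Finset.mul_sum]
    rw [Finset.sum_eq_single p]
    · intro q hq hqp
      have hq' := Finset.mem_range.1 hq
      exact key p hp q (by omega) hqp.symm
    · intro h
      exact absurd (Finset.mem_range.2 (by omega)) h
  rw [h1, ← h2]

/-- A matrix which commutes with the Lie algebra is a scalar. -/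
theorem scalar_of_comm
    (hsc : ∀ A : Matrix (Fin N) (Fin N) ℚ, (∀ p ≤ w, cm A * V.e p = V.e p * cm A) →
      ∃ c : ℚ, A = c • (1 : Matrix (Fin N) (Fin N) ℚ))
    {A : Matrix (Fin N) (Fin N) ℂ} (hA : ∀ y, V.InLie y → A * y = y * A) :
    ∃ c : ℂ, A = c • (1 : Matrix (Fin N) (Fin N) ℂ) := by
  classical
  let M : (Fin N × Fin N → ℂ) → Matrix (Fin N) (Fin N) ℂ := fun v => Matrix.of fun i j => v (i, j)
  let Z : Submodule ℂ (Fin N × Fin N → ℂ) :=
    { carrier := {v | ∀ y, V.InLie y → M v * y = y * M v}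
      add_mem' := fun {a b} ha hb y hy => by
        have h : M (a + b) = M a + M b := rfl
        rw [h, Matrix.add_mul, Matrix.mul_add, ha y hy, hb y hy]
      zero_mem' := fun y _ => by
        have h : M 0 = 0 := rfl
        rw [h, Matrix.zero_mul, Matrix.mul_zero]
      smul_mem' := fun c a ha y hy => by
        have h : M (c • a) = c • M a := rfl
        rw [h, Matrix.smul_mul, Matrix.mul_smul, ha y hy] }
  have hZ : ∀ (σ : ℂ ≃+* ℂ), ∀ v ∈ Z, (fun i => σ (v i)) ∈ Z := by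
    intro σ v hv y hy
    have h1 := hv (y.map σ.symm) (hy.map σ.symm)
    have h2 := congrArg (fun M : Matrix (Fin N) (Fin N) ℂ => M.map σ) h1
    rw [map_mul', map_mul', map_map'] at h2
    have h3 : y.map (σ.symm.trans σ) = y := by
      ext i j
      simp
    rw [h3] at h2
    exact h2
  have key : ∀ v ∈ Z, ∃ c : ℂ, M v = c • (1 : Matrix (Fin N) (Fin N) ℂ) := by
    intro v hv
    rw [Pool.Agent.W437.HD.span_rational Z hZ] at hv
    induction hv using Submodule.span_induction with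
    | mem x h =>
      obtain ⟨h1, u, rfl⟩ := h
      have h2 : M (fun i => (u i : ℂ)) = cm (Matrix.of fun i j => u (i, j)) := rfl
      obtain ⟨c, hc⟩ := hsc (Matrix.of fun i j => u (i, j)) fun p hp => by
        rw [← h2]
        exact V.comm_e (h1 _ (InLie.X V)) hp
      refine ⟨(c : ℂ), ?_⟩
      rw [h2, hc]
      ext i j
      show ((c * (1 : Matrix (Fin N) (Fin N) ℚ) i j : ℚ) : ℂ) =
        (c : ℂ) * (1 : Matrix (Fin N) (Fin N) ℂ) i j
      rw [Matrix.one_apply, Matrix.one_apply]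
      split_ifs <;> simp
    | zero => exact ⟨0, by rw [zero_smul]; rfl⟩
    | add x y _ _ hx hy =>
      obtain ⟨c, hc⟩ := hx
      obtain ⟨d, hd⟩ := hy
      refine ⟨c + d, ?_⟩
      have h : M (x + y) = M x + M y := rfl
      rw [h, hc, hd, add_smul]
    | smul a x _ hx =>
      obtain ⟨c, hc⟩ := hx
      refine ⟨a * c, ?_⟩
      have h : M (a • x) = a • M x := rfl
      rw [h, hc, smul_smul]
  exact key (fun ij => A ij.1 ij.2) hA

end PHS

open PHS in
theorem irr {N w : ℕ} (V : PHS N w)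
    (hsc : ∀ A : Matrix (Fin N) (Fin N) ℚ, (∀ p ≤ w, cm A * V.e p = V.e p * cm A) →
      ∃ c : ℚ, A = c • (1 : Matrix (Fin N) (Fin N) ℚ))
    (U : Submodule ℂ (Fin N → ℂ)) (hU : ∀ y, V.InLie y → ∀ u ∈ U, y *ᵥ u ∈ U) :
    U = ⊥ ∨ U = ⊤ := by
  classical
  let b : (Fin N → ℂ) → (Fin N → ℂ) →ₗ[ℂ] ℂ := fun z =>
    { toFun := fun y => star z ⬝ᵥ (cm V.J *ᵥ y)
      map_add' := fun x y => by rw [Matrix.mulVec_add, dotProduct_add]
      map_smul' := fun c x => by
        rw [Matrix.mulVec_smul, dotProduct_smul, RingHom.id_apply] }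
  let E : Fin (w + 1) → Submodule ℂ (Fin N → ℂ) := fun r =>
    LinearMap.range (Matrix.mulVecLin (V.e r))
  have hle : ∀ r : Fin (w + 1), (r : ℕ) ≤ w := fun r => by omega
  obtain ⟨P, hP1, hP2, hP3⟩ := Pool.Agent.T2h63.CY.abs_compl (N := Matrix.toLin' V.X)
    (G := {A | ∃ y, V.InLie y ∧ A = Matrix.toLin' y}) ⟨V.X, InLie.X V, rfl⟩ (E := E)
    (μ := fun r => V.wt r) (fun r s h => Fin.ext (V.wt_inj h)) (by
      rintro r _ ⟨v, rfl⟩
      rw [Matrix.toLin'_apply, Matrix.mulVecLin_apply, Matrix.mulVec_mulVec, V.X_e (hle r),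
        Matrix.smul_mulVec]) (by
      rw [Submodule.eq_top_iff']
      intro v
      rw [← V.sum_mulVec v]
      refine Submodule.sum_mem _ fun p hp => ?_
      exact Submodule.mem_iSup_of_mem (⟨p, Finset.mem_range.1 hp⟩ : Fin (w + 1)) ⟨v, rfl⟩)
    (fun c => star c) b (fun x y => by
      refine LinearMap.ext fun z => ?_
      show star (x + y) ⬝ᵥ (cm V.J *ᵥ z) = star x ⬝ᵥ (cm V.J *ᵥ z) + star y ⬝ᵥ (cm V.J *ᵥ z)
      rw [star_add, add_dotProduct]) (fun c x => by
      refine LinearMap.ext fun z => ?_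
      show star (c • x) ⬝ᵥ (cm V.J *ᵥ z) = star c * (star x ⬝ᵥ (cm V.J *ᵥ z))
      rw [star_smul, smul_dotProduct, smul_eq_mul]) (by
      rintro r s hrs _ ⟨x, rfl⟩ _ ⟨y, rfl⟩
      exact V.herm_orth (hle r) (hle s) (fun h => hrs (Fin.ext h)) x y) (by
      rintro r _ ⟨x, rfl⟩ h0
      by_contra hne
      refine V.herm_ne (hle r) hne ?_ h0
      rw [Matrix.mulVecLin_apply, V.e_e (hle r) (hle r), if_pos rfl]) (by
      rintro _ ⟨y, hy, rfl⟩
      refine ⟨Matrix.toLin' (y.map (starRingAut : ℂ ≃+* ℂ)), ⟨_, hy.map _, rfl⟩, fun z x => ?_⟩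
      show star z ⬝ᵥ (cm V.J *ᵥ (Matrix.toLin' y x)) =
        -(star (Matrix.toLin' (y.map (starRingAut : ℂ ≃+* ℂ)) z) ⬝ᵥ (cm V.J *ᵥ x))
      rw [Matrix.toLin'_apply, Matrix.toLin'_apply]
      have h1 : star (y.map (starRingAut : ℂ ≃+* ℂ) *ᵥ z) = y *ᵥ star z := by
        funext i
        simp only [Matrix.mulVec, dotProduct, Pi.star_apply, Matrix.map_apply, star_sum, star_mul',
          starRingAut_apply, star_star]
      have h2 : cm V.J * y = -(yᵀ * cm V.J) := eq_neg_of_add_eq_zero_right hy.skew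
      rw [h1, Matrix.mulVec_mulVec, h2, Matrix.neg_mulVec, dotProduct_neg, ← Matrix.mulVec_mulVec,
        Matrix.dotProduct_mulVec, Matrix.vecMul_transpose])
    (U := U) (by
      rintro _ ⟨y, hy, rfl⟩ x hx
      rw [Matrix.toLin'_apply]
      exact hU y hy x hx)
  obtain ⟨c, hc⟩ := scalar_of_comm (V := V) hsc (A := LinearMap.toMatrix' P) (fun y hy => by
    have h1 := hP3 _ ⟨y, hy, rfl⟩
    have h2 := congrArg LinearMap.toMatrix' h1
    rw [LinearMap.toMatrix'_mul, LinearMap.toMatrix'_mul, LinearMap.toMatrix'_toLin'] at h2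
    exact h2)
  have hPc : ∀ x, P x = c • x := by
    intro x
    have h1 : P = Matrix.toLin' (LinearMap.toMatrix' P) := (Matrix.toLin'_toMatrix' P).symm
    rw [h1, hc, Matrix.toLin'_apply, Matrix.smul_mulVec, Matrix.one_mulVec]
  by_cases hbot : U = ⊥
  · exact Or.inl hbot
  · right
    obtain ⟨u, hu, hu0⟩ := Submodule.exists_mem_ne_zero_of_ne_bot hbot
    have h1 := hP2 u hu
    rw [hPc] at h1
    have h2 : c = 1 := by
      have h3 : (c - 1) • u = 0 := by rw [sub_smul, h1, one_smul, sub_self]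
      rcases smul_eq_zero.1 h3 with h4 | h4
      · exact sub_eq_zero.1 h4
      · exact absurd h4 hu0
    rw [Submodule.eq_top_iff']
    intro x
    have h3 := hP1 x
    rwa [hPc, h2, one_smul] at h3

theorem t_IRR : S_IRR := fun V hsc U hU => irr V hsc U hU

end Pool.Agent.T2h63.MT
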