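import Pool.Agent.T2h63.MT.Stm2

/-!
# LAG: Lagrangian decompositions
-/

set_option autoImplicit false

open Matrix Finset

namespace Pool.Agent.T2h63.MT.L

variable {F V : Type} [Field F] [AddCommGroup V] [Module F V]

/-- partial symplectic bases with `k` pairs -/
structure Part (B : V →ₗ[F] V →ₗ[F] F) (k : ℕ) (e f : ℕ → V) : Prop where
  ef : ∀ i < k, ∀ j < k, B (e i) (f j) = if i = j then 1 else 0
  ee : ∀ i < k, ∀ j < k, B (e i) (e j) = 0
  ff : ∀ i < k, ∀ j < k, B (f i) (f j) = 0

variable {B : V →ₗ[F] V →ₗ[F] F}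

lemma part_le [FiniteDimensional F V] {k : ℕ} {e f : ℕ → V} (h : Part B k e f) :
    k ≤ Module.finrank F V := by
  have hli : LinearIndependent F (fun i : Fin k => e i) := by
    rw [Fintype.linearIndependent_iff]
    intro g hg j
    have h1 : B (∑ i, g i • e i) (f j) = 0 := by rw [hg]; simp
    rw [map_sum, LinearMap.sum_apply] at h1
    have h2 : ∀ i : Fin k, (B (g i • e i)) (f j) = if i = j then g j else 0 := by
      intro i
      rw [map_smul, LinearMap.smul_apply, h.ef i i.2 j j.2, smul_eq_mul]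
      by_cases hij : i = j
      · rw [if_pos (by rw [hij]), if_pos hij, mul_one, hij]
      · rw [if_neg (fun h => hij (Fin.ext h)), if_neg hij, mul_zero]
    rw [sum_congr rfl fun i _ => h2 i, sum_ite_eq' univ j] at h1
    simpa using h1
  simpa using hli.fintype_card_le_finrank

/-- the component orthogonal to the pairs -/
def orth (B : V →ₗ[F] V →ₗ[F] F) (k : ℕ) (e f : ℕ → V) (x : V) : V :=
  x - ∑ i ∈ range k, B x (f i) • e i + ∑ i ∈ range k, B x (e i) • f i

lemma orth_e (hs : ∀ x y, B x y = -B y x) {k : ℕ} {e f : ℕ → V} (h : Part B k e f) (x : V)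
    {j : ℕ} (hj : j < k) : B (orth B k e f x) (e j) = 0 := by
  unfold orth
  rw [map_add, map_sub, LinearMap.add_apply, LinearMap.sub_apply, map_sum, map_sum,
    LinearMap.sum_apply, LinearMap.sum_apply]
  have h1 : ∑ i ∈ range k, (B (B x (f i) • e i)) (e j) = 0 := sum_eq_zero fun i hi => by
    rw [map_smul, LinearMap.smul_apply, h.ee i (mem_range.1 hi) j hj, smul_zero]
  have h2 : ∑ i ∈ range k, (B (B x (e i) • f i)) (e j) = -B x (e j) := by
    rw [sum_eq_single j]
    · rw [map_smul, LinearMap.smul_apply, hs (f j) (e j), h.ef j hj j hj, if_pos rfl, smul_eq_mul]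
      ring
    · intro i hi hij
      rw [map_smul, LinearMap.smul_apply, hs (f i) (e j), h.ef j hj i (mem_range.1 hi),
        if_neg (Ne.symm hij), neg_zero, smul_zero]
    · intro h; exact absurd (mem_range.2 hj) h
  rw [h1, h2]
  ring

lemma orth_f {k : ℕ} {e f : ℕ → V} (h : Part B k e f) (x : V)
    {j : ℕ} (hj : j < k) : B (orth B k e f x) (f j) = 0 := by
  unfold orth
  rw [map_add, map_sub, LinearMap.add_apply, LinearMap.sub_apply, map_sum, map_sum,
    LinearMap.sum_apply, LinearMap.sum_apply]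
  have h1 : ∑ i ∈ range k, (B (B x (e i) • f i)) (f j) = 0 := sum_eq_zero fun i hi => by
    rw [map_smul, LinearMap.smul_apply, h.ff i (mem_range.1 hi) j hj, smul_zero]
  have h2 : ∑ i ∈ range k, (B (B x (f i) • e i)) (f j) = B x (f j) := by
    rw [sum_eq_single j]
    · rw [map_smul, LinearMap.smul_apply, h.ef j hj j hj, if_pos rfl, smul_eq_mul, mul_one]
    · intro i hi hij
      rw [map_smul, LinearMap.smul_apply, h.ef i (mem_range.1 hi) j hj, if_neg hij,
        smul_zero]
    · intro h; exact absurd (mem_range.2 hj) h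
  rw [h1, h2]
  ring

lemma orth_right {k : ℕ} {e f : ℕ → V} (x' y : V)
    (he : ∀ j < k, B x' (e j) = 0) (hf : ∀ j < k, B x' (f j) = 0) :
    B x' (orth B k e f y) = B x' y := by
  unfold orth
  rw [map_add, map_sub, map_sum, map_sum]
  rw [sum_eq_zero fun i hi => by rw [map_smul, he i (mem_range.1 hi), smul_zero],
    sum_eq_zero fun i hi => by rw [map_smul, hf i (mem_range.1 hi), smul_zero]]
  ring

lemma extend [CharZero F] (hs : ∀ x y, B x y = -B y x)
    (hn : ∀ x, (∀ y, B x y = 0) → x = 0) {k : ℕ}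
    {e f : ℕ → V} (h : Part B k e f) (x : V) (hx : orth B k e f x ≠ 0) :
    ∃ e' f', Part B (k + 1) e' f' := by
  have hself : ∀ x, B x x = 0 := by
    intro x
    have h1 := hs x x
    have h2 : (2 : F) * B x x = 0 := by linear_combination h1
    exact (mul_eq_zero.1 h2).resolve_left two_ne_zero
  set x' := orth B k e f x with hx'
  have hy : ∃ y, B x' y ≠ 0 := by
    by_contra hc
    push Not at hc
    exact hx (hn _ hc)
  obtain ⟨y, hy⟩ := hy
  have ex : ∀ j < k, B x' (e j) = 0 := fun j hj => orth_e hs h x hj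
  have fx : ∀ j < k, B x' (f j) = 0 := fun j hj => orth_f h x hj
  set y' := orth B k e f y with hy'
  have ey : ∀ j < k, B y' (e j) = 0 := fun j hj => orth_e hs h y hj
  have fy : ∀ j < k, B y' (f j) = 0 := fun j hj => orth_f h y hj
  have hxy : B x' y' = B x' y := orth_right x' y ex fx
  set c := B x' y' with hc
  have hc0 : c ≠ 0 := by rw [hxy]; exact hy
  refine ⟨Function.update e k x', Function.update f k (c⁻¹ • y'), ?_, ?_, ?_⟩
  · intro i hi j hj
    rcases Nat.lt_succ_iff_lt_or_eq.1 hi with hi | rfl <;>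
      rcases Nat.lt_succ_iff_lt_or_eq.1 hj with hj | rfl
    · rw [Function.update_of_ne hi.ne, Function.update_of_ne hj.ne, h.ef i hi j hj]
    · rw [Function.update_of_ne hi.ne, Function.update_self, map_smul, hs, ey i hi, neg_zero,
        smul_zero, if_neg hi.ne]
    · rw [Function.update_self, Function.update_of_ne hj.ne, fx j hj, if_neg hj.ne']
    · rw [Function.update_self, Function.update_self, map_smul, smul_eq_mul, if_pos rfl, ← hc,
        inv_mul_cancel₀ hc0]
  · intro i hi j hj
    rcases Nat.lt_succ_iff_lt_or_eq.1 hi with hi | rfl <;>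
      rcases Nat.lt_succ_iff_lt_or_eq.1 hj with hj | rfl
    · rw [Function.update_of_ne hi.ne, Function.update_of_ne hj.ne, h.ee i hi j hj]
    · rw [Function.update_of_ne hi.ne, Function.update_self, hs, ex i hi, neg_zero]
    · rw [Function.update_self, Function.update_of_ne hj.ne, ex j hj]
    · rw [Function.update_self, hself]
  · intro i hi j hj
    rcases Nat.lt_succ_iff_lt_or_eq.1 hi with hi | rfl <;>
      rcases Nat.lt_succ_iff_lt_or_eq.1 hj with hj | rfl
    · rw [Function.update_of_ne hi.ne, Function.update_of_ne hj.ne, h.ff i hi j hj]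
    · rw [Function.update_of_ne hi.ne, Function.update_self, map_smul, hs, fy i hi, neg_zero,
        smul_zero]
    · rw [Function.update_self, Function.update_of_ne hj.ne, map_smul, LinearMap.smul_apply,
        fy j hj, smul_zero]
    · rw [Function.update_self, hself]

lemma exists_full [CharZero F] [FiniteDimensional F V] (hs : ∀ x y, B x y = -B y x)
    (hn : ∀ x, (∀ y, B x y = 0) → x = 0) :
    ∃ (k : ℕ) (e f : ℕ → V), Part B k e f ∧ ∀ x, orth B k e f x = 0 := by
  by_contra hcon
  push Not at hcon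
  have h : ∀ k, ∃ e f, Part B k e f := by
    intro k
    induction k with
    | zero => exact ⟨fun _ => 0, fun _ => 0, ⟨by intro i hi; omega, by intro i hi; omega,
        by intro i hi; omega⟩⟩
    | succ k ih =>
      obtain ⟨e, f, hef⟩ := ih
      obtain ⟨x, hx⟩ := hcon k e f hef
      exact extend hs hn hef x hx
  obtain ⟨e, f, hef⟩ := h (Module.finrank F V + 1)
  have := part_le hef
  omega

lemma lagr [CharZero F] [FiniteDimensional F V] (hs : ∀ x y, B x y = -B y x)
    (hn : ∀ x, (∀ y, B x y = 0) → x = 0) :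
    ∃ D : V →ₗ[F] V, (∀ x, D (D x) = D x) ∧ ∀ x y, B (D x) y + B x (D y) = B x y := by
  obtain ⟨k, e, f, h, hfull⟩ := exists_full hs hn
  let D : V →ₗ[F] V := ∑ i ∈ range k, (B.flip (f i)).smulRight (e i)
  let D' : V →ₗ[F] V := ∑ i ∈ range k, (B.flip (e i)).smulRight (f i)
  have hD : ∀ x, D x = ∑ i ∈ range k, B x (f i) • e i := by
    intro x
    simp [D, LinearMap.sum_apply]
  have hD' : ∀ x, D' x = ∑ i ∈ range k, B x (e i) • f i := by
    intro x
    simp [D', LinearMap.sum_apply]
  have hx : ∀ x, x = D x - D' x := by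
    intro x
    have h1 := hfull x
    unfold orth at h1
    rw [← hD, ← hD'] at h1
    have h2 : x - (D x - D' x) = 0 := by rw [← h1]; abel
    exact sub_eq_zero.1 h2
  have he : ∀ j < k, D (e j) = e j := by
    intro j hj
    rw [hD, sum_eq_single j]
    · rw [h.ef j hj j hj, if_pos rfl, one_smul]
    · intro i hi hij
      rw [h.ef j hj i (mem_range.1 hi), if_neg (Ne.symm hij), zero_smul]
    · intro h; exact absurd (mem_range.2 hj) h
  have hDD : ∀ x y, B (D x) (D y) = 0 := by
    intro x y
    rw [hD x, hD y, map_sum]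
    refine sum_eq_zero fun i hi => ?_
    rw [map_sum, LinearMap.sum_apply]
    refine sum_eq_zero fun j hj => ?_
    rw [map_smul, map_smul, LinearMap.smul_apply, h.ee j (mem_range.1 hj) i (mem_range.1 hi)]
    simp
  have hDD' : ∀ x y, B (D' x) (D' y) = 0 := by
    intro x y
    rw [hD' x, hD' y, map_sum]
    refine sum_eq_zero fun i hi => ?_
    rw [map_sum, LinearMap.sum_apply]
    refine sum_eq_zero fun j hj => ?_
    rw [map_smul, map_smul, LinearMap.smul_apply, h.ff j (mem_range.1 hj) i (mem_range.1 hi)]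
    simp
  refine ⟨D, fun x => ?_, fun x y => ?_⟩
  · conv_lhs => rw [hD x]
    rw [map_sum, hD x]
    refine sum_congr rfl fun i hi => ?_
    rw [map_smul, he i (mem_range.1 hi)]
  · have e1 : B (D x) y = -B (D x) (D' y) := by
      conv_lhs => rw [hx y]
      rw [map_sub, hDD, zero_sub]
    have e2 : B x (D y) = -B (D' x) (D y) := by
      conv_lhs => rw [hx x]
      rw [map_sub, LinearMap.sub_apply, hDD, zero_sub]
    have e3 : B x y = -B (D x) (D' y) - B (D' x) (D y) := by
      conv_lhs => rw [hx x, hx y]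
      rw [map_sub, map_sub, LinearMap.sub_apply, LinearMap.sub_apply, hDD, hDD']
      ring
    rw [e1, e2, e3]
    ring

end Pool.Agent.T2h63.MT.L

namespace Pool.Agent.T2h63.MT

open L

theorem t_LAG : S_LAG := by
  intro F _ _ N J hJ hd
  let B : (Fin N → F) →ₗ[F] (Fin N → F) →ₗ[F] F := Matrix.toLinearMap₂' F J
  have hB : ∀ x y, B x y = x ⬝ᵥ (J *ᵥ y) := fun x y => Matrix.toLinearMap₂'_apply' J x y
  have hs : ∀ x y, B x y = -B y x := by
    intro x y
    rw [hB, hB, Matrix.dotProduct_mulVec, ← Matrix.mulVec_transpose, hJ, Matrix.neg_mulVec,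
      neg_dotProduct, dotProduct_comm]
  have hn : ∀ x, (∀ y, B x y = 0) → x = 0 := by
    intro x hx
    apply Matrix.eq_zero_of_vecMul_eq_zero hd
    funext i
    have h1 := hx (Pi.single i 1)
    rw [hB, Matrix.dotProduct_mulVec] at h1
    simpa using h1
  obtain ⟨D, h1, h2⟩ := lagr hs hn
  refine ⟨LinearMap.toMatrix' D, ?_, ?_⟩
  · rw [← LinearMap.toMatrix'_comp]
    congr 1
    exact LinearMap.ext h1
  · have h3 : ∀ x : Fin N → F, LinearMap.toMatrix' D *ᵥ x = D x := fun x =>
      LinearMap.toMatrix'_mulVec D x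
    have h4 : ∀ x y : Fin N → F,
        x ⬝ᵥ (((LinearMap.toMatrix' D)ᵀ * J + J * LinearMap.toMatrix' D) *ᵥ y) =
          x ⬝ᵥ (J *ᵥ y) := by
      intro x y
      have h5 := h2 x y
      rw [hB, hB, hB] at h5
      rw [Matrix.add_mulVec, dotProduct_add, ← Matrix.mulVec_mulVec, ← Matrix.mulVec_mulVec, h3,
        Matrix.dotProduct_mulVec x, Matrix.vecMul_transpose, h3]
      exact h5
    ext i j
    have h5 := h4 (Pi.single i 1) (Pi.single j 1)
    simpa using h5

end Pool.Agent.T2h63.MT
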