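import Pool.Agent.T2h63.MT.Stm
import Pool.Agent.T2h63.CY.GAP
import Pool.Agent.T2h63.CY.Sp

/-!
# The Lie algebra of a Hodge structure of Calabi-Yau type
-/

set_option autoImplicit false
set_option maxHeartbeats 400000
set_option linter.unusedSectionVars false

open Matrix

namespace Pool.Agent.T2h63.MT

open Pool.Agent.T2h63.CY (op2 Deg Vec Irr LieS Skew TopData)

section Hom

variable {W : Type*} [AddCommGroup W] [Module ℂ W]

/-- A stable subspace contains the homogeneous parts. -/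
lemma part_mem (f : W →ₗ[ℂ] W) (G : Submodule ℂ W) (hG : ∀ x ∈ G, f x ∈ G) (s : Finset ℤ) :
    ∀ a : ℤ → W, (∀ j ∈ s, f (a j) = ((2 * j : ℤ) : ℂ) • a j) → (∑ j ∈ s, a j) ∈ G →
      ∀ j ∈ s, a j ∈ G := by
  classical
  induction s using Finset.induction_on with
  | empty => intro a _ _ j hj; simp at hj
  | insert i s hi ih =>
    intro a ha hsum j hj
    have h1 : ∀ j ∈ s, (((2 * j : ℤ) : ℂ) - ((2 * i : ℤ) : ℂ)) • a j ∈ G := by
      refine ih (fun j => (((2 * j : ℤ) : ℂ) - ((2 * i : ℤ) : ℂ)) • a j) ?_ ?_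
      · intro j hj
        show f ((((2 * j : ℤ) : ℂ) - ((2 * i : ℤ) : ℂ)) • a j) =
          ((2 * j : ℤ) : ℂ) • ((((2 * j : ℤ) : ℂ) - ((2 * i : ℤ) : ℂ)) • a j)
        rw [map_smul, ha j (Finset.mem_insert_of_mem hj), smul_comm]
      · have h2 : ∑ j ∈ s, (((2 * j : ℤ) : ℂ) - ((2 * i : ℤ) : ℂ)) • a j =
            f (∑ j ∈ insert i s, a j) - ((2 * i : ℤ) : ℂ) • ∑ j ∈ insert i s, a j := by
          rw [Finset.sum_insert hi, map_add, map_sum, ha i (Finset.mem_insert_self i s),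
            Finset.sum_congr rfl fun j hj => ha j (Finset.mem_insert_of_mem hj), smul_add,
            Finset.smul_sum, add_sub_add_left_eq_sub, ← Finset.sum_sub_distrib]
          exact Finset.sum_congr rfl fun j _ => sub_smul _ _ _
        rw [h2]
        exact G.sub_mem (hG _ hsum) (G.smul_mem _ hsum)
    have h3 : ∀ j ∈ s, a j ∈ G := by
      intro j hj
      have hne : (((2 * j : ℤ) : ℂ) - ((2 * i : ℤ) : ℂ)) ≠ 0 := by
        rw [← Int.cast_sub]
        have : j ≠ i := fun h => hi (h ▸ hj)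
        exact_mod_cast (by omega : 2 * j - 2 * i ≠ 0)
      have h4 := G.smul_mem (((2 * j : ℤ) : ℂ) - ((2 * i : ℤ) : ℂ))⁻¹ (h1 j hj)
      rwa [smul_smul, inv_mul_cancel₀ hne, one_smul] at h4
    rcases Finset.mem_insert.1 hj with rfl | hj
    · rw [Finset.sum_insert hi] at hsum
      exact (G.add_mem_iff_left (Submodule.sum_mem _ h3)).1 hsum
    · exact h3 j hj

end Hom

variable {N w : ℕ} (V : PHS N w)

/-- The Lie algebra as a submodule. -/
def lieM : Submodule ℂ (Matrix (Fin N) (Fin N) ℂ) where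
  carrier := {y | V.InLie y}
  add_mem' := fun ha hb 𝔤 h1 h2 => 𝔤.add_mem (ha 𝔤 h1 h2) (hb 𝔤 h1 h2)
  zero_mem' := fun 𝔤 _ _ => 𝔤.zero_mem
  smul_mem' := fun c _ ha 𝔤 h1 h2 => 𝔤.smul_mem c (ha 𝔤 h1 h2)

lemma inLie_bra {a b : Matrix (Fin N) (Fin N) ℂ} (ha : V.InLie a) (hb : V.InLie b) :
    V.InLie (a * b - b * a) := fun 𝔤 h1 h2 => h1 a (ha 𝔤 h1 h2) b (hb 𝔤 h1 h2)

lemma inLie_X (σ : ℂ ≃+* ℂ) : V.InLie (V.X.map σ) := fun _ _ h2 => h2 σ

lemma inLie_X' : V.InLie V.X := by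
  have h := inLie_X V (RingEquiv.refl ℂ)
  have h2 : V.X.map (RingEquiv.refl ℂ) = V.X := by ext i j; rfl
  rwa [h2] at h

/-- The conjugates of the elements. -/
lemma inLie_conj {y : Matrix (Fin N) (Fin N) ℂ} (hy : V.InLie y) (τ : ℂ ≃+* ℂ) :
    V.InLie (y.map τ) := by
  intro 𝔤 h1 h2
  let 𝔤' : Submodule ℂ (Matrix (Fin N) (Fin N) ℂ) :=
    { carrier := {z | z.map τ ∈ 𝔤}
      add_mem' := fun {a b} ha hb => by
        show (a + b).map τ ∈ 𝔤
        rw [Matrix.map_add _ (map_add τ)]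
        exact 𝔤.add_mem ha hb
      zero_mem' := by
        show (0 : Matrix (Fin N) (Fin N) ℂ).map τ ∈ 𝔤
        rw [Matrix.map_zero _ (map_zero τ)]
        exact 𝔤.zero_mem
      smul_mem' := fun c a ha => by
        show (c • a).map τ ∈ 𝔤
        have h : (c • a).map τ = τ c • a.map τ := by
          ext i j
          simp
        rw [h]
        exact 𝔤.smul_mem _ ha }
  refine hy 𝔤' ?_ ?_
  · intro a ha b hb
    show (a * b - b * a).map τ ∈ 𝔤
    rw [Matrix.map_sub _ (map_sub τ), Matrix.map_mul, Matrix.map_mul]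
    exact h1 _ ha _ hb
  · intro σ
    show (V.X.map σ).map τ ∈ 𝔤
    have h : (V.X.map σ).map τ = V.X.map (σ.trans τ) := by ext i j; rfl
    rw [h]
    exact h2 _

lemma cm_conj (A : Matrix (Fin N) (Fin N) ℚ) (τ : ℂ ≃+* ℂ) : (cm A).map τ = cm A := by
  ext i j
  simp

/-- The elements of the Lie algebra are skew. -/
lemma inLie_skew (hNDG : S_NDG) {y : Matrix (Fin N) (Fin N) ℂ} (hy : V.InLie y) :
    yᵀ * cm V.J + cm V.J * y = 0 := by
  let 𝔤 : Submodule ℂ (Matrix (Fin N) (Fin N) ℂ) :=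
    { carrier := {z | zᵀ * cm V.J + cm V.J * z = 0}
      add_mem' := fun {a b} ha hb => by
        show (a + b)ᵀ * cm V.J + cm V.J * (a + b) = 0
        have ha' : aᵀ * cm V.J + cm V.J * a = 0 := ha
        have hb' : bᵀ * cm V.J + cm V.J * b = 0 := hb
        rw [Matrix.transpose_add, add_mul, mul_add, add_add_add_comm, ha', hb', add_zero]
      zero_mem' := by
        show (0 : Matrix (Fin N) (Fin N) ℂ)ᵀ * cm V.J + cm V.J * 0 = 0
        rw [Matrix.transpose_zero, zero_mul, mul_zero, add_zero]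
      smul_mem' := fun c a ha => by
        show (c • a)ᵀ * cm V.J + cm V.J * (c • a) = 0
        have ha' : aᵀ * cm V.J + cm V.J * a = 0 := ha
        rw [Matrix.transpose_smul, Matrix.smul_mul, Matrix.mul_smul, ← smul_add, ha', smul_zero] }
  refine hy 𝔤 ?_ ?_
  · intro a ha b hb
    have ha' : aᵀ * cm V.J = -(cm V.J * a) := eq_neg_of_add_eq_zero_left ha
    have hb' : bᵀ * cm V.J = -(cm V.J * b) := eq_neg_of_add_eq_zero_left hb
    show (a * b - b * a)ᵀ * cm V.J + cm V.J * (a * b - b * a) = 0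
    rw [Matrix.transpose_sub, Matrix.transpose_mul, Matrix.transpose_mul, sub_mul, mul_assoc,
      mul_assoc, ha', hb', mul_neg, mul_neg, ← mul_assoc, ← mul_assoc, ha', hb']
    simp only [neg_mul, neg_neg, mul_sub, mul_assoc]
    abel
  · intro σ
    show (V.X.map σ)ᵀ * cm V.J + cm V.J * V.X.map σ = 0
    have h := congrArg (fun A : Matrix (Fin N) (Fin N) ℂ => A.map σ) (hNDG V).2.1
    rw [Matrix.map_add _ (map_add σ), Matrix.map_mul, Matrix.map_mul, cm_conj,
      Matrix.map_zero _ (map_zero σ), Matrix.transpose_map] at h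
    exact h

/-- The form. -/
noncomputable def psi : LinearMap.BilinForm ℂ (Fin N → ℂ) := Matrix.toBilin' (cm V.J)

lemma psi_apply (x y : Fin N → ℂ) : psi V x y = x ⬝ᵥ (cm V.J *ᵥ y) := Matrix.toBilin'_apply' _ _ _

/-- The Lie algebra as a submodule of the linear operators. -/
noncomputable def lieG : Submodule ℂ (Module.End ℂ (Fin N → ℂ)) :=
  (lieM V).comap (LinearMap.toMatrix' : ((Fin N → ℂ) →ₗ[ℂ] (Fin N → ℂ)) ≃ₗ[ℂ] _).toLinearMap

lemma mem_lieG {A : Module.End ℂ (Fin N → ℂ)} : A ∈ lieG V ↔ V.InLie (LinearMap.toMatrix' A) :=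
  Iff.rfl

lemma toLin_mem {y : Matrix (Fin N) (Fin N) ℂ} : Matrix.toLin' y ∈ lieG V ↔ V.InLie y := by
  rw [mem_lieG, LinearMap.toMatrix'_toLin']

lemma toM_mul (A B : Module.End ℂ (Fin N → ℂ)) :
    LinearMap.toMatrix' (A * B) = LinearMap.toMatrix' A * LinearMap.toMatrix' B :=
  LinearMap.toMatrix'_mul A B

lemma toL_mul (A B : Matrix (Fin N) (Fin N) ℂ) :
    (Matrix.toLin' (A * B) : Module.End ℂ (Fin N → ℂ)) = Matrix.toLin' A * Matrix.toLin' B :=
  Matrix.toLin'_mul A B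

lemma skew_lieG (hNDG : S_NDG) : Skew (psi V) (lieG V) := by
  intro A hA x y
  obtain ⟨a, rfl⟩ : ∃ a, A = Matrix.toLin' a := ⟨LinearMap.toMatrix' A, by simp⟩
  rw [toLin_mem] at hA
  have h := inLie_skew V hNDG hA
  rw [psi_apply, psi_apply, Matrix.toLin'_apply, Matrix.toLin'_apply]
  have h1 : (a *ᵥ x) ⬝ᵥ (cm V.J *ᵥ y) = x ⬝ᵥ ((aᵀ * cm V.J) *ᵥ y) := by
    rw [← Matrix.mulVec_mulVec, Matrix.dotProduct_mulVec x, Matrix.vecMul_transpose]
  rw [h1, Matrix.mulVec_mulVec, ← dotProduct_add, ← Matrix.add_mulVec, h, Matrix.zero_mulVec,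
    dotProduct_zero]

lemma irr_lieG (hIRR : S_IRR) (h : V.IsCY) : Irr (lieG V) := by
  intro U hU
  refine hIRR V h.scalar U fun y hy u hu => ?_
  have h1 := hU (Matrix.toLin' y) ((toLin_mem V).2 hy) u hu
  rwa [Matrix.toLin'_apply] at h1

lemma X_e {p : ℕ} (hp : p ≤ w) : V.X * V.e p = ((2 * (p : ℤ) - w : ℤ) : ℂ) • V.e p := by
  rw [PHS.X, Finset.sum_mul, Finset.sum_eq_single p]
  · rw [Matrix.smul_mul, V.mul p hp p hp, if_pos rfl]
  · intro q hq hqp
    have hq' : q ≤ w := by rw [Finset.mem_range] at hq; omega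
    rw [Matrix.smul_mul, V.mul q hq' p hp, if_neg hqp, smul_zero]
  · intro h
    exact absurd (Finset.mem_range.2 (by omega)) h

lemma e_X {p : ℕ} (hp : p ≤ w) : V.e p * V.X = ((2 * (p : ℤ) - w : ℤ) : ℂ) • V.e p := by
  rw [PHS.X, Finset.mul_sum, Finset.sum_eq_single p]
  · rw [Matrix.mul_smul, V.mul p hp p hp, if_pos rfl]
  · intro q hq hqp
    have hq' : q ≤ w := by rw [Finset.mem_range] at hq; omega
    rw [Matrix.mul_smul, V.mul p hp q hq', if_neg (Ne.symm hqp), smul_zero]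
  · intro h
    exact absurd (Finset.mem_range.2 (by omega)) h

/-- The part of type `(j, -j)` of a matrix. -/
noncomputable def part (A : Matrix (Fin N) (Fin N) ℂ) (j : ℤ) : Matrix (Fin N) (Fin N) ℂ :=
  ∑ x ∈ (Finset.range (w + 1) ×ˢ Finset.range (w + 1)).filter (fun x => (x.1 : ℤ) - x.2 = j),
    V.e x.1 * A * V.e x.2

lemma part_deg (A : Matrix (Fin N) (Fin N) ℂ) (j : ℤ) :
    V.X * part V A j - part V A j * V.X = ((2 * j : ℤ) : ℂ) • part V A j := by
  rw [part, Finset.mul_sum, Finset.sum_mul, ← Finset.sum_sub_distrib, Finset.smul_sum]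
  refine Finset.sum_congr rfl fun x hx => ?_
  obtain ⟨h1, h2⟩ := Finset.mem_filter.1 hx
  rw [Finset.mem_product, Finset.mem_range, Finset.mem_range] at h1
  have h3 : x.1 ≤ w := by omega
  have h4 : x.2 ≤ w := by omega
  rw [← mul_assoc, ← mul_assoc, X_e V h3, mul_assoc (V.e x.1 * A), e_X V h4, Matrix.smul_mul,
    Matrix.smul_mul, Matrix.mul_smul, ← sub_smul]
  congr 1
  rw [← h2]
  push_cast
  ring

lemma sum_part (A : Matrix (Fin N) (Fin N) ℂ) :
    ∑ j ∈ Finset.Icc (-(w : ℤ)) w, part V A j = A := by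
  have h1 : ∑ j ∈ Finset.Icc (-(w : ℤ)) w, part V A j =
      ∑ x ∈ Finset.range (w + 1) ×ˢ Finset.range (w + 1), V.e x.1 * A * V.e x.2 := by
    unfold part
    refine Finset.sum_fiberwise_of_maps_to (g := fun x : ℕ × ℕ => (x.1 : ℤ) - x.2) ?_ _
    intro x hx
    rw [Finset.mem_product, Finset.mem_range, Finset.mem_range] at hx
    rw [Finset.mem_Icc]
    omega
  rw [h1, Finset.sum_product]
  calc ∑ x ∈ Finset.range (w + 1), ∑ y ∈ Finset.range (w + 1), V.e x * A * V.e y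
      = (∑ x ∈ Finset.range (w + 1), V.e x) * A * ∑ y ∈ Finset.range (w + 1), V.e y := by
        rw [Finset.sum_mul, Finset.sum_mul]
        exact Finset.sum_congr rfl fun x _ => (Finset.mul_sum _ _ _).symm
    _ = A := by rw [V.sum, one_mul, mul_one]

lemma lieS : LieS (lieG V) (Matrix.toLin' V.X) where
  bra A hA B hB := by
    rw [mem_lieG, map_sub, toM_mul, toM_mul]
    exact inLie_bra V hA hB
  mem := (toLin_mem V).2 (inLie_X' V)
  hom := by
    intro A hA
    obtain ⟨a, rfl⟩ : ∃ a, A = Matrix.toLin' a := ⟨LinearMap.toMatrix' A, by simp⟩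
    rw [toLin_mem] at hA
    have h1 : ∀ j ∈ Finset.Icc (-(w : ℤ)) w, part V a j ∈ lieM V := by
      refine part_mem (LinearMap.mulLeft ℂ V.X - LinearMap.mulRight ℂ V.X) (lieM V) ?_ _
        (part V a) ?_ ?_
      · intro x hx
        exact inLie_bra V (inLie_X' V) hx
      · intro j _
        exact part_deg V a j
      · rw [sum_part]
        exact hA
    rw [← sum_part V a, map_sum]
    refine Submodule.sum_mem _ fun j hj => Submodule.subset_span
      ⟨(toLin_mem V).2 (h1 j hj), 2 * j, ?_⟩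
    rw [Deg, ← toL_mul, ← toL_mul, ← map_sub, part_deg, map_smul]

/-! ## The top eigenspaces -/

lemma exists_top (h : V.IsCY) : ∃ v : Fin N → ℂ, v ≠ 0 ∧ V.e w *ᵥ v = v ∧
    ∀ x, V.e w *ᵥ x = x → ∃ c : ℂ, x = c • v := by
  have hid : IsIdempotentElem (Matrix.toLin' (V.e w)) := by
    show Matrix.toLin' (V.e w) * Matrix.toLin' (V.e w) = Matrix.toLin' (V.e w)
    rw [← toL_mul, V.mul w le_rfl w le_rfl, if_pos rfl]
  have h1 : Module.finrank ℂ (LinearMap.range (Matrix.toLin' (V.e w))) = 1 := by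
    have h2 := (LinearMap.IsIdempotentElem.isProj_range _ hid).trace
    rw [Matrix.trace_toLin'_eq, h.one] at h2
    exact_mod_cast h2.symm
  have hmem : ∀ x, x ∈ LinearMap.range (Matrix.toLin' (V.e w)) ↔ V.e w *ᵥ x = x := by
    intro x
    constructor
    · rintro ⟨y, rfl⟩
      rw [Matrix.toLin'_apply, Matrix.mulVec_mulVec, V.mul w le_rfl w le_rfl, if_pos rfl]
    · intro hx
      exact ⟨x, hx⟩
  obtain ⟨v, hv, hv'⟩ := finrank_eq_one_iff'.1 h1
  refine ⟨v.1, fun h0 => hv (Subtype.ext h0), (hmem _).1 v.2, fun x hx => ?_⟩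
  obtain ⟨c, hc⟩ := hv' ⟨x, (hmem x).2 hx⟩
  exact ⟨c, (congrArg Subtype.val hc).symm⟩

lemma vec_e {p : ℕ} (hp : p ≤ w) (x : Fin N → ℂ) :
    Vec (Matrix.toLin' V.X) (2 * (p : ℤ) - w) (V.e p *ᵥ x) := by
  rw [Vec, Matrix.toLin'_apply, Matrix.mulVec_mulVec, X_e V hp, Matrix.smul_mulVec]

lemma sum_e (x : Fin N → ℂ) : ∑ p ∈ Finset.range (w + 1), V.e p *ᵥ x = x := by
  rw [← Matrix.sum_mulVec, V.sum, Matrix.one_mulVec]

lemma e_of_vec {p : ℕ} (hp : p ≤ w) {x : Fin N → ℂ}
    (hx : Vec (Matrix.toLin' V.X) (2 * (p : ℤ) - w) x) : V.e p *ᵥ x = x := by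
  rw [Vec, Matrix.toLin'_apply] at hx
  conv_rhs => rw [← sum_e V x]
  rw [Finset.sum_eq_single p]
  · intro q hq hqp
    have hq' : q ≤ w := by rw [Finset.mem_range] at hq; omega
    have h1 := congrArg (fun y => V.e q *ᵥ y) hx
    simp only [Matrix.mulVec_mulVec, Matrix.mulVec_smul] at h1
    rw [e_X V hq', Matrix.smul_mulVec, ← sub_eq_zero, ← sub_smul, ← Int.cast_sub] at h1
    rcases smul_eq_zero.1 h1 with h2 | h2
    · rw [Int.cast_eq_zero] at h2
      omega
    · exact h2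
  · intro h
    exact absurd (Finset.mem_range.2 (by omega)) h

lemma psi_alt (x : Fin N → ℂ) : psi V x x = 0 := by
  have hJ : (cm V.J)ᵀ = -cm V.J := by
    ext i j
    have h1 := congrFun (congrFun V.alt i) j
    rw [Matrix.transpose_apply, Matrix.neg_apply] at h1
    show algebraMap ℚ ℂ (V.J j i) = -algebraMap ℚ ℂ (V.J i j)
    rw [h1, map_neg]
  have h1 : psi V x x = -psi V x x := by
    conv_lhs => rw [psi_apply, Matrix.dotProduct_mulVec, ← Matrix.mulVec_transpose,
      dotProduct_comm, hJ]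
    rw [psi_apply, Matrix.neg_mulVec, dotProduct_neg]
  have h2 : (2 : ℂ) * psi V x x = 0 := by linear_combination h1
  exact (mul_eq_zero.1 h2).resolve_left two_ne_zero

lemma psi_anti (x y : Fin N → ℂ) : psi V x y = -psi V y x := by
  have h := psi_alt V (x + y)
  simp only [map_add, LinearMap.add_apply, psi_alt, zero_add, add_zero] at h
  linear_combination h

lemma psi_nondeg (hNDG : S_NDG) (x : Fin N → ℂ) (h : ∀ y, psi V x y = 0) : x = 0 := by
  have hdet : (cm V.J).det ≠ 0 := by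
    have h1 : (cm V.J).det = algebraMap ℚ ℂ V.J.det := by
      rw [cm, ← RingHom.mapMatrix_apply, ← RingHom.map_det]
    rw [h1]
    exact (map_ne_zero _).2 (hNDG V).1
  refine Matrix.eq_zero_of_vecMul_eq_zero hdet ?_
  funext j
  have h1 := h (Pi.single j 1)
  rw [psi_apply, Matrix.dotProduct_mulVec, dotProduct_single, mul_one] at h1
  exact h1

lemma star_e {p : ℕ} (hp : p ≤ w) (x : Fin N → ℂ) :
    V.e (w - p) *ᵥ star x = star (V.e p *ᵥ x) := by
  rw [← V.conj p hp]
  funext i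
  simp only [Matrix.mulVec, dotProduct, Matrix.map_apply, Pi.star_apply, star_sum, star_mul']
  rfl

lemma psi_star (x y : Fin N → ℂ) : psi V (star x) (star y) = star (psi V x y) := by
  rw [psi_apply, psi_apply]
  simp only [Matrix.mulVec, dotProduct, Matrix.map_apply, Pi.star_apply, star_sum, star_mul']
  refine Finset.sum_congr rfl fun i _ => ?_
  congr 1
  refine Finset.sum_congr rfl fun j _ => ?_
  congr 1
  simp

lemma vec_star {m : ℤ} {x : Fin N → ℂ} (hNDG : S_NDG) (hx : Vec (Matrix.toLin' V.X) m x) :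
    Vec (Matrix.toLin' V.X) (-m) (star x) := by
  rw [Vec, Matrix.toLin'_apply] at hx ⊢
  have h1 : V.X = -(V.X.map (starRingEnd ℂ)) := by rw [(hNDG V).2.2, neg_neg]
  have h2 : (V.X.map (starRingEnd ℂ)) *ᵥ star x = star (V.X *ᵥ x) := by
    funext i
    simp only [Matrix.mulVec, dotProduct, Matrix.map_apply, Pi.star_apply, star_sum, star_mul']
    rfl
  rw [h1, Matrix.neg_mulVec, h2, hx, Int.cast_neg, neg_smul, star_smul]
  congr 2
  simp

theorem topData (hNDG : S_NDG) (h : V.IsCY) : ∃ (Ω : Fin N → ℂ) (c : ℂ), c ≠ 0 ∧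
    TopData (psi V) (Matrix.toLin' V.X) w Ω (c • star Ω) := by
  obtain ⟨Ω, h0, h1, h2⟩ := exists_top V h
  have hv : Vec (Matrix.toLin' V.X) w Ω := by
    have := vec_e V le_rfl Ω
    rwa [h1, show (2 * (w : ℤ) - w) = w by ring] at this
  have hv' : Vec (Matrix.toLin' V.X) (-w) (star Ω) := vec_star V hNDG hv
  have htop : ∀ x, Vec (Matrix.toLin' V.X) w x → ∃ c : ℂ, x = c • Ω := by
    intro x hx
    refine h2 x (e_of_vec V le_rfl ?_)
    rwa [show (2 * (w : ℤ) - w) = w by ring]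
  have hne : psi V Ω (star Ω) ≠ 0 := by
    intro h3
    have h4 := V.pos w le_rfl Ω h0 h1
    rw [psi_anti, neg_eq_zero, psi_apply] at h3
    rw [h3, mul_zero] at h4
    simp at h4
  have hc : (psi V Ω (star Ω))⁻¹ ≠ 0 := inv_ne_zero hne
  refine ⟨Ω, (psi V Ω (star Ω))⁻¹, hc, psi_alt V, psi_nondeg V hNDG, ?_, ?_, hv, ?_, htop, ?_⟩
  · intro x
    rw [← sum_e V x]
    refine Submodule.sum_mem _ fun p hp => Submodule.subset_span
      ⟨2 * (p : ℤ) - w, ?_, ?_, ⟨p - w, by ring⟩, vec_e V (by rw [Finset.mem_range] at hp; omega) x⟩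
    · omega
    · rw [Finset.mem_range] at hp
      omega
  · rw [map_smul, smul_eq_mul, inv_mul_cancel₀ hne]
  · rw [Vec, map_smul, hv', smul_comm]
  · intro x hx
    have h3 := vec_star V hNDG hx
    rw [neg_neg] at h3
    obtain ⟨d, hd⟩ := htop _ h3
    refine ⟨star d * psi V Ω (star Ω), ?_⟩
    rw [smul_smul, mul_assoc, mul_inv_cancel₀ hne, mul_one, ← star_smul, ← hd, star_star]

/-! ## The level gap -/

variable {V}

lemma sq_conj {Ω : Fin N → ℂ} (h : op2 (psi V) Ω Ω ∈ lieG V) :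
    op2 (psi V) (star Ω) (star Ω) ∈ lieG V := by
  have h1 := inLie_conj V h (Complex.conjAe.toRingEquiv)
  have h2 : (LinearMap.toMatrix' (op2 (psi V) Ω Ω)).map Complex.conjAe.toRingEquiv =
      LinearMap.toMatrix' (op2 (psi V) (star Ω) (star Ω)) := by
    ext i j
    rw [Matrix.map_apply, LinearMap.toMatrix'_apply, LinearMap.toMatrix'_apply,
      Pool.Agent.T2h63.CY.op2_apply, Pool.Agent.T2h63.CY.op2_apply]
    have h3 : psi V (star Ω) (Pi.single j 1) = star (psi V Ω (Pi.single j 1)) := by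
      have h4 : (Pi.single j 1 : Fin N → ℂ) = star (Pi.single j 1) := by
        funext k
        rw [Pi.star_apply]
        by_cases hk : k = j
        · subst hk; simp
        · rw [Pi.single_eq_of_ne hk, star_zero]
      conv_lhs => rw [h4]
      exact psi_star V _ _
    simp only [h3, Pi.add_apply, Pi.smul_apply, smul_eq_mul, map_add, map_mul, Pi.star_apply]
    rfl
  rw [mem_lieG, ← h2]
  exact h1

lemma sq_of_deg (hNDG : S_NDG) (hIRR : S_IRR) (h : V.IsCY) {Ω Ω' : Fin N → ℂ}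
    (hT : TopData (psi V) (Matrix.toLin' V.X) w Ω Ω') {B : Module.End ℂ (Fin N → ℂ)}
    (hB : B ∈ lieG V) (hB0 : B ≠ 0) {j : ℤ} (hj : (w : ℤ) - 2 < j)
    (hd : Deg (Matrix.toLin' V.X) (2 * j) B) : op2 (psi V) Ω Ω ∈ lieG V := by
  have h3 := h.three
  obtain ⟨h1, h2⟩ := Pool.Agent.T2h63.CY.t_TOP _ _ _ _ _ (lieS V) (skew_lieG V hNDG) w (by omega)
    Ω Ω' hT
  have key : ∀ C ∈ lieG V, C ≠ 0 → Deg (Matrix.toLin' V.X) (2 * w) C →
      op2 (psi V) Ω Ω ∈ lieG V := by
    intro C hC hC0 hCd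
    obtain ⟨c, hc⟩ := h2 C hC hCd
    have hc0 : c ≠ 0 := by
      rintro rfl
      rw [zero_smul] at hc
      exact hC0 hc
    have h4 := Submodule.smul_mem _ c⁻¹ hC
    rwa [hc, smul_smul, inv_mul_cancel₀ hc0, one_smul] at h4
  rcases lt_trichotomy j w with h4 | h4 | h4
  · obtain rfl : j = w - 1 := by omega
    by_contra hcon
    refine hB0 (Pool.Agent.T2h63.CY.t_GAP _ _ _ _ _ (lieS V) (skew_lieG V hNDG)
      (irr_lieG V hIRR h) w (by omega) Ω Ω' hT (fun C hC hCd => ?_) B hB hd)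
    by_contra hC0
    exact hcon (key C hC hC0 hCd)
  · subst h4
    exact key B hB hB0 hd
  · exact absurd (h1 _ B (by omega) hd) hB0

/-- **LIE.** All skew matrices belong to the Lie algebra. -/
theorem t_LIE (hNDG : S_NDG) (hIRR : S_IRR) : S_LIE := by
  intro N w V h A hA
  obtain ⟨Ω, c, hc, hT⟩ := topData V hNDG h
  obtain ⟨y, hy, hy0, j, hj, hyd⟩ := h.level
  have hsq : op2 (psi V) Ω Ω ∈ lieG V := by
    rcases lt_or_ge 0 j with hj0 | hj0
    · rw [abs_of_pos hj0] at hj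
      refine sq_of_deg hNDG hIRR h hT ((toLin_mem V).2 hy) ?_ hj ?_
      · intro h0
        exact hy0 (Matrix.toLin'.injective (h0.trans (map_zero _).symm))
      · rw [Deg, ← toL_mul, ← toL_mul, ← map_sub, hyd, map_smul]
    · rw [abs_of_nonpos hj0] at hj
      refine sq_of_deg hNDG hIRR h hT
        ((toLin_mem V).2 (inLie_conj V hy (Complex.conjAe.toRingEquiv))) ?_ hj ?_
      · intro h0
        apply hy0
        have h1 := Matrix.toLin'.injective (h0.trans (map_zero _).symm)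
        ext a b
        have h2 := congrFun (congrFun h1 a) b
        rw [Matrix.map_apply, Matrix.zero_apply] at h2
        rw [Matrix.zero_apply]
        exact (map_eq_zero_iff _ (Complex.conjAe.toRingEquiv).injective).1 h2
      · have h3 := congrArg (fun A : Matrix (Fin N) (Fin N) ℂ =>
          A.map Complex.conjAe.toRingEquiv) hyd
        have h4 : V.X.map Complex.conjAe.toRingEquiv = -V.X := (hNDG V).2.2
        rw [Matrix.map_sub _ (map_sub _), Matrix.map_mul, Matrix.map_mul, h4] at h3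
        have h5 : (((2 * j : ℤ) : ℂ) • y).map Complex.conjAe.toRingEquiv =
            ((2 * j : ℤ) : ℂ) • y.map Complex.conjAe.toRingEquiv := by
          ext a b
          simp only [Matrix.map_apply, Matrix.smul_apply, smul_eq_mul, map_mul, map_intCast]
        rw [h5] at h3
        have h6 : V.X * y.map Complex.conjAe.toRingEquiv - y.map Complex.conjAe.toRingEquiv * V.X =
            ((2 * -j : ℤ) : ℂ) • y.map Complex.conjAe.toRingEquiv := by
          rw [mul_neg, Int.cast_neg, neg_smul, ← h3, neg_mul, mul_neg]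
          abel
        rw [Deg, ← toL_mul, ← toL_mul, ← map_sub, h6, map_smul]
  have hsq' : op2 (psi V) (c • star Ω) (c • star Ω) ∈ lieG V := by
    have h1 := Submodule.smul_mem _ (c * c) (sq_conj hsq)
    have h2 : op2 (psi V) (c • star Ω) (c • star Ω) =
        (c * c) • op2 (psi V) (star Ω) (star Ω) := by
      refine LinearMap.ext fun x => ?_
      rw [LinearMap.smul_apply, Pool.Agent.T2h63.CY.op2_apply, Pool.Agent.T2h63.CY.op2_apply,
        map_smul, LinearMap.smul_apply, smul_add, smul_smul, smul_smul, smul_eq_mul]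
      congr 1 <;> (congr 1; ring)
    rw [h2]
    exact h1
  have hall := Pool.Agent.T2h63.CY.t_ALL _ _ (psi V) (psi_alt V) (lieG V) (lieG V)
    (skew_lieG V hNDG) (irr_lieG V hIRR h) le_rfl (fun A hA B hB => (lieS V).bra A hA B hB)
    Ω (c • star Ω) hT.pair hsq hsq'
  have h1 : Matrix.toLin' A ∈ lieG V := by
    refine Pool.Agent.T2h63.CY.skew_mem (psi_alt V) (psi_nondeg V hNDG) (fun x y => ?_) hall
    rw [psi_apply, psi_apply, Matrix.toLin'_apply, Matrix.toLin'_apply]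
    have h2 : (A *ᵥ x) ⬝ᵥ (cm V.J *ᵥ y) = x ⬝ᵥ ((Aᵀ * cm V.J) *ᵥ y) := by
      rw [← Matrix.mulVec_mulVec, Matrix.dotProduct_mulVec x, Matrix.vecMul_transpose]
    rw [h2, Matrix.mulVec_mulVec, ← dotProduct_add, ← Matrix.add_mulVec, hA, Matrix.zero_mulVec,
      dotProduct_zero]
  exact (toLin_mem V).1 h1

end Pool.Agent.T2h63.MT
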