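import Pool.Agent.T2h63.MT.Defs
import Pool.Agent.T2h63.CY.Stm
import Pool.Agent.Y95.MT.GalSide
import Pool.Agent.Y95.MT.HodgeSide
import Pool.Agent.Y142.ZO.Stm

/-!
# The Mumford-Tate conjecture for Hodge structures of Calabi-Yau type: statements
-/

set_option autoImplicit false

open Matrix

namespace Pool.Agent.T2h63.MT

open Pool.Agent.Y95.MT (LS St SH MTgroup InMT InG0)
open Pool.Agent.Y142.ZO (IsTangent)

/-- **TRV.** The symplectic group is generated by the transvections. -/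
def S_TRV : Prop := ∀ (F : Type) [Field F] [CharZero F] (N : ℕ) (J : Matrix (Fin N) (Fin N) F)
  (_ : Jᵀ = -J) (_ : J.det ≠ 0) (M : Submonoid (Matrix (Fin N) (Fin N) F))
  (_ : ∀ (v : Fin N → F) (c : F), 1 + c • vecMulVec v (v ᵥ* J) ∈ M)
  (g : Matrix (Fin N) (Fin N) F) (_ : gᵀ * J * g = J), g ∈ M

/-- **UNI.** One-parameter unipotent groups. -/
def S_UNI : Prop := ∀ (K : Type) [Field K] [CharZero K] (ι : Type) [Fintype ι] [DecidableEq ι]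
  (S : Submodule K (MvPolynomial (ι × ι) K)) (X : Matrix ι ι K) (_ : X ∈ LS S) (_ : X * X = 0),
  1 + X ∈ St S

/-- **MTX.** The conjugates of the Hodge operator belong to the Lie algebra of the Mumford-Tate
group. -/
def S_MTX : Prop := ∀ {N w : ℕ} (V : PHS N w) (σ : ℂ ≃+* ℂ), V.X.map σ ∈ LS (SH V.h)

/-- **MTH.** The Mumford-Tate group is the group of all symplectic similitudes. -/
def S_MTH : Prop := ∀ {N w : ℕ} (V : PHS N w) (_ : 0 < w)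
  (_ : ∀ A, Aᵀ * cm V.J + cm V.J * A = 0 → A ∈ LS (SH V.h))
  (R : Type) [Field R] [Algebra ℚ R] (_ : R →+* ℂ) (g : Matrix (Fin N) (Fin N) R) (_ : g.det ≠ 0),
  InMT V.h g ↔ ∃ c : R, gᵀ * V.J.map (algebraMap ℚ R) * g = c • V.J.map (algebraMap ℚ R)

/-- **MTG.** The identity component of the monodromy group is the group of all symplectic
similitudes. -/
def S_MTG : Prop := ∀ (ℓ : ℕ) [Fact ℓ.Prime] (N : ℕ) (Γ : Type) [Group Γ] [TopologicalSpace Γ]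
  [IsTopologicalGroup Γ] [CompactSpace Γ] (ρ : Γ →* Matrix (Fin N) (Fin N) ℚ_[ℓ])
  (_ : Continuous ρ) (J : Matrix (Fin N) (Fin N) ℚ_[ℓ]) (_ : Jᵀ = -J) (_ : J.det ≠ 0)
  (_ : ∀ γ, ∃ c : ℚ_[ℓ], (ρ γ)ᵀ * J * ρ γ = c • J)
  (_ : ∃ γ, ∃ c : ℚ_[ℓ], (ρ γ)ᵀ * J * ρ γ = c • J ∧ ∀ m : ℕ, 0 < m → c ^ m ≠ 1)
  (_ : ∀ X, Xᵀ * J + J * X = 0 → IsTangent ℓ ρ X)
  (g : Matrix (Fin N) (Fin N) (AlgebraicClosure ℚ_[ℓ])) (_ : g.det ≠ 0),
  InG0 ρ g ↔ ∃ c : AlgebraicClosure ℚ_[ℓ], gᵀ * J.map (algebraMap ℚ_[ℓ] (AlgebraicClosure ℚ_[ℓ])) * g =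
    c • J.map (algebraMap ℚ_[ℓ] (AlgebraicClosure ℚ_[ℓ]))

/-- **NDG.** The form is nondegenerate and the Hodge operator is skew. -/
def S_NDG : Prop := ∀ {N w : ℕ} (V : PHS N w), V.J.det ≠ 0 ∧
  V.Xᵀ * cm V.J + cm V.J * V.X = 0 ∧ V.X.map (starRingEnd ℂ) = -V.X

/-- **IRR.** The Lie algebra acts irreducibly. -/
def S_IRR : Prop := ∀ {N w : ℕ} (V : PHS N w)
  (_ : ∀ A : Matrix (Fin N) (Fin N) ℚ, (∀ p ≤ w, cm A * V.e p = V.e p * cm A) →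
    ∃ c : ℚ, A = c • (1 : Matrix (Fin N) (Fin N) ℚ))
  (U : Submodule ℂ (Fin N → ℂ)) (_ : ∀ y, V.InLie y → ∀ u ∈ U, y *ᵥ u ∈ U), U = ⊥ ∨ U = ⊤

/-- **LIE.** All skew matrices belong to the Lie algebra. -/
def S_LIE : Prop := ∀ {N w : ℕ} (V : PHS N w) (_ : V.IsCY) (A : Matrix (Fin N) (Fin N) ℂ)
  (_ : Aᵀ * cm V.J + cm V.J * A = 0), V.InLie A

end Pool.Agent.T2h63.MT
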