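import Mathlib
import Pool.Agent.T2h63.MT.Stm
import Pool.Agent.Y95.MT.Main

/-!
# MTH: the Mumford-Tate group is the group of all symplectic similitudes
-/

set_option autoImplicit false

open Matrix MvPolynomial

namespace Pool.Agent.T2h63.MT

open Pool.Agent.Y95.MT

variable {N w : ℕ}

namespace H

theorem h_mul (V : PHS N w) (z z' : ℂ) : V.h z * V.h z' = V.h (z * z') := by
  unfold PHS.h
  rw [Finset.sum_mul]
  refine Finset.sum_congr rfl fun a ha => ?_
  have ha' : a ≤ w := by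
    rw [Finset.mem_range] at ha
    omega
  rw [Finset.mul_sum, Finset.sum_eq_single a]
  · rw [smul_mul_smul_comm, V.mul a ha' a ha', if_pos rfl, map_mul, mul_zpow, mul_zpow]
    congr 1
    ring
  · intro b hb hab
    rw [Finset.mem_range] at hb
    rw [smul_mul_smul_comm, V.mul a ha' b (by omega), if_neg (Ne.symm hab), smul_zero]
  · intro h
    exact absurd ha h

theorem h_one (V : PHS N w) : V.h 1 = 1 := by
  unfold PHS.h
  rw [← V.sum]
  refine Finset.sum_congr rfl fun a _ => ?_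
  rw [map_one, _root_.one_zpow, _root_.one_zpow, mul_one, one_smul]

theorem h_det (V : PHS N w) {z : ℂ} (hz : z ≠ 0) : (V.h z).det ≠ 0 := by
  intro h0
  have h1 := congrArg Matrix.det (h_mul V z z⁻¹)
  rw [mul_inv_cancel₀ hz, h_one, Matrix.det_mul, h0, zero_mul, Matrix.det_one] at h1
  exact zero_ne_one h1

theorem J_sum (V : PHS N w) : cm V.J = ∑ p ∈ Finset.range (w + 1), ∑ q ∈ Finset.range (w + 1),
    (V.e p)ᵀ * cm V.J * V.e q := by
  have h1 : cm V.J = (∑ p ∈ Finset.range (w + 1), V.e p)ᵀ * cm V.J *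
      (∑ q ∈ Finset.range (w + 1), V.e q) := by
    rw [V.sum, Matrix.transpose_one, one_mul, mul_one]
  conv_lhs => rw [h1]
  rw [Matrix.transpose_sum, Finset.sum_mul, Finset.sum_mul]
  refine Finset.sum_congr rfl fun p _ => ?_
  rw [Finset.mul_sum]

theorem h_sim (V : PHS N w) {z : ℂ} (hz : z ≠ 0) :
    (V.h z)ᵀ * cm V.J * V.h z = ((z * starRingEnd ℂ z) ^ (-(w : ℤ))) • cm V.J := by
  have hz' : starRingEnd ℂ z ≠ 0 := (map_ne_zero _).2 hz
  conv_rhs => rw [J_sum]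
  unfold PHS.h
  rw [Matrix.transpose_sum, Finset.sum_mul, Finset.sum_mul, Finset.smul_sum]
  refine Finset.sum_congr rfl fun p hp => ?_
  rw [Finset.mul_sum, Finset.smul_sum]
  refine Finset.sum_congr rfl fun q hq => ?_
  rw [Finset.mem_range] at hp hq
  rw [Matrix.transpose_smul, Matrix.smul_mul, Matrix.smul_mul, Matrix.mul_smul, smul_smul]
  by_cases hpq : p + q = w
  · congr 1
    subst hpq
    rw [mul_zpow]
    have e1 : z ^ (-((p + q : ℕ) : ℤ)) = z ^ (-(p : ℤ)) * z ^ (-(q : ℤ)) := by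
      rw [← zpow_add₀ hz]
      congr 1
      push_cast
      ring
    have e2 : starRingEnd ℂ z ^ (-((p + q : ℕ) : ℤ)) =
        starRingEnd ℂ z ^ ((p : ℤ) - ((p + q : ℕ) : ℤ)) *
          starRingEnd ℂ z ^ ((q : ℤ) - ((p + q : ℕ) : ℤ)) := by
      rw [← zpow_add₀ hz']
      congr 1
      push_cast
      ring
    rw [e1, e2]
    ring
  · rw [V.orth p (by omega) q (by omega) hpq, smul_zero, smul_zero]

/-! ### The similitudes -/

/-- the polynomials -/
noncomputable def PP (J : Matrix (Fin N) (Fin N) ℚ) (a b : Fin N) :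
    MvPolynomial (Fin N × Fin N) ℚ :=
  ∑ j, (∑ i, X (i, a) * C (J i j)) * X (j, b)

theorem vQ_PP {R : Type} [CommRing R] [Algebra ℚ R] (J : Matrix (Fin N) (Fin N) ℚ)
    (g : Matrix (Fin N) (Fin N) R) (a b : Fin N) :
    vQ g (PP J a b) = (gᵀ * J.map (algebraMap ℚ R) * g) a b := by
  unfold vQ PP
  simp [Matrix.mul_apply, Matrix.transpose_apply, Matrix.map_apply]

/-- the equations -/
noncomputable def EQ (J : Matrix (Fin N) (Fin N) ℚ) (a b c d : Fin N) :
    MvPolynomial (Fin N × Fin N) ℚ :=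
  PP J a b * C (J c d) - PP J c d * C (J a b)

theorem vQ_EQ {R : Type} [CommRing R] [Algebra ℚ R] (J : Matrix (Fin N) (Fin N) ℚ)
    (g : Matrix (Fin N) (Fin N) R) (a b c d : Fin N) :
    vQ g (EQ J a b c d) = (gᵀ * J.map (algebraMap ℚ R) * g) a b * algebraMap ℚ R (J c d) -
      (gᵀ * J.map (algebraMap ℚ R) * g) c d * algebraMap ℚ R (J a b) := by
  rw [← vQ_PP, ← vQ_PP]
  unfold vQ EQ
  rw [map_sub, map_mul, map_mul, aeval_C, aeval_C]

theorem sim_iff {R : Type} [Field R] [Algebra ℚ R] (J : Matrix (Fin N) (Fin N) ℚ)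
    (g : Matrix (Fin N) (Fin N) R) :
    (∃ c : R, gᵀ * J.map (algebraMap ℚ R) * g = c • J.map (algebraMap ℚ R)) ↔
      ∀ a b c d, vQ g (EQ J a b c d) = 0 := by
  constructor
  · rintro ⟨k, hk⟩ a b c d
    rw [vQ_EQ, hk]
    simp only [Matrix.smul_apply, Matrix.map_apply, smul_eq_mul]
    ring
  · intro h
    by_cases hJ : J = 0
    · refine ⟨0, ?_⟩
      subst hJ
      simp
    · have h1 : ∃ c d, J c d ≠ 0 := by
        by_contra h2
        push Not at h2
        exact hJ (by ext i j; exact h2 i j)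
      obtain ⟨c, d, hcd⟩ := h1
      have hcd' : algebraMap ℚ R (J c d) ≠ 0 := (map_ne_zero _).2 hcd
      refine ⟨(gᵀ * J.map (algebraMap ℚ R) * g) c d / algebraMap ℚ R (J c d), ?_⟩
      ext a b
      have h3 := h a b c d
      rw [vQ_EQ, sub_eq_zero] at h3
      rw [Matrix.smul_apply, smul_eq_mul, Matrix.map_apply, div_mul_eq_mul_div, ← h3,
        mul_div_assoc, div_self hcd', mul_one]

theorem sim_QGroup (J : Matrix (Fin N) (Fin N) ℚ) :
    IsQGroup {g : Matrix (Fin N) (Fin N) ℂ | g.det ≠ 0 ∧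
      ∃ c : ℂ, gᵀ * J.map (algebraMap ℚ ℂ) * g = c • J.map (algebraMap ℚ ℂ)} := by
  refine ⟨⟨{f | ∃ a b c d, f = EQ J a b c d}, fun g => ?_⟩, ?_, ?_, ?_⟩
  · refine and_congr_right fun _ => ?_
    rw [sim_iff]
    constructor
    · rintro h _ ⟨a, b, c, d, rfl⟩
      exact h a b c d
    · intro h a b c d
      exact h _ ⟨a, b, c, d, rfl⟩
  · refine ⟨by simp, 1, by simp⟩
  · rintro a ⟨ha, c, hc⟩ b ⟨hb, d, hd⟩
    refine ⟨by rw [Matrix.det_mul]; exact mul_ne_zero ha hb, c * d, ?_⟩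
    calc (a * b)ᵀ * J.map (algebraMap ℚ ℂ) * (a * b)
        = bᵀ * (aᵀ * J.map (algebraMap ℚ ℂ) * a) * b := by
          rw [Matrix.transpose_mul]
          simp only [Matrix.mul_assoc]
      _ = (c * d) • J.map (algebraMap ℚ ℂ) := by
          rw [hc, Matrix.mul_smul, Matrix.smul_mul, hd, smul_smul]
  · rintro a ⟨ha, c, hc⟩
    have hu : IsUnit a.det := isUnit_iff_ne_zero.2 ha
    refine ⟨?_, c⁻¹, ?_⟩
    · rw [Matrix.det_nonsing_inv, Ring.inverse_eq_inv']
      exact inv_ne_zero ha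
    · have h1 : J.map (algebraMap ℚ ℂ) = c • ((a⁻¹)ᵀ * J.map (algebraMap ℚ ℂ) * a⁻¹) := by
        have h2 : (a⁻¹)ᵀ * (aᵀ * J.map (algebraMap ℚ ℂ) * a) * a⁻¹ = J.map (algebraMap ℚ ℂ) := by
          have h3 : (a⁻¹)ᵀ * aᵀ = 1 := by
            rw [← Matrix.transpose_mul, Matrix.mul_nonsing_inv a hu, Matrix.transpose_one]
          calc (a⁻¹)ᵀ * (aᵀ * J.map (algebraMap ℚ ℂ) * a) * a⁻¹
              = ((a⁻¹)ᵀ * aᵀ) * J.map (algebraMap ℚ ℂ) * (a * a⁻¹) := by
                simp only [Matrix.mul_assoc]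
            _ = J.map (algebraMap ℚ ℂ) := by
                rw [h3, Matrix.mul_nonsing_inv a hu, one_mul, mul_one]
        rw [hc, Matrix.mul_smul, Matrix.smul_mul] at h2
        exact h2.symm
      by_cases hc0 : c = 0
      · subst hc0
        rw [zero_smul] at h1
        rw [h1]
        simp
      · conv_rhs => rw [h1]
        rw [smul_smul, inv_mul_cancel₀ hc0, one_smul]

theorem MT_sim (V : PHS N w) {g : Matrix (Fin N) (Fin N) ℂ} (hg : g ∈ MTgroup V.h) :
    ∃ c : ℂ, gᵀ * V.J.map (algebraMap ℚ ℂ) * g = c • V.J.map (algebraMap ℚ ℂ) :=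
  (hg _ (sim_QGroup V.J) fun _ hz => ⟨h_det V hz, _, h_sim V hz⟩).2

/-! ### The form is nondegenerate -/

theorem J_det (V : PHS N w) : V.J.det ≠ 0 := by
  intro h0
  have h1 : (cm V.J).det = 0 := by
    have h2 := (algebraMap ℚ ℂ).map_det V.J
    rw [RingHom.mapMatrix_apply] at h2
    rw [← h2, h0, map_zero]
  obtain ⟨v, hv, hJv⟩ := Matrix.exists_mulVec_eq_zero_iff.2 h1
  have h3 : ∀ p ∈ Finset.range (w + 1), V.e p *ᵥ v = 0 := by
    intro p hp
    rw [Finset.mem_range] at hp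
    by_contra hne
    have h4 : V.e p *ᵥ (V.e p *ᵥ v) = V.e p *ᵥ v := by
      rw [Matrix.mulVec_mulVec, V.mul p (by omega) p (by omega), if_pos rfl]
    have h5 := V.pos p (by omega) _ hne h4
    -- `star (e p v) ⬝ J (e p v) = star v ⬝ e (w - p)ᵀ J e p v = star v ⬝ (e (w-p))ᵀ J v`
    have h6 : star (V.e p *ᵥ v) = V.e (w - p) *ᵥ star v := by
      rw [← V.conj p (by omega)]
      ext i
      simp [Matrix.mulVec, dotProduct, Matrix.map_apply]
    have h7 : (V.e (w - p))ᵀ * cm V.J * V.e p = (V.e (w - p))ᵀ * cm V.J := by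
      conv_rhs => rw [← mul_one ((V.e (w - p))ᵀ * cm V.J), ← V.sum, Finset.mul_sum]
      symm
      refine Finset.sum_eq_single p (fun q hq hqp => ?_) fun h => ?_
      · rw [Finset.mem_range] at hq
        exact V.orth _ (by omega) q (by omega) (by omega)
      · exact absurd (Finset.mem_range.2 hp) h
    have h8 : star (V.e p *ᵥ v) ⬝ᵥ (cm V.J *ᵥ (V.e p *ᵥ v)) = 0 := by
      rw [h6, Matrix.mulVec_mulVec, ← Matrix.vecMul_transpose, ← Matrix.dotProduct_mulVec,
        Matrix.mulVec_mulVec, ← Matrix.mul_assoc, h7, ← Matrix.mulVec_mulVec, hJv,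
        Matrix.mulVec_zero, dotProduct_zero]
    rw [h8, mul_zero] at h5
    simp at h5
  apply hv
  have h9 : (1 : Matrix (Fin N) (Fin N) ℂ) *ᵥ v = 0 := by
    rw [← V.sum, Matrix.sum_mulVec]
    exact Finset.sum_eq_zero h3
  rwa [Matrix.one_mulVec] at h9

/-! ### The scalars -/

theorem Gr1 : Gr ({1} : Finset ℤ) (fun _ => (1 : Matrix (Fin N) (Fin N) ℂ)) := by
  constructor
  · intro a ha b hb
    rw [Finset.mem_singleton] at ha hb
    rw [if_pos (ha.trans hb.symm), mul_one]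
  · rw [Finset.sum_singleton]

theorem pw1 (t : ℂ) : pw ({1} : Finset ℤ) (fun _ => (1 : Matrix (Fin N) (Fin N) ℂ)) t =
    t • (1 : Matrix (Fin N) (Fin N) ℂ) := by
  unfold pw
  rw [Finset.sum_singleton, zpow_one]

theorem h_real (V : PHS N w) {t : ℝ} (ht : 0 < t) :
    V.h (t : ℂ) = ((t : ℂ) ^ (-(w : ℤ))) • (1 : Matrix (Fin N) (Fin N) ℂ) := by
  have ht' : (t : ℂ) ≠ 0 := by exact_mod_cast ht.ne'
  unfold PHS.h
  rw [← V.sum, Finset.smul_sum]
  refine Finset.sum_congr rfl fun p _ => ?_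
  rw [Complex.conj_ofReal, ← zpow_add₀ ht']
  congr 2
  ring

theorem one_LS (V : PHS N w) (hw : 0 < w) : dr ({1} : Finset ℤ)
    (fun _ => (1 : Matrix (Fin N) (Fin N) ℂ)) ∈ LS (SH V.h) := by
  refine dr_mem_LS Gr1 fun f hf => ?_
  refine Set.Infinite.mono (s := Set.range fun m : ℕ => (((m + 1 : ℕ) : ℝ) : ℂ) ^ (-(w : ℤ))) ?_ ?_
  · rintro _ ⟨m, rfl⟩
    have hm : (0 : ℝ) < ((m + 1 : ℕ) : ℝ) := by exact_mod_cast Nat.succ_pos m
    have hm' : (((m + 1 : ℕ) : ℝ) : ℂ) ≠ 0 := by exact_mod_cast hm.ne'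
    refine ⟨zpow_ne_zero _ hm', ?_⟩
    rw [pw1, ← h_real V hm]
    exact MT_St (MT_h hm') f hf
  · refine Set.infinite_range_of_injective fun a b hab => ?_
    have hab' : (((a + 1 : ℕ) : ℝ) : ℂ) ^ (-(w : ℤ)) = (((b + 1 : ℕ) : ℝ) : ℂ) ^ (-(w : ℤ)) := hab
    rw [_root_.zpow_neg, _root_.zpow_neg, _root_.inv_inj, zpow_natCast, zpow_natCast] at hab'
    have h1 : (a + 1) ^ w = (b + 1) ^ w := by exact_mod_cast hab'
    have h2 := Nat.pow_left_injective (by omega : w ≠ 0) h1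
    omega

theorem scal_St (V : PHS N w) (hw : 0 < w) {s : ℂ} (hs : s ≠ 0) :
    s • (1 : Matrix (Fin N) (Fin N) ℂ) ∈ St (SH V.h) := by
  rw [← pw1]
  exact pw_mem_St Gr1 (one_LS V hw) hs

/-! ### The symplectic group -/

theorem cm_alt (V : PHS N w) : (cm V.J)ᵀ = -cm V.J := by
  have h1 : (cm V.J)ᵀ = cm (V.Jᵀ) := by
    ext i j
    rfl
  rw [h1, V.alt]
  ext i j
  simp [Matrix.map_apply]

theorem mulVec_J (V : PHS N w) (v : Fin N → ℂ) : cm V.J *ᵥ v = -(v ᵥ* cm V.J) := by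
  rw [← Matrix.mulVec_transpose, cm_alt, Matrix.neg_mulVec, neg_neg]

theorem dot_J (V : PHS N w) (v : Fin N → ℂ) : (v ᵥ* cm V.J) ⬝ᵥ v = 0 := by
  have h1 : (v ᵥ* cm V.J) ⬝ᵥ v = v ⬝ᵥ (cm V.J *ᵥ v) := (Matrix.dotProduct_mulVec _ _ _).symm
  have h2 : v ⬝ᵥ (cm V.J *ᵥ v) = -((v ᵥ* cm V.J) ⬝ᵥ v) := by
    rw [mulVec_J, dotProduct_neg, dotProduct_comm]
  rw [h2] at h1
  have h3 : (2 : ℂ) * ((v ᵥ* cm V.J) ⬝ᵥ v) = 0 := by linear_combination h1
  exact (mul_eq_zero.1 h3).resolve_left two_ne_zero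

theorem tr_St (hUNI : S_UNI) (V : PHS N w)
    (hL : ∀ A, Aᵀ * cm V.J + cm V.J * A = 0 → A ∈ LS (SH V.h)) (v : Fin N → ℂ) (c : ℂ) :
    1 + c • vecMulVec v (v ᵥ* cm V.J) ∈ St (SH V.h) := by
  refine hUNI ℂ (Fin N) (SH V.h) _ (hL _ ?_) ?_
  · rw [Matrix.transpose_smul, Matrix.transpose_vecMulVec, Matrix.smul_mul, Matrix.mul_smul,
      Matrix.vecMulVec_mul, Matrix.mul_vecMulVec, mulVec_J, ← smul_add]
    have : vecMulVec (v ᵥ* cm V.J) (v ᵥ* cm V.J) + vecMulVec (-(v ᵥ* cm V.J)) (v ᵥ* cm V.J) = 0 := by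
      ext i j
      simp [Matrix.vecMulVec_apply]
    rw [this, smul_zero]
  · rw [Matrix.smul_mul, Matrix.mul_smul, Matrix.vecMulVec_mul_vecMulVec, dot_J]
    simp

end H

open H

/-- **MTH.** -/
theorem t_MTH (hTRV : S_TRV) (hUNI : S_UNI) : S_MTH := by
  intro N w V hw hL R _ _ e g hg
  constructor
  · intro h
    rw [sim_iff]
    intro a b c d
    exact h _ fun m hm => (sim_iff V.J m).1 (MT_sim V hm) a b c d
  · rintro ⟨c, hc⟩ f hf
    suffices h : g.map e ∈ MTgroup V.h by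
      have h1 := hf _ h
      rw [vQ_map] at h1
      exact (map_eq_zero e).1 h1
    rcases Nat.eq_zero_or_pos N with rfl | hN
    · rw [Subsingleton.elim (g.map e) 1]
      exact MT_one
    have hJ0 : (cm V.J).det ≠ 0 := by
      have h2 := (algebraMap ℚ ℂ).map_det V.J
      rw [RingHom.mapMatrix_apply] at h2
      rw [← h2]
      exact (map_ne_zero _).2 (J_det V)
    have hgd : (g.map e).det ≠ 0 := by
      have h5 := e.map_det g
      rw [RingHom.mapMatrix_apply] at h5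
      rw [← h5]
      exact (map_ne_zero e).2 hg
    have hc' : (g.map e)ᵀ * cm V.J * g.map e = e c • cm V.J := by
      have h3 := congrArg (fun M : Matrix (Fin N) (Fin N) R => M.map e) hc
      have h4 : (V.J.map (algebraMap ℚ R)).map e = cm V.J := by
        ext i j
        simp [Matrix.map_apply]
      simp only [Matrix.map_mul, h4] at h3
      rw [← Matrix.transpose_map, h3]
      ext i j
      simp [Matrix.map_apply]
    generalize g.map e = m at hgd hc' ⊢
    generalize e c = k at hc'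
    have hk : k ≠ 0 := by
      rintro rfl
      have h5 := congrArg Matrix.det hc'
      have : Nonempty (Fin N) := ⟨⟨0, hN⟩⟩
      rw [zero_smul, Matrix.det_mul, Matrix.det_mul, Matrix.det_transpose, Matrix.det_zero] at h5
      exact mul_ne_zero (mul_ne_zero hgd hJ0) hgd h5
    obtain ⟨s, hs⟩ := IsAlgClosed.exists_pow_nat_eq k (n := 2) (by norm_num)
    have hs0 : s ≠ 0 := by
      rintro rfl
      apply hk
      rw [← hs]
      norm_num
    have h6 : (s⁻¹ • m)ᵀ * cm V.J * (s⁻¹ • m) = cm V.J := by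
      rw [Matrix.transpose_smul, Matrix.smul_mul, Matrix.smul_mul, Matrix.mul_smul, hc', smul_smul,
        smul_smul, ← hs]
      have h7 : s⁻¹ * s⁻¹ * s ^ 2 = 1 := by
        field_simp
      rw [h7, one_smul]
    have h8 : s⁻¹ • m ∈ St (SH V.h) :=
      hTRV ℂ N (cm V.J) (cm_alt V) hJ0 (St (SH V.h)) (fun v c => tr_St hUNI V hL v c) _ h6
    have h9 := (St (SH V.h)).mul_mem (scal_St V hw hs0) h8
    rw [Matrix.smul_mul, one_mul, smul_smul, mul_inv_cancel₀ hs0, one_smul] at h9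
    exact MT_of_St hgd h9

end Pool.Agent.T2h63.MT
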