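import Pool.Agent.T2h63.MT.Stm2
import Pool.Agent.T2h63.MT.MTH

/-!
# MTI: the Mumford-Tate group of a sum with a Hodge structure of Calabi-Yau type
-/

set_option autoImplicit false
set_option linter.unusedSectionVars false

open Matrix MvPolynomial

namespace Pool.Agent.T2h63.MT

open Pool.Agent.Y95.MT Pool.Agent.W528.ZC

namespace I

section row

variable {κ : Type} [Fintype κ] [DecidableEq κ] {R : Type} [Field R] {o : κ}

/-- the row `o` of `v` is zero outside of `o` -/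
def Row (o : κ) (v : Matrix κ κ R) : Prop := ∀ i, i ≠ o → v o i = 0

theorem Row_one : Row o (1 : Matrix κ κ R) := fun _ hi => Matrix.one_apply_ne (Ne.symm hi)

theorem row_mul_apply {v v' : Matrix κ κ R} (hv : Row o v) (i : κ) :
    (v * v') o i = v o o * v' o i := by
  rw [Matrix.mul_apply]
  refine Finset.sum_eq_single o (fun j _ hj => ?_) fun h => absurd (Finset.mem_univ _) h
  rw [hv j hj, zero_mul]

theorem Row_mul {v v' : Matrix κ κ R} (hv : Row o v) (hv' : Row o v') : Row o (v * v') := by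
  intro i hi
  rw [row_mul_apply hv, hv' i hi, mul_zero]

theorem row_ne {v : Matrix κ κ R} (hv : Row o v) (hd : v.det ≠ 0) : v o o ≠ 0 := by
  intro h
  apply hd
  apply Matrix.det_eq_zero_of_row_eq_zero o
  intro i
  by_cases hi : i = o
  · rw [hi, h]
  · exact hv i hi

theorem row_inv {v : Matrix κ κ R} (hv : Row o v) (hd : v.det ≠ 0) :
    Row o v⁻¹ ∧ v⁻¹ o o = (v o o)⁻¹ := by
  have h1 : v * v⁻¹ = 1 := Matrix.mul_nonsing_inv _ (isUnit_iff_ne_zero.2 hd)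
  have h0 := row_ne hv hd
  constructor
  · intro i hi
    have h2 := row_mul_apply (v' := v⁻¹) hv i
    rw [h1, Matrix.one_apply_ne (Ne.symm hi)] at h2
    exact (mul_eq_zero.1 h2.symm).resolve_left h0
  · have h2 := row_mul_apply (v' := v⁻¹) hv o
    rw [h1, Matrix.one_apply_eq] at h2
    exact eq_inv_of_mul_eq_one_right h2.symm

end row

section sim

variable {N : ℕ} {R : Type} [Field R] {J : Matrix (Fin N) (Fin N) R}

theorem sim_mul {a b : Matrix (Fin N) (Fin N) R} {c d : R} (ha : aᵀ * J * a = c • J)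
    (hb : bᵀ * J * b = d • J) : (a * b)ᵀ * J * (a * b) = (c * d) • J := by
  calc (a * b)ᵀ * J * (a * b) = bᵀ * (aᵀ * J * a) * b := by
        rw [Matrix.transpose_mul]
        simp only [Matrix.mul_assoc]
    _ = (c * d) • J := by
        rw [ha, Matrix.mul_smul, Matrix.smul_mul, hb, smul_smul]

theorem sim_inv {a : Matrix (Fin N) (Fin N) R} {c : R} (hd : a.det ≠ 0) (hc : c ≠ 0)
    (ha : aᵀ * J * a = c • J) : (a⁻¹)ᵀ * J * a⁻¹ = c⁻¹ • J := by
  have hu : IsUnit a.det := isUnit_iff_ne_zero.2 hd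
  have h1 : (a⁻¹)ᵀ * (aᵀ * J * a) * a⁻¹ = J := by
    calc (a⁻¹)ᵀ * (aᵀ * J * a) * a⁻¹ = (a * a⁻¹)ᵀ * J * (a * a⁻¹) := by
          rw [Matrix.transpose_mul]
          simp only [Matrix.mul_assoc]
      _ = J := by rw [Matrix.mul_nonsing_inv a hu, Matrix.transpose_one, one_mul, mul_one]
  rw [ha, Matrix.mul_smul, Matrix.smul_mul] at h1
  rw [← h1, smul_smul, h1, inv_mul_cancel₀ hc, one_smul]

theorem sim_det {a : Matrix (Fin N) (Fin N) R} {c : R} (hJ : J.det ≠ 0) (hc : c ≠ 0)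
    (ha : aᵀ * J * a = c • J) : a.det ≠ 0 := by
  intro h
  have h1 := congrArg Matrix.det ha
  rw [Matrix.det_mul, Matrix.det_mul, Matrix.det_transpose, h, zero_mul, zero_mul,
    Matrix.det_smul] at h1
  exact mul_ne_zero (pow_ne_zero _ hc) hJ h1.symm

/-- the section -/
def dd (D : Matrix (Fin N) (Fin N) R) (c : R) : Matrix (Fin N) (Fin N) R := 1 + (c - 1) • D

theorem dd_sim {D : Matrix (Fin N) (Fin N) R} (h1 : D * D = D) (h2 : Dᵀ * J + J * D = J) (c : R) :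
    (dd D c)ᵀ * J * dd D c = c • J := by
  have h3 : Dᵀ * J = J - J * D := eq_sub_of_add_eq h2
  have h4 : Dᵀ * J * D = 0 := by
    rw [h3, sub_mul, Matrix.mul_assoc, h1, sub_self]
  have h5 : (1 + (c - 1) • Dᵀ) * J * (1 + (c - 1) • D) =
      J + (c - 1) • (Dᵀ * J + J * D) + ((c - 1) * (c - 1)) • (Dᵀ * J * D) := by
    simp only [add_mul, mul_add, Matrix.mul_one, Matrix.one_mul, Matrix.smul_mul, Matrix.mul_smul,
      smul_smul, smul_add]
    abel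
  unfold dd
  rw [Matrix.transpose_add, Matrix.transpose_one, Matrix.transpose_smul, h5, h2, h4, smul_zero,
    add_zero, sub_smul, one_smul]
  abel

theorem dd_mul {D : Matrix (Fin N) (Fin N) R} (h1 : D * D = D) (c c' : R) :
    dd D c * dd D c' = dd D (c * c') := by
  have h5 : (1 + (c - 1) • D) * (1 + (c' - 1) • D) =
      1 + ((c - 1) + (c' - 1)) • D + ((c - 1) * (c' - 1)) • (D * D) := by
    rw [add_mul, Matrix.one_mul, Matrix.smul_mul, mul_add, Matrix.mul_one, Matrix.mul_smul, smul_add,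
      smul_smul, add_smul]
    abel
  unfold dd
  rw [h5, h1, add_assoc, ← add_smul]
  congr 2
  ring

theorem dd_one {D : Matrix (Fin N) (Fin N) R} : dd D 1 = 1 := by
  unfold dd
  rw [sub_self, zero_smul, add_zero]

theorem dd_inv {D : Matrix (Fin N) (Fin N) R} (h1 : D * D = D) {c : R} (hc : c ≠ 0) :
    (dd D c)⁻¹ = dd D c⁻¹ := by
  apply Matrix.inv_eq_right_inv
  rw [dd_mul h1, mul_inv_cancel₀ hc, dd_one]

theorem dd_det {D : Matrix (Fin N) (Fin N) R} (h1 : D * D = D) {c : R} (hc : c ≠ 0) :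
    (dd D c).det ≠ 0 := by
  intro h
  have h2 := congrArg Matrix.det (dd_mul h1 c c⁻¹)
  rw [mul_inv_cancel₀ hc, dd_one, Matrix.det_mul, h, zero_mul, Matrix.det_one] at h2
  exact zero_ne_one h2

end sim

variable {κ : Type} [Fintype κ] [DecidableEq κ] {N : ℕ}

/-- the equations of the product group -/
def PS (o : κ) (J : Matrix (Fin N) (Fin N) ℚ) : Set (MvPolynomial ((κ ⊕ Fin N) × (κ ⊕ Fin N)) ℚ) :=
  {f | (∃ a b, f = XM (κ ⊕ Fin N) (Sum.inl a) (Sum.inr b)) ∨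
    (∃ a b, f = XM (κ ⊕ Fin N) (Sum.inr a) (Sum.inl b)) ∨
    (∃ i, i ≠ o ∧ f = XM (κ ⊕ Fin N) (Sum.inl o) (Sum.inl i)) ∨
    (∃ a b, f = ((XM (κ ⊕ Fin N)).toBlocks₂₂ᵀ * J.map C * (XM (κ ⊕ Fin N)).toBlocks₂₂ -
      XM (κ ⊕ Fin N) (Sum.inl o) (Sum.inl o) • J.map C : Matrix (Fin N) (Fin N) _) a b)}

theorem PS_iff {R : Type} [Field R] [Algebra ℚ R] {o : κ} {J : Matrix (Fin N) (Fin N) ℚ}
    (g : Matrix (κ ⊕ Fin N) (κ ⊕ Fin N) R) :
    (∀ f ∈ PS o J, vQ g f = 0) ↔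
      g = fromBlocks g.toBlocks₁₁ 0 0 g.toBlocks₂₂ ∧ Row o g.toBlocks₁₁ ∧
      g.toBlocks₂₂ᵀ * J.map (algebraMap ℚ R) * g.toBlocks₂₂ =
        g.toBlocks₁₁ o o • J.map (algebraMap ℚ R) := by
  obtain ⟨φ, hφ⟩ : ∃ φ : MvPolynomial ((κ ⊕ Fin N) × (κ ⊕ Fin N)) ℚ →ₐ[ℚ] R,
    φ = aeval fun q : (κ ⊕ Fin N) × (κ ⊕ Fin N) => g q.1 q.2 := ⟨_, rfl⟩
  have hv : ∀ f, vQ g f = φ f := fun f => by rw [hφ]; rfl
  have hX : ∀ i j, φ (XM (κ ⊕ Fin N) i j) = g i j := by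
    intro i j
    rw [hφ]
    simp [XM]
  have hX2 : ((XM (κ ⊕ Fin N)).toBlocks₂₂).map (φ : _ →+* R) = g.toBlocks₂₂ := by
    ext i j
    exact hX _ _
  have hC : (J.map (C : ℚ →+* MvPolynomial ((κ ⊕ Fin N) × (κ ⊕ Fin N)) ℚ)).map (φ : _ →+* R) =
      J.map (algebraMap ℚ R) := by
    ext i j
    exact φ.commutes (J i j)
  have h3 : ∀ a b, φ (((XM (κ ⊕ Fin N)).toBlocks₂₂ᵀ * J.map C * (XM (κ ⊕ Fin N)).toBlocks₂₂ -
      XM (κ ⊕ Fin N) (Sum.inl o) (Sum.inl o) • J.map C : Matrix (Fin N) (Fin N) _) a b) =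
      (g.toBlocks₂₂ᵀ * J.map (algebraMap ℚ R) * g.toBlocks₂₂ -
        g.toBlocks₁₁ o o • J.map (algebraMap ℚ R)) a b := by
    intro a b
    have h5 : (XM (κ ⊕ Fin N) (Sum.inl o) (Sum.inl o) •
        J.map (C : ℚ →+* MvPolynomial ((κ ⊕ Fin N) × (κ ⊕ Fin N)) ℚ)).map (φ : _ →+* R) =
        g.toBlocks₁₁ o o • J.map (algebraMap ℚ R) := by
      ext i j
      simp only [Matrix.map_apply, Matrix.smul_apply, smul_eq_mul]
      have h6 : (φ : _ →+* R) (XM (κ ⊕ Fin N) (Sum.inl o) (Sum.inl o) * C (J i j)) =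
        φ (XM (κ ⊕ Fin N) (Sum.inl o) (Sum.inl o)) * φ (C (J i j)) := map_mul φ _ _
      rw [h6, hX]
      congr 1
      exact φ.commutes (J i j)
    have h4 : (((XM (κ ⊕ Fin N)).toBlocks₂₂ᵀ * J.map C * (XM (κ ⊕ Fin N)).toBlocks₂₂ -
      XM (κ ⊕ Fin N) (Sum.inl o) (Sum.inl o) • J.map C : Matrix (Fin N) (Fin N) _)).map
        (φ : _ →+* R) =
      g.toBlocks₂₂ᵀ * J.map (algebraMap ℚ R) * g.toBlocks₂₂ -
        g.toBlocks₁₁ o o • J.map (algebraMap ℚ R) := by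
      rw [Matrix.map_sub _ (map_sub _), Matrix.map_mul, Matrix.map_mul, Matrix.transpose_map, hX2,
        hC, h5]
    exact congrFun (congrFun h4 a) b
  simp only [hv]
  constructor
  · intro h
    refine ⟨?_, ?_, ?_⟩
    · ext x y
      rcases x with x | x <;> rcases y with y | y
      · rfl
      · rw [← hX]
        exact h _ (Or.inl ⟨x, y, rfl⟩)
      · rw [← hX]
        exact h _ (Or.inr (Or.inl ⟨x, y, rfl⟩))
      · rfl
    · intro i hi
      show g (Sum.inl o) (Sum.inl i) = 0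
      rw [← hX]
      exact h _ (Or.inr (Or.inr (Or.inl ⟨i, hi, rfl⟩)))
    · rw [← sub_eq_zero]
      ext a b
      rw [← h3]
      exact h _ (Or.inr (Or.inr (Or.inr ⟨a, b, rfl⟩)))
  · rintro ⟨h, h1, h2⟩ f hf
    rcases hf with ⟨a, b, rfl⟩ | ⟨a, b, rfl⟩ | ⟨i, hi, rfl⟩ | ⟨a, b, rfl⟩
    · rw [hX, h]
      rfl
    · rw [hX, h]
      rfl
    · rw [hX]
      exact h1 i hi
    · rw [h3, h2, sub_self]
      rfl

/-- the product group -/
theorem prod_QGroup {o : κ} {J : Matrix (Fin N) (Fin N) ℚ} (hJ : (cm J).det ≠ 0)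
    {G : Set (Matrix κ κ ℂ)} (hG : IsQGroup G) :
    IsQGroup {g : Matrix (κ ⊕ Fin N) (κ ⊕ Fin N) ℂ |
      ∃ v t, g = fromBlocks v 0 0 t ∧ v ∈ G ∧ Row o v ∧ tᵀ * cm J * t = v o o • cm J} := by
  obtain ⟨⟨P, hP⟩, h1, h2, h3⟩ := hG
  have hdet : ∀ v ∈ G, v.det ≠ 0 := fun v hv => ((hP v).1 hv).1
  have htd : ∀ v ∈ G, Row o v → ∀ t : Matrix (Fin N) (Fin N) ℂ, tᵀ * cm J * t = v o o • cm J →
      t.det ≠ 0 := fun v hv hr t ht => sim_det hJ (row_ne hr (hdet v hv)) ht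
  refine ⟨⟨PS o J ∪ up '' P, fun g => ⟨?_, ?_⟩⟩, ?_, ?_, ?_⟩
  · rintro ⟨v, t, rfl, hv, hr, ht⟩
    refine ⟨?_, ?_⟩
    · rw [fb_det]
      exact mul_ne_zero (hdet v hv) (htd v hv hr t ht)
    · rintro f (hf | ⟨f, hf, rfl⟩)
      · refine (PS_iff (o := o) (J := J) _).2 ⟨?_, ?_, ?_⟩ f hf
        · rw [Matrix.toBlocks_fromBlocks₁₁, Matrix.toBlocks_fromBlocks₂₂]
        · rw [Matrix.toBlocks_fromBlocks₁₁]
          exact hr
        · rw [Matrix.toBlocks_fromBlocks₂₂, Matrix.toBlocks_fromBlocks₁₁]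
          exact ht
      · rw [vQ_up, Matrix.toBlocks_fromBlocks₁₁]
        exact ((hP v).1 hv).2 f hf
  · rintro ⟨hd, hf⟩
    obtain ⟨h4, h5, h6⟩ := (PS_iff (o := o) (J := J) g).1 fun f hf' => hf f (Or.inl hf')
    refine ⟨g.toBlocks₁₁, g.toBlocks₂₂, h4, ?_, h5, h6⟩
    rw [hP]
    refine ⟨?_, fun f hf' => ?_⟩
    · intro h6
      apply hd
      rw [h4, fb_det, h6, zero_mul]
    · rw [← vQ_up]
      exact hf _ (Or.inr ⟨f, hf', rfl⟩)
  · exact ⟨1, 1, Matrix.fromBlocks_one.symm, h1, Row_one, by simp⟩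
  · rintro _ ⟨v, t, rfl, hv, hr, ht⟩ _ ⟨v', t', rfl, hv', hr', ht'⟩
    refine ⟨v * v', t * t', fb_mul _ _ _ _, h2 v hv v' hv', Row_mul hr hr', ?_⟩
    rw [sim_mul ht ht', row_mul_apply hr]
  · rintro _ ⟨v, t, rfl, hv, hr, ht⟩
    obtain ⟨hri, hoi⟩ := row_inv hr (hdet v hv)
    refine ⟨v⁻¹, t⁻¹, fb_inv (hdet v hv) (htd v hv hr t ht), h3 v hv, hri, ?_⟩
    rw [sim_inv (htd v hv hr t ht) (row_ne hr (hdet v hv)) ht, hoi]

/-- restriction of a polynomial to the matrices `diag(v, d(v_oo))` -/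
noncomputable def dn' (o : κ) (D : Matrix (Fin N) (Fin N) ℚ)
    (f : MvPolynomial ((κ ⊕ Fin N) × (κ ⊕ Fin N)) ℚ) : MvPolynomial (κ × κ) ℚ :=
  aeval (fun q : (κ ⊕ Fin N) × (κ ⊕ Fin N) =>
    (fromBlocks (XM κ) 0 0 (1 + (XM κ o o - 1) • D.map C) :
      Matrix (κ ⊕ Fin N) (κ ⊕ Fin N) (MvPolynomial (κ × κ) ℚ)) q.1 q.2) f

theorem vQ_dn' (o : κ) (D : Matrix (Fin N) (Fin N) ℚ) (v : Matrix κ κ ℂ)
    (f : MvPolynomial ((κ ⊕ Fin N) × (κ ⊕ Fin N)) ℚ) :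
    vQ v (dn' o D f) = vQ (fromBlocks v 0 0 (dd (cm D) (v o o))) f := by
  unfold vQ dn'
  have h : (aeval fun q : κ × κ => v q.1 q.2).comp
      (aeval fun q : (κ ⊕ Fin N) × (κ ⊕ Fin N) =>
      (fromBlocks (XM κ) 0 0 (1 + (XM κ o o - 1) • D.map C) :
        Matrix (κ ⊕ Fin N) (κ ⊕ Fin N) (MvPolynomial (κ × κ) ℚ)) q.1 q.2) =
      (aeval (fun q : (κ ⊕ Fin N) × (κ ⊕ Fin N) =>
        (fromBlocks v 0 0 (dd (cm D) (v o o))) q.1 q.2) :
        MvPolynomial ((κ ⊕ Fin N) × (κ ⊕ Fin N)) ℚ →ₐ[ℚ] ℂ) := by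
    refine MvPolynomial.algHom_ext fun p => ?_
    rw [AlgHom.comp_apply, aeval_X, aeval_X]
    obtain ⟨x, y⟩ := p
    rcases x with x | x <;> rcases y with y | y
    · simp [XM]
    · simp
    · simp
    · simp only [Matrix.fromBlocks_apply₂₂, dd, Matrix.add_apply, Matrix.smul_apply,
        Matrix.map_apply, Matrix.one_apply, smul_eq_mul, map_add, map_mul, map_sub, map_one]
      rw [aeval_C]
      have h1 : (aeval fun q : κ × κ => v q.1 q.2) (XM κ o o) = v o o := by simp [XM]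
      rw [h1]
      split_ifs <;> simp
  exact congrArg (fun F : MvPolynomial ((κ ⊕ Fin N) × (κ ⊕ Fin N)) ℚ →ₐ[ℚ] ℂ => F f) h

/-- the matrices `v` in `G` with `diag(v, d(v_oo))` in an algebraic group -/
theorem slice_QGroup {o : κ} {D : Matrix (Fin N) (Fin N) ℚ} (hD : cm D * cm D = cm D)
    {G : Set (Matrix (κ ⊕ Fin N) (κ ⊕ Fin N) ℂ)} (hG : IsQGroup G) :
    IsQGroup {v : Matrix κ κ ℂ | v.det ≠ 0 ∧ Row o v ∧ fromBlocks v 0 0 (dd (cm D) (v o o)) ∈ G} := by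
  obtain ⟨⟨P, hP⟩, h1, h2, h3⟩ := hG
  refine ⟨⟨{f | ∃ i, i ≠ o ∧ f = XM κ o i} ∪ dn' o D '' P, fun v => ?_⟩, ?_, ?_, ?_⟩
  · show (v.det ≠ 0 ∧ Row o v ∧ fromBlocks v 0 0 (dd (cm D) (v o o)) ∈ G) ↔ _
    refine and_congr_right fun hvd => ?_
    constructor
    · rintro ⟨hr, hv⟩ f (⟨i, hi, rfl⟩ | ⟨f, hf, rfl⟩)
      · have h4 : vQ v (XM κ o i) = v o i := by simp [XM, vQ]
        rw [h4]
        exact hr i hi
      · rw [vQ_dn']
        exact ((hP _).1 hv).2 f hf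
    · intro h
      have hr : Row o v := by
        intro i hi
        have h4 : vQ v (XM κ o i) = v o i := by simp [XM, vQ]
        rw [← h4]
        exact h _ (Or.inl ⟨i, hi, rfl⟩)
      refine ⟨hr, ?_⟩
      rw [hP]
      refine ⟨?_, fun f hf => ?_⟩
      · rw [fb_det]
        exact mul_ne_zero hvd (dd_det hD (row_ne hr hvd))
      · rw [← vQ_dn']
        exact h _ (Or.inr ⟨f, hf, rfl⟩)
  · refine ⟨by simp, Row_one, ?_⟩
    rw [Matrix.one_apply_eq, dd_one, Matrix.fromBlocks_one]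
    exact h1
  · rintro v ⟨hvd, hr, hv⟩ v' ⟨hvd', hr', hv'⟩
    refine ⟨by rw [Matrix.det_mul]; exact mul_ne_zero hvd hvd', Row_mul hr hr', ?_⟩
    have h4 := h2 _ hv _ hv'
    rwa [fb_mul, dd_mul hD, ← row_mul_apply hr] at h4
  · rintro v ⟨hvd, hr, hv⟩
    obtain ⟨hri, hoi⟩ := row_inv hr hvd
    refine ⟨?_, hri, ?_⟩
    · rw [Matrix.det_nonsing_inv, Ring.inverse_eq_inv']
      exact inv_ne_zero hvd
    · have h4 := h3 _ hv
      rwa [fb_inv hvd (dd_det hD (row_ne hr hvd)), dd_inv hD (row_ne hr hvd), ← hoi] at h4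

section main

variable {h : ℂ → Matrix κ κ ℂ} {w : ℕ} {V : PHS N w} {o : κ}

theorem hS_det (hh : ∀ z, z ≠ 0 → (h z).det ≠ 0) (z : ℂ) (hz : z ≠ 0) : (hSum h V z).det ≠ 0 := by
  unfold hSum
  rw [fb_det]
  exact mul_ne_zero (hh z hz) (H.h_det V hz)

theorem cmJ_det (V : PHS N w) : (cm V.J).det ≠ 0 := by
  have h2 := (algebraMap ℚ ℂ).map_det V.J
  rw [RingHom.mapMatrix_apply] at h2
  rw [← h2]
  exact (map_ne_zero _).2 (H.J_det V)

theorem MT_le (hh : ∀ z, z ≠ 0 → (h z).det ≠ 0) (ho : TateAt h w o)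
    {g : Matrix (κ ⊕ Fin N) (κ ⊕ Fin N) ℂ} (hg : g ∈ MTgroup (hSum h V)) :
    ∃ v t, g = fromBlocks v 0 0 t ∧ v ∈ MTgroup h ∧ Row o v ∧
      tᵀ * cm V.J * t = v o o • cm V.J := by
  refine hg _ (prod_QGroup (o := o) (cmJ_det V) (MT_QGroup hh)) fun z hz => ?_
  refine ⟨h z, V.h z, rfl, MT_h hz, (ho z hz).2, ?_⟩
  rw [H.h_sim V hz, (ho z hz).1]

theorem Sp_MT (hTRV : S_TRV) (hUNI : S_UNI) (hh : ∀ z, z ≠ 0 → (h z).det ≠ 0)
    (hL : ∀ Z, Zᵀ * cm V.J + cm V.J * Z = 0 → fromBlocks 0 0 0 Z ∈ LS (SH (hSum h V)))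
    {s : Matrix (Fin N) (Fin N) ℂ} (hs : sᵀ * cm V.J * s = cm V.J) :
    fromBlocks 1 0 0 s ∈ MTgroup (hSum h V) := by
  have hsd : s.det ≠ 0 := sim_det (c := 1) (cmJ_det V) one_ne_zero (by rw [hs, one_smul])
  refine MT_of_St ?_ ?_
  · rw [fb_det, Matrix.det_one, one_mul]
    exact hsd
  · let M : Submonoid (Matrix (Fin N) (Fin N) ℂ) :=
      { carrier := {s | fromBlocks 1 0 0 s ∈ St (SH (hSum h V))}
        one_mem' := by
          show fromBlocks 1 0 0 1 ∈ St (SH (hSum h V))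
          rw [Matrix.fromBlocks_one]
          exact (St (SH (hSum h V))).one_mem
        mul_mem' := by
          intro a b ha hb
          show fromBlocks 1 0 0 (a * b) ∈ St (SH (hSum h V))
          have h1 := (St (SH (hSum h V))).mul_mem ha hb
          rwa [fb_mul, mul_one] at h1 }
    have h1 : s ∈ M := by
      refine hTRV ℂ N (cm V.J) (H.cm_alt V) (cmJ_det V) M (fun v c => ?_) s hs
      show fromBlocks 1 0 0 (1 + c • vecMulVec v (v ᵥ* cm V.J)) ∈ St (SH (hSum h V))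
      have h2 : (fromBlocks 1 0 0 (1 + c • vecMulVec v (v ᵥ* cm V.J)) :
          Matrix (κ ⊕ Fin N) (κ ⊕ Fin N) ℂ) =
          1 + fromBlocks 0 0 0 (c • vecMulVec v (v ᵥ* cm V.J)) := by
        rw [← Matrix.fromBlocks_one, Matrix.fromBlocks_add]
        simp
      rw [h2]
      refine hUNI ℂ (κ ⊕ Fin N) (SH (hSum h V)) _ (hL _ ?_) ?_
      · rw [Matrix.transpose_smul, Matrix.transpose_vecMulVec, Matrix.smul_mul, Matrix.mul_smul,
          Matrix.vecMulVec_mul, Matrix.mul_vecMulVec, H.mulVec_J, ← smul_add]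
        have : vecMulVec (v ᵥ* cm V.J) (v ᵥ* cm V.J) +
            vecMulVec (-(v ᵥ* cm V.J)) (v ᵥ* cm V.J) = 0 := by
          ext i j
          simp [Matrix.vecMulVec_apply]
        rw [this, smul_zero]
      · rw [fb_mul, Matrix.smul_mul, Matrix.mul_smul, Matrix.vecMulVec_mul_vecMulVec, H.dot_J]
        simp
    exact h1

theorem MT_eq (hTRV : S_TRV) (hUNI : S_UNI) (hLAG : S_LAG) (hh : ∀ z, z ≠ 0 → (h z).det ≠ 0)
    (ho : TateAt h w o)
    (hL : ∀ Z, Zᵀ * cm V.J + cm V.J * Z = 0 → fromBlocks 0 0 0 Z ∈ LS (SH (hSum h V)))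
    {v : Matrix κ κ ℂ} {t : Matrix (Fin N) (Fin N) ℂ} (hv : v ∈ MTgroup h)
    (ht : tᵀ * cm V.J * t = v o o • cm V.J) : fromBlocks v 0 0 t ∈ MTgroup (hSum h V) := by
  obtain ⟨D, hD1, hD2⟩ := hLAG ℚ N V.J V.alt (H.J_det V)
  have hD1' : cm D * cm D = cm D := by
    rw [← Matrix.map_mul, hD1]
  have hD2' : (cm D)ᵀ * cm V.J + cm V.J * cm D = cm V.J := by
    rw [← Matrix.transpose_map, ← Matrix.map_mul, ← Matrix.map_mul,
      ← Matrix.map_add _ (map_add _), hD2]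
  obtain ⟨hvd, hr, hvs⟩ : v.det ≠ 0 ∧ Row o v ∧
      fromBlocks v 0 0 (dd (cm D) (v o o)) ∈ MTgroup (hSum h V) := by
    refine hv _ (slice_QGroup (o := o) hD1' (MT_QGroup (hS_det (V := V) hh))) fun z hz => ?_
    refine ⟨hh z hz, (ho z hz).2, ?_⟩
    have hc : h z o o ≠ 0 := row_ne (ho z hz).2 (hh z hz)
    have h1 : (V.h z)ᵀ * cm V.J * V.h z = h z o o • cm V.J := by
      rw [H.h_sim V hz, (ho z hz).1]
    have h2 : ((V.h z)⁻¹ * dd (cm D) (h z o o))ᵀ * cm V.J * ((V.h z)⁻¹ * dd (cm D) (h z o o)) =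
        cm V.J := by
      rw [sim_mul (sim_inv (H.h_det V hz) hc h1) (dd_sim hD1' hD2' _), inv_mul_cancel₀ hc, one_smul]
    have h3 := MT_mul (MT_h (h := hSum h V) hz) (Sp_MT hTRV hUNI hh hL h2)
    unfold hSum at h3 ⊢
    rwa [fb_mul, mul_one, ← Matrix.mul_assoc, Matrix.mul_nonsing_inv _
      (isUnit_iff_ne_zero.2 (H.h_det V hz)), one_mul] at h3
  have hc : v o o ≠ 0 := row_ne hr hvd
  have h2 : ((dd (cm D) (v o o))⁻¹ * t)ᵀ * cm V.J * ((dd (cm D) (v o o))⁻¹ * t) = cm V.J := by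
    rw [sim_mul (sim_inv (dd_det hD1' hc) hc (dd_sim hD1' hD2' _)) ht, inv_mul_cancel₀ hc, one_smul]
  have h3 := MT_mul hvs (Sp_MT hTRV hUNI hh hL h2)
  rwa [fb_mul, mul_one, ← Matrix.mul_assoc, Matrix.mul_nonsing_inv _
    (isUnit_iff_ne_zero.2 (dd_det hD1' hc)), one_mul] at h3

end main

end I

open I

/-- **MTI.** -/
theorem t_MTI (hTRV : S_TRV) (hUNI : S_UNI) (hLAG : S_LAG) : S_MTI := by
  intro κ _ _ h hh N w V o ho hL R _ _ e G hG
  constructor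
  · intro hM
    obtain ⟨h1, h2, h3⟩ := (PS_iff (o := o) (J := V.J) G).1 fun f hf => hM f fun m hm => by
      obtain ⟨v, t, rfl, hv, hr, ht⟩ := MT_le hh ho hm
      refine (PS_iff (o := o) (J := V.J) _).2 ⟨?_, ?_, ?_⟩ f hf
      · rw [Matrix.toBlocks_fromBlocks₁₁, Matrix.toBlocks_fromBlocks₂₂]
      · rw [Matrix.toBlocks_fromBlocks₁₁]
        exact hr
      · rw [Matrix.toBlocks_fromBlocks₂₂, Matrix.toBlocks_fromBlocks₁₁]
        exact ht
    refine ⟨h1, fun f hf => ?_, h3⟩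
    rw [← vQ_up]
    refine hM _ fun m hm => ?_
    obtain ⟨v, t, rfl, hv, hr, ht⟩ := MT_le hh ho hm
    rw [vQ_up, Matrix.toBlocks_fromBlocks₁₁]
    exact hf v hv
  · rintro ⟨h1, h2, h3⟩ f hf
    have h4 : (G.toBlocks₁₁.map e) ∈ MTgroup h := by
      refine MT_of_InMT ?_ fun f hf => ?_
      · have h5 := e.map_det G.toBlocks₁₁
        rw [RingHom.mapMatrix_apply] at h5
        rw [← h5]
        refine (map_ne_zero e).2 fun h6 => hG ?_
        rw [h1, fb_det, h6, zero_mul]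
      · rw [vQ_map, h2 f hf, map_zero]
    have h6 : (G.toBlocks₂₂.map e)ᵀ * cm V.J * G.toBlocks₂₂.map e =
        (G.toBlocks₁₁.map e) o o • cm V.J := by
      have h7 := congrArg (fun M : Matrix (Fin N) (Fin N) R => M.map e) h3
      have h8 : (V.J.map (algebraMap ℚ R)).map e = cm V.J := by
        ext i j
        simp [Matrix.map_apply]
      simp only [Matrix.map_mul, h8] at h7
      rw [← Matrix.transpose_map, h7]
      ext i j
      simp [Matrix.map_apply]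
    have h5 := hf _ (MT_eq hTRV hUNI hLAG hh ho hL h4 h6)
    rw [← fb_map, ← h1, vQ_map] at h5
    exact (map_eq_zero e).1 h5

end Pool.Agent.T2h63.MT
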