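import Mathlib
import Pool.Agent.T2h63.MT.Stm
import Pool.Agent.Y95.MT.Main

/-!
# MTX: the conjugates of the Hodge operator belong to the Lie algebra of the Mumford-Tate group
-/

set_option autoImplicit false

namespace Pool.Agent.T2h63.MT

open Pool.Agent.Y95.MT

variable {N w : ℕ}

/-- the eigenvalues -/
def Fw (w : ℕ) : Finset ℤ := (Finset.range (w + 1)).image fun p : ℕ => 2 * (p : ℤ) - w

/-- the projections -/
noncomputable def PHS.Ek (V : PHS N w) (k : ℤ) : Matrix (Fin N) (Fin N) ℂ :=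
  V.e ((k + w) / 2).toNat

theorem Ek_eq (V : PHS N w) (p : ℕ) : V.Ek (2 * (p : ℤ) - w) = V.e p := by
  unfold PHS.Ek
  congr 1
  omega

theorem sum_Fw {M : Type} [AddCommMonoid M] (f : ℤ → M) :
    ∑ k ∈ Fw w, f k = ∑ p ∈ Finset.range (w + 1), f (2 * (p : ℤ) - w) := by
  unfold Fw
  rw [Finset.sum_image]
  intro a _ b _ h
  have h' : 2 * (a : ℤ) - w = 2 * (b : ℤ) - w := h
  omega

theorem GrX (V : PHS N w) : Gr (Fw w) V.Ek := by
  constructor
  · intro a ha b hb
    obtain ⟨p, hp, rfl⟩ := Finset.mem_image.1 ha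
    obtain ⟨q, hq, rfl⟩ := Finset.mem_image.1 hb
    rw [Finset.mem_range] at hp hq
    rw [Ek_eq, Ek_eq, V.mul p (by omega) q (by omega)]
    by_cases hpq : p = q
    · subst hpq
      rw [if_pos rfl, if_pos rfl]
    · rw [if_neg hpq, if_neg]
      intro h
      exact hpq (by omega)
  · rw [sum_Fw]
    simp only [Ek_eq]
    exact V.sum

theorem drX (V : PHS N w) : dr (Fw w) V.Ek = V.X := by
  unfold dr PHS.X
  rw [sum_Fw]
  simp only [Ek_eq]

theorem pwX (V : PHS N w) {z : ℂ} (hz : z * starRingEnd ℂ z = 1) :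
    pw (Fw w) V.Ek (starRingEnd ℂ z) = V.h z := by
  have hz0 : z ≠ 0 := left_ne_zero_of_mul_eq_one hz
  have hzc : starRingEnd ℂ z = z⁻¹ := eq_inv_of_mul_eq_one_right hz
  unfold pw PHS.h
  rw [sum_Fw]
  simp only [Ek_eq]
  refine Finset.sum_congr rfl fun p _ => ?_
  congr 1
  rw [hzc, _root_.inv_zpow', _root_.inv_zpow', ← zpow_add₀ hz0]
  congr 1
  ring

theorem X_mem_LS (V : PHS N w) : V.X ∈ LS (SH V.h) := by
  rw [← drX]
  refine dr_mem_LS (GrX V) fun f hf => infinite_ratio.mono ?_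
  rintro t ⟨ht, u, hu, rfl⟩
  refine ⟨ht, ?_⟩
  have hu' : starRingEnd ℂ u ≠ 0 := (map_ne_zero _).2 hu
  have h2 : starRingEnd ℂ u / u = starRingEnd ℂ (u / starRingEnd ℂ u) := by
    rw [map_div₀, Complex.conj_conj]
  have h3 : (u / starRingEnd ℂ u) * starRingEnd ℂ (u / starRingEnd ℂ u) = 1 := by
    rw [← h2]
    field_simp
  rw [h2, pwX V h3]
  refine MT_St (MT_h ?_) f hf
  exact div_ne_zero hu hu'

/-- **MTX.** -/
theorem t_MTX : S_MTX := by
  intro N w V σ
  exact LS_map (X_mem_LS V) σ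

end Pool.Agent.T2h63.MT
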