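import Pool.Agent.T2h63.MT.Stm2
import Pool.Agent.T2h63.MT.MTX
import Pool.Agent.T2h63.MT.LIE

/-!
# MTS: the Lie algebra of the Mumford-Tate group of the sum contains `0 × sp(V)`
-/

set_option autoImplicit false
set_option linter.unusedSectionVars false

open Matrix MvPolynomial

namespace Pool.Agent.T2h63.MT

open Pool.Agent.Y95.MT

namespace MTSp

variable {κ : Type} [Fintype κ] [DecidableEq κ] {N w : ℕ}

/-! ### The operator of the sum -/

/-- the projections of the second summand -/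
noncomputable def EkS (V : PHS N w) (k : ℤ) : Matrix (Fin N) (Fin N) ℂ :=
  if k ∈ Fw w then V.Ek k else 0

/-- the eigenvalues of the sum -/
def FS (V' : RHS κ) (w : ℕ) : Finset ℤ := V'.types.image (fun a => a.1 - a.2) ∪ Fw w

/-- the projections of the sum -/
noncomputable def ES (V' : RHS κ) (V : PHS N w) (k : ℤ) : Matrix (κ ⊕ Fin N) (κ ⊕ Fin N) ℂ :=
  dg (∑ a ∈ V'.types with a.1 - a.2 = k, V'.e a) (EkS V k)

theorem sum_ES (V' : RHS κ) (V : PHS N w) (f : ℤ → ℂ) :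
    ∑ k ∈ FS V' w, f k • ES V' V k =
      dg (∑ a ∈ V'.types, f (a.1 - a.2) • V'.e a) (∑ k ∈ Fw w, f k • V.Ek k) := by
  unfold ES
  simp only [dg_smul]
  rw [dg_sum]
  congr 1
  · have h1 : ∀ k, f k • ∑ a ∈ V'.types with a.1 - a.2 = k, V'.e a =
        ∑ a ∈ V'.types with a.1 - a.2 = k, f (a.1 - a.2) • V'.e a := by
      intro k
      rw [Finset.smul_sum]
      refine Finset.sum_congr rfl fun a ha => ?_
      rw [(Finset.mem_filter.1 ha).2]
    simp only [h1]
    refine Finset.sum_fiberwise_of_maps_to (s := V'.types) (t := FS V' w)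
      (g := fun a => a.1 - a.2) ?_ (fun a => f (a.1 - a.2) • V'.e a)
    intro a ha
    exact Finset.mem_union_left _ (Finset.mem_image_of_mem _ ha)
  · symm
    have h2 : ∀ k ∈ Fw w, f k • V.Ek k = f k • EkS V k := by
      intro k hk
      rw [EkS, if_pos hk]
    rw [Finset.sum_congr rfl h2]
    refine Finset.sum_subset Finset.subset_union_right fun k _ hk => ?_
    rw [EkS, if_neg hk, smul_zero]

theorem GrS (V' : RHS κ) (V : PHS N w) : Gr (FS V' w) (ES V' V) := by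
  have hg := GrX V
  constructor
  · intro k _ l _
    unfold ES
    rw [dg_mul, eV_mul]
    have h1 : EkS V k * EkS V l = if k = l then EkS V k else 0 := by
      unfold EkS
      by_cases hk : k ∈ Fw w
      · by_cases hl : l ∈ Fw w
        · rw [if_pos hk, if_pos hl, hg.mul k hk l hl]
        · rw [if_pos hk, if_neg hl, mul_zero, if_neg]
          rintro rfl
          exact hl hk
      · rw [if_neg hk, zero_mul]
        split_ifs <;> rfl
    rw [h1]
    split_ifs with hkl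
    · rfl
    · exact dg_zero
  · have h1 := sum_ES V' V (fun _ => 1)
    simp only [one_smul] at h1
    rw [h1, V'.sum, hg.sum]
    exact Matrix.fromBlocks_one

theorem drS (V' : RHS κ) (V : PHS N w) : dr (FS V' w) (ES V' V) = dg V'.X V.X := by
  have h1 := sum_ES V' V (fun k => (k : ℂ))
  have h2 := drX V
  unfold dr at h2
  unfold dr
  rw [h1, h2]
  rfl

theorem pwS (V' : RHS κ) (V : PHS N w) {z : ℂ} (hz : z * starRingEnd ℂ z = 1) :
    pw (FS V' w) (ES V' V) (starRingEnd ℂ z) = hSum V'.h V z := by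
  have hz0 : z ≠ 0 := left_ne_zero_of_mul_eq_one hz
  have hzc : starRingEnd ℂ z = z⁻¹ := eq_inv_of_mul_eq_one_right hz
  have h1 := sum_ES V' V (fun k => (starRingEnd ℂ z) ^ k)
  have h2 := pwX V hz
  unfold pw at h2
  unfold pw
  rw [h1, h2]
  unfold dg hSum RHS.h
  congr 1
  refine Finset.sum_congr rfl fun a _ => ?_
  congr 1
  rw [hzc, _root_.inv_zpow', _root_.inv_zpow', ← zpow_add₀ hz0]
  congr 1
  ring

theorem X_mem' (V' : RHS κ) (V : PHS N w) : dg V'.X V.X ∈ LS (SH (hSum V'.h V)) := by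
  rw [← drS]
  refine dr_mem_LS (GrS V' V) fun f hf => infinite_ratio.mono ?_
  rintro t ⟨ht, u, hu, rfl⟩
  refine ⟨ht, ?_⟩
  have hu' : starRingEnd ℂ u ≠ 0 := (map_ne_zero _).2 hu
  have h2 : starRingEnd ℂ u / u = starRingEnd ℂ (u / starRingEnd ℂ u) := by
    rw [map_div₀, Complex.conj_conj]
  have h3 : (u / starRingEnd ℂ u) * starRingEnd ℂ (u / starRingEnd ℂ u) = 1 := by
    rw [← h2]
    field_simp
  rw [h2, pwS V' V h3]
  refine MT_St (MT_h ?_) f hf
  exact div_ne_zero hu hu'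

theorem Xσ_mem (V' : RHS κ) (V : PHS N w) (σ : ℂ ≃+* ℂ) :
    dg (V'.X.map σ) (V.X.map σ) ∈ LS (SH (hSum V'.h V)) := by
  have h1 := LS_map (X_mem' V' V) σ
  have h2 : (dg V'.X V.X).map (σ : ℂ →+* ℂ) = dg (V'.X.map σ) (V.X.map σ) := fb_map _ _ _
  rwa [h2] at h1

/-! ### The first block -/

/-- the block diagonal matrices with first block in an algebraic group -/
theorem fst_QGroup {G : Set (Matrix κ κ ℂ)}
    (hG : IsQGroup G) : IsQGroup {g : Matrix (κ ⊕ Fin N) (κ ⊕ Fin N) ℂ |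
      ∃ v t, g = fromBlocks v 0 0 t ∧ v ∈ G ∧ t.det ≠ 0} := by
  obtain ⟨⟨P, hP⟩, h1, h2, h3⟩ := hG
  have hdet : ∀ v ∈ G, v.det ≠ 0 := fun v hv => ((hP v).1 hv).1
  refine ⟨⟨{f | (∃ a b, f = X (Sum.inl a, Sum.inr b)) ∨ (∃ a b, f = X (Sum.inr a, Sum.inl b))} ∪
    up '' P, fun g => ⟨?_, ?_⟩⟩, ?_, ?_, ?_⟩
  · rintro ⟨v, t, rfl, hv, ht⟩
    refine ⟨?_, ?_⟩
    · rw [fb_det]
      exact mul_ne_zero (hdet v hv) ht
    · rintro f (hf | ⟨f, hf, rfl⟩)
      · rcases hf with ⟨a, b, rfl⟩ | ⟨a, b, rfl⟩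
        · unfold vQ
          rw [aeval_X]
          rfl
        · unfold vQ
          rw [aeval_X]
          rfl
      · rw [vQ_up, Matrix.toBlocks_fromBlocks₁₁]
        exact ((hP v).1 hv).2 f hf
  · rintro ⟨hd, hf⟩
    have h4 : g = fromBlocks g.toBlocks₁₁ 0 0 g.toBlocks₂₂ := by
      ext x y
      rcases x with x | x <;> rcases y with y | y
      · rfl
      · have h5 := hf (X (Sum.inl x, Sum.inr y)) (Or.inl (Or.inl ⟨x, y, rfl⟩))
        unfold vQ at h5
        rw [aeval_X] at h5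
        exact h5
      · have h5 := hf (X (Sum.inr x, Sum.inl y)) (Or.inl (Or.inr ⟨x, y, rfl⟩))
        unfold vQ at h5
        rw [aeval_X] at h5
        exact h5
      · rfl
    have h5 : g.toBlocks₁₁.det * g.toBlocks₂₂.det ≠ 0 := by
      rw [← fb_det, ← h4]
      exact hd
    refine ⟨g.toBlocks₁₁, g.toBlocks₂₂, h4, ?_, right_ne_zero_of_mul h5⟩
    rw [hP]
    refine ⟨left_ne_zero_of_mul h5, fun f hf' => ?_⟩
    rw [← vQ_up]
    exact hf _ (Or.inr ⟨f, hf', rfl⟩)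
  · exact ⟨1, 1, Matrix.fromBlocks_one.symm, h1, by rw [Matrix.det_one]; exact one_ne_zero⟩
  · rintro _ ⟨v, t, rfl, hv, ht⟩ _ ⟨v', t', rfl, hv', ht'⟩
    exact ⟨v * v', t * t', fb_mul _ _ _ _, h2 v hv v' hv', by
      rw [Matrix.det_mul]; exact mul_ne_zero ht ht'⟩
  · rintro _ ⟨v, t, rfl, hv, ht⟩
    refine ⟨v⁻¹, t⁻¹, fb_inv (hdet v hv) ht, h3 v hv, ?_⟩
    rw [Matrix.det_nonsing_inv, Ring.inverse_eq_inv']
    exact inv_ne_zero ht

/-- the operators `V.h z` are invertible -/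
theorem PHS_h_det (V : PHS N w) (z : ℂ) (hz : z ≠ 0) : (V.h z).det ≠ 0 := by
  have hmul : ∀ z w' : ℂ, V.h z * V.h w' = V.h (z * w') := by
    intro z w'
    unfold PHS.h
    rw [Finset.sum_mul]
    refine Finset.sum_congr rfl fun p hp => ?_
    have hp' : p ≤ w := by rw [Finset.mem_range] at hp; omega
    rw [Finset.mul_sum, Finset.sum_eq_single p]
    · rw [smul_mul_smul_comm, V.mul p hp' p hp', if_pos rfl, map_mul, mul_zpow, mul_zpow]
      congr 1
      ring
    · intro q hq hqp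
      have hq' : q ≤ w := by rw [Finset.mem_range] at hq; omega
      rw [smul_mul_smul_comm, V.mul p hp' q hq', if_neg (Ne.symm hqp), smul_zero]
    · intro h
      exact absurd hp h
  have hone : V.h 1 = 1 := by
    unfold PHS.h
    simp [V.sum]
  intro h
  have h1 := congrArg Matrix.det (hmul z z⁻¹)
  rw [mul_inv_cancel₀ hz, hone, Matrix.det_mul, h, zero_mul, Matrix.det_one] at h1
  exact zero_ne_one h1

theorem MT_fst {h : ℂ → Matrix κ κ ℂ} (hh : ∀ z, z ≠ 0 → (h z).det ≠ 0) (V : PHS N w)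
    {g : Matrix (κ ⊕ Fin N) (κ ⊕ Fin N) ℂ} (hg : g ∈ MTgroup (hSum h V)) :
    ∃ v t, g = fromBlocks v 0 0 t ∧ v ∈ MTgroup h ∧ t.det ≠ 0 :=
  hg _ (fst_QGroup (MT_QGroup hh)) fun z hz => ⟨h z, V.h z, rfl, MT_h hz, PHS_h_det V z hz⟩

theorem lie_fst {h : ℂ → Matrix κ κ ℂ} (hh : ∀ z, z ≠ 0 → (h z).det ≠ 0) (V : PHS N w)
    {y : Matrix κ κ ℂ} {Z : Matrix (Fin N) (Fin N) ℂ}
    (hy : dg y Z ∈ LS (SH (hSum h V))) : y ∈ lieMT h := by
  intro f hf
  have h1 : toK ℂ (up (n := N) f) ∈ SH (hSum h V) := by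
    intro g hg
    obtain ⟨v, t, rfl, hv, ht⟩ := MT_fst hh V hg
    rw [ev_toK, vQ_up, Matrix.toBlocks_fromBlocks₁₁]
    exact hf v hv
  have h2 := hy _ h1 1 MT_one
  rw [ev_D] at h2
  have h3 : (dg y Z).toBlocks₁₁ = y := Matrix.toBlocks_fromBlocks₁₁ _ _ _ _
  rw [h3] at h2
  exact h2

/-! ### Homogeneous parts -/

/-- A stable subspace contains the homogeneous parts. -/
lemma part_mem' {W : Type*} [AddCommGroup W] [Module ℂ W] (f : W →ₗ[ℂ] W) (G : Submodule ℂ W)
    (hG : ∀ x ∈ G, f x ∈ G) (s : Finset ℤ) :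
    ∀ a : ℤ → W, (∀ j ∈ s, f (a j) = (j : ℂ) • a j) → (∑ j ∈ s, a j) ∈ G →
      ∀ j ∈ s, a j ∈ G := by
  classical
  induction s using Finset.induction_on with
  | empty => intro a _ _ j hj; simp at hj
  | insert i s hi ih =>
    intro a ha hsum j hj
    have h1 : ∀ j ∈ s, ((j : ℂ) - (i : ℂ)) • a j ∈ G := by
      refine ih (fun j => ((j : ℂ) - (i : ℂ)) • a j) ?_ ?_
      · intro j hj
        show f (((j : ℂ) - (i : ℂ)) • a j) = (j : ℂ) • (((j : ℂ) - (i : ℂ)) • a j)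
        rw [map_smul, ha j (Finset.mem_insert_of_mem hj), smul_comm]
      · have h2 : ∑ j ∈ s, ((j : ℂ) - (i : ℂ)) • a j =
            f (∑ j ∈ insert i s, a j) - (i : ℂ) • ∑ j ∈ insert i s, a j := by
          rw [Finset.sum_insert hi, map_add, map_sum, ha i (Finset.mem_insert_self i s),
            Finset.sum_congr rfl fun j hj => ha j (Finset.mem_insert_of_mem hj), smul_add,
            Finset.smul_sum, add_sub_add_left_eq_sub, ← Finset.sum_sub_distrib]
          exact Finset.sum_congr rfl fun j _ => sub_smul _ _ _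
        rw [h2]
        exact G.sub_mem (hG _ hsum) (G.smul_mem _ hsum)
    have h3 : ∀ j ∈ s, a j ∈ G := by
      intro j hj
      have hne : (j : ℂ) - (i : ℂ) ≠ 0 := by
        rw [← Int.cast_sub]
        have : j ≠ i := fun h => hi (h ▸ hj)
        exact_mod_cast (by omega : j - i ≠ 0)
      have h4 := G.smul_mem ((j : ℂ) - (i : ℂ))⁻¹ (h1 j hj)
      rwa [smul_smul, inv_mul_cancel₀ hne, one_smul] at h4
    rcases Finset.mem_insert.1 hj with rfl | hj
    · rw [Finset.sum_insert hi] at hsum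
      exact (G.add_mem_iff_left (Submodule.sum_mem _ h3)).1 hsum
    · exact h3 j hj

lemma RX_e (V' : RHS κ) {a : ℤ × ℤ} (ha : a ∈ V'.types) :
    V'.X * V'.e a = ((a.1 - a.2 : ℤ) : ℂ) • V'.e a := by
  rw [RHS.X, Finset.sum_mul, Finset.sum_eq_single a]
  · rw [Matrix.smul_mul, V'.mul a ha a ha, if_pos rfl]
  · intro b hb hba
    rw [Matrix.smul_mul, V'.mul b hb a ha, if_neg hba, smul_zero]
  · intro h
    exact absurd ha h

lemma Re_X (V' : RHS κ) {a : ℤ × ℤ} (ha : a ∈ V'.types) :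
    V'.e a * V'.X = ((a.1 - a.2 : ℤ) : ℂ) • V'.e a := by
  rw [RHS.X, Finset.mul_sum, Finset.sum_eq_single a]
  · rw [Matrix.mul_smul, V'.mul a ha a ha, if_pos rfl]
  · intro b hb hba
    rw [Matrix.mul_smul, V'.mul a ha b hb, if_neg (Ne.symm hba), smul_zero]
  · intro h
    exact absurd ha h

/-- The difference of the degrees. -/
def df (x : (ℤ × ℤ) × (ℤ × ℤ)) : ℤ := (x.1.1 - x.1.2) - (x.2.1 - x.2.2)

/-- The part of degree `m` of a matrix. -/
noncomputable def prt (V' : RHS κ) (A : Matrix κ κ ℂ) (m : ℤ) : Matrix κ κ ℂ :=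
  ∑ x ∈ (V'.types ×ˢ V'.types).filter (fun x => df x = m), V'.e x.1 * A * V'.e x.2

lemma prt_deg (V' : RHS κ) (A : Matrix κ κ ℂ) (m : ℤ) :
    V'.X * prt V' A m - prt V' A m * V'.X = (m : ℂ) • prt V' A m := by
  rw [prt, Finset.mul_sum, Finset.sum_mul, ← Finset.sum_sub_distrib, Finset.smul_sum]
  refine Finset.sum_congr rfl fun x hx => ?_
  obtain ⟨h1, h2⟩ := Finset.mem_filter.1 hx
  rw [Finset.mem_product] at h1
  rw [← mul_assoc, ← mul_assoc, RX_e V' h1.1, mul_assoc (V'.e x.1 * A), Re_X V' h1.2,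
    Matrix.smul_mul, Matrix.smul_mul, Matrix.mul_smul, ← sub_smul]
  congr 1
  rw [← h2, df]
  push_cast
  ring

lemma sum_prt (V' : RHS κ) (A : Matrix κ κ ℂ) (s : Finset ℤ)
    (hs : (V'.types ×ˢ V'.types).image df ⊆ s) : ∑ m ∈ s, prt V' A m = A := by
  have h1 : ∑ m ∈ s, prt V' A m = ∑ x ∈ V'.types ×ˢ V'.types, V'.e x.1 * A * V'.e x.2 := by
    unfold prt
    refine Finset.sum_fiberwise_of_maps_to (g := df) ?_ _
    intro x hx
    exact hs (Finset.mem_image_of_mem _ hx)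
  rw [h1, Finset.sum_product]
  calc ∑ x ∈ V'.types, ∑ y ∈ V'.types, V'.e x * A * V'.e y
      = (∑ x ∈ V'.types, V'.e x) * A * ∑ y ∈ V'.types, V'.e y := by
        rw [Finset.sum_mul, Finset.sum_mul]
        exact Finset.sum_congr rfl fun x _ => (Finset.mul_sum _ _ _).symm
    _ = A := by rw [V'.sum, one_mul, mul_one]

/-- the homogeneous part of an element of the Lie algebra of the sum with second block of degree
`d` -/
theorem hom_mem (V' : RHS κ) (V : PHS N w)
    (L : Submodule ℂ (Matrix (κ ⊕ Fin N) (κ ⊕ Fin N) ℂ))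
    (hL : ∀ x ∈ L, dg V'.X V.X * x - x * dg V'.X V.X ∈ L) {y : Matrix κ κ ℂ}
    {B : Matrix (Fin N) (Fin N) ℂ} {d : ℤ} (hB : V.X * B - B * V.X = (d : ℂ) • B)
    (hy : dg y B ∈ L) : dg (prt V' y d) B ∈ L := by
  classical
  obtain ⟨s, hs⟩ : ∃ s : Finset ℤ, s = (V'.types ×ˢ V'.types).image df ∪ {d} := ⟨_, rfl⟩
  have hds : d ∈ s := by
    rw [hs]
    exact Finset.mem_union_right _ (Finset.mem_singleton_self d)
  have h1 := part_mem' (LinearMap.mulLeft ℂ (dg V'.X V.X) - LinearMap.mulRight ℂ (dg V'.X V.X)) L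
    hL s (fun m => dg (prt V' y m) (if m = d then B else 0)) ?_ ?_ d hds
  · simp only [if_true] at h1
    exact h1
  · intro m _
    show dg V'.X V.X * dg (prt V' y m) (if m = d then B else 0) -
      dg (prt V' y m) (if m = d then B else 0) * dg V'.X V.X = _
    rw [dg_mul, dg_mul, dg_sub, prt_deg, dg_smul]
    congr 1
    split_ifs with hm
    · rw [hm]
      exact hB
    · simp
  · rw [dg_sum, sum_prt V' y s (by rw [hs]; exact Finset.subset_union_left),
      Finset.sum_ite_eq' s d, if_pos hds]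
    exact hy

end MTSp

open MTSp

/-- **MTS.** The Lie algebra of the Mumford-Tate group of the sum contains `0 × sp(V)`. -/
theorem t_MTS (hNDG : S_NDG) (hLIE : S_LIE) (hIDL : S_IDL) : S_MTS := by
  intro κ _ _ V' N w V hCY hlev Z hZ
  obtain ⟨L, hLdef⟩ : ∃ L, L = LS (SH (hSum V'.h V)) := ⟨_, rfl⟩
  have hbr : ∀ {y y' : Matrix κ κ ℂ} {A B : Matrix (Fin N) (Fin N) ℂ}, dg y A ∈ L → dg y' B ∈ L →
      dg (y * y' - y' * y) (A * B - B * A) ∈ L := by
    intro y y' A B h h'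
    rw [hLdef] at h h' ⊢
    exact dg_br h h'
  have hXm : dg V'.X V.X ∈ L := by rw [hLdef]; exact X_mem' V' V
  -- (2) every skew matrix is a second block
  let 𝔤 : Submodule ℂ (Matrix (Fin N) (Fin N) ℂ) :=
    { carrier := {A | ∃ y, dg y A ∈ L}
      zero_mem' := ⟨0, by rw [dg_zero]; exact L.zero_mem⟩
      add_mem' := by
        rintro A B ⟨y, hy⟩ ⟨y', hy'⟩
        exact ⟨y + y', by rw [← dg_add]; exact L.add_mem hy hy'⟩
      smul_mem' := by
        rintro c A ⟨y, hy⟩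
        exact ⟨c • y, by rw [← dg_smul]; exact L.smul_mem c hy⟩ }
  have hg2 : ∀ A, Aᵀ * cm V.J + cm V.J * A = 0 → ∃ y, dg y A ∈ L := by
    intro A hA
    have h1 : A ∈ 𝔤 := by
      refine hLIE V hCY A hA 𝔤 ?_ ?_
      · rintro a ⟨y, hy⟩ b ⟨y', hy'⟩
        exact ⟨_, hbr hy hy'⟩
      · intro σ
        refine ⟨V'.X.map σ, ?_⟩
        rw [hLdef]
        exact Xσ_mem V' V σ
    exact h1
  -- the form
  have hJ : (cm V.J)ᵀ = -cm V.J := by
    ext i j
    have h1 := congrFun (congrFun V.alt i) j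
    rw [Matrix.transpose_apply, Matrix.neg_apply] at h1
    show algebraMap ℚ ℂ (V.J j i) = -algebraMap ℚ ℂ (V.J i j)
    rw [h1, map_neg]
  have hdet : (cm V.J).det ≠ 0 := by
    have h1 : (cm V.J).det = algebraMap ℚ ℂ V.J.det := by
      rw [cm, ← RingHom.mapMatrix_apply, ← RingHom.map_det]
    rw [h1]
    exact (map_ne_zero _).2 (hNDG V).1
  -- (3) the highest root vector
  obtain ⟨v, hv0, hv, -⟩ := exists_top V hCY
  have hXv : V.X *ᵥ v = (w : ℂ) • v := by
    conv_lhs => rw [← hv]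
    rw [Matrix.mulVec_mulVec, X_e V le_rfl, Matrix.smul_mulVec, hv]
    congr 1
    push_cast
    ring
  obtain ⟨u, hu⟩ : ∃ u, u = v ᵥ* cm V.J := ⟨_, rfl⟩
  have hu0 : u ≠ 0 := by
    intro h
    exact hv0 (Matrix.eq_zero_of_vecMul_eq_zero hdet (hu ▸ h))
  have huX : u ᵥ* V.X = -((w : ℂ) • u) := by
    have h1 : cm V.J * V.X = -(V.Xᵀ * cm V.J) := eq_neg_of_add_eq_zero_right (hNDG V).2.1
    rw [hu, Matrix.vecMul_vecMul, h1, Matrix.vecMul_neg, ← Matrix.vecMul_vecMul,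
      Matrix.vecMul_transpose, hXv, Matrix.smul_vecMul]
  obtain ⟨B, hB⟩ : ∃ B, B = vecMulVec v u := ⟨_, rfl⟩
  have hBsk : Bᵀ * cm V.J + cm V.J * B = 0 := by
    have h0 : (vecMulVec v v)ᵀ = vecMulVec v v := by
      ext a b
      simp [vecMulVec_apply, mul_comm]
    have h1 : B = vecMulVec v v * cm V.J := by
      rw [hB, hu, Matrix.vecMulVec_mul]
    rw [h1, Matrix.transpose_mul, hJ, h0, neg_mul, neg_mul, Matrix.mul_assoc, neg_add_cancel]
  have hB0 : B ≠ 0 := by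
    intro h
    obtain ⟨i, hi⟩ := Function.ne_iff.1 hv0
    obtain ⟨j, hj⟩ := Function.ne_iff.1 hu0
    have h1 := congrFun (congrFun h i) j
    rw [hB, vecMulVec_apply] at h1
    exact mul_ne_zero hi hj h1
  have hBd : V.X * B - B * V.X = ((2 * (w : ℤ) : ℤ) : ℂ) • B := by
    rw [hB, Matrix.mul_vecMulVec, Matrix.vecMulVec_mul, hXv, huX]
    ext i j
    simp only [Matrix.sub_apply, Matrix.smul_apply, vecMulVec_apply, Pi.smul_apply, Pi.neg_apply,
      smul_eq_mul]
    push_cast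
    ring
  obtain ⟨y, hy⟩ := hg2 B hBsk
  have hy2 := hom_mem V' V L (fun x hx => by
    rw [hLdef] at hx hXm ⊢
    exact LS_br hXm hx) hBd hy
  have hy3 : prt V' y (2 * (w : ℤ)) = 0 := by
    refine hlev _ ?_ w (by rw [abs_of_nonneg (by positivity)]) (prt_deg V' y _)
    rw [hLdef] at hy2
    exact lie_fst V'.h_det V hy2
  rw [hy3] at hy2
  -- (4) the ideal
  let 𝔞 : Submodule ℂ (Matrix (Fin N) (Fin N) ℂ) :=
    { carrier := {A | dg (0 : Matrix κ κ ℂ) A ∈ L}
      zero_mem' := by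
        show dg 0 0 ∈ L
        rw [dg_zero]
        exact L.zero_mem
      add_mem' := by
        intro A B hA hB
        show dg 0 (A + B) ∈ L
        have h1 := L.add_mem hA hB
        rwa [dg_add, add_zero] at h1
      smul_mem' := by
        intro c A hA
        show dg 0 (c • A) ∈ L
        have h1 := L.smul_mem c hA
        rwa [dg_smul, smul_zero] at h1 }
  have hfin : Z ∈ 𝔞 := by
    refine hIDL ℂ N (cm V.J) hJ hdet 𝔞 ?_ B hy2 hBsk hB0 Z hZ
    intro A hA C hC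
    obtain ⟨y, hy⟩ := hg2 A hA
    have h1 := hbr hy hC
    rwa [mul_zero, zero_mul, sub_zero] at h1
  rw [← hLdef]
  exact hfin

end Pool.Agent.T2h63.MT
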