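import Pool.Agent.T2h63.MT.Stm

/-!
# Hodge structures of Calabi-Yau type, task NDG: the form is nondegenerate, the Hodge operator is skew
-/

set_option autoImplicit false

open Matrix

namespace Pool.Agent.T2h63.MT

namespace PHS

variable {N w : ℕ} (V : PHS N w)

theorem orth' {p q : ℕ} (hp : p ≤ w) (hq : q ≤ w) (h : p + q ≠ w) (a b : Fin N → ℂ) :
    (V.e p *ᵥ a) ⬝ᵥ (cm V.J *ᵥ (V.e q *ᵥ b)) = 0 := by
  have h1 : ∀ u, (V.e p *ᵥ a) ⬝ᵥ u = a ⬝ᵥ ((V.e p)ᵀ *ᵥ u) := fun u => by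
    rw [Matrix.dotProduct_mulVec, Matrix.vecMul_transpose]
  rw [h1, Matrix.mulVec_mulVec, Matrix.mulVec_mulVec, V.orth p hp q hq h,
    Matrix.zero_mulVec, dotProduct_zero]

theorem sum_mulVec (v : Fin N → ℂ) : ∑ p ∈ Finset.range (w + 1), V.e p *ᵥ v = v := by
  rw [← Matrix.sum_mulVec, V.sum, Matrix.one_mulVec]

theorem star_mulVec {p : ℕ} (hp : p ≤ w) (v : Fin N → ℂ) :
    star (V.e p *ᵥ v) = V.e (w - p) *ᵥ star v := by
  rw [← V.conj p hp]
  funext i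
  simp only [Matrix.mulVec, dotProduct, Pi.star_apply, Matrix.map_apply, star_sum, star_mul']
  rfl

/-- The polarisation is positive on each piece. -/
theorem herm_ne {p : ℕ} (hp : p ≤ w) {v : Fin N → ℂ} (hv : v ≠ 0) (h : V.e p *ᵥ v = v) :
    star v ⬝ᵥ (cm V.J *ᵥ v) ≠ 0 := by
  intro h0
  have h1 := V.pos p hp v hv h
  rw [h0, mul_zero, Complex.zero_re] at h1
  exact lt_irrefl _ h1

/-- The different pieces are orthogonal for the hermitian form. -/
theorem herm_orth {p q : ℕ} (hp : p ≤ w) (hq : q ≤ w) (h : p ≠ q) (a b : Fin N → ℂ) :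
    star (V.e p *ᵥ a) ⬝ᵥ (cm V.J *ᵥ (V.e q *ᵥ b)) = 0 := by
  rw [V.star_mulVec hp]
  exact V.orth' (by omega) hq (by omega) _ _

theorem e_e {p q : ℕ} (hp : p ≤ w) (hq : q ≤ w) (v : Fin N → ℂ) :
    V.e p *ᵥ (V.e q *ᵥ v) = if p = q then V.e p *ᵥ v else 0 := by
  rw [Matrix.mulVec_mulVec, V.mul p hp q hq]
  split_ifs
  · rfl
  · exact Matrix.zero_mulVec v

theorem det_cm : (cm V.J).det = ((V.J.det : ℚ) : ℂ) := by
  have h := (RingHom.map_det (algebraMap ℚ ℂ) V.J).symm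
  rw [RingHom.mapMatrix_apply] at h
  rw [cm, h]
  rfl

theorem det_ne : V.J.det ≠ 0 := by
  intro h0
  have h1 : (cm V.J).det = 0 := by rw [V.det_cm, h0, Rat.cast_zero]
  obtain ⟨v, hv, hv0⟩ := Matrix.exists_mulVec_eq_zero_iff.2 h1
  obtain ⟨p, hp, hvp⟩ : ∃ p ≤ w, V.e p *ᵥ v ≠ 0 := by
    by_contra hcon
    push Not at hcon
    refine hv ?_
    rw [← V.sum_mulVec v]
    exact Finset.sum_eq_zero fun p hp => hcon p (by have := Finset.mem_range.1 hp; omega)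
  refine V.herm_ne hp hvp (by rw [V.e_e hp hp, if_pos rfl]) ?_
  have h2 : star (V.e p *ᵥ v) ⬝ᵥ (cm V.J *ᵥ v) = 0 := by rw [hv0, dotProduct_zero]
  have h3 : star (V.e p *ᵥ v) ⬝ᵥ (cm V.J *ᵥ v) =
      ∑ q ∈ Finset.range (w + 1), star (V.e p *ᵥ v) ⬝ᵥ (cm V.J *ᵥ (V.e q *ᵥ v)) := by
    have h4 : cm V.J *ᵥ v = ∑ q ∈ Finset.range (w + 1), cm V.J *ᵥ (V.e q *ᵥ v) := by
      conv_lhs => rw [← V.sum_mulVec v]
      exact map_sum (Matrix.mulVecLin (cm V.J)) _ _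
    rw [h4, dotProduct_sum]
  rw [h3, Finset.sum_eq_single p] at h2
  · exact h2
  · intro q hq hqp
    exact V.herm_orth hp (by have := Finset.mem_range.1 hq; omega) hqp.symm _ _
  · intro h
    exact absurd (Finset.mem_range.2 (by omega)) h

theorem X_skew : V.Xᵀ * cm V.J + cm V.J * V.X = 0 := by
  have h1 : V.Xᵀ * cm V.J = ∑ p ∈ Finset.range (w + 1), ∑ q ∈ Finset.range (w + 1),
      ((2 * (p : ℤ) - w : ℤ) : ℂ) • ((V.e p)ᵀ * cm V.J * V.e q) := by
    conv_lhs => rw [← Matrix.mul_one (V.Xᵀ * cm V.J), ← V.sum, Finset.mul_sum]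
    rw [Finset.sum_comm]
    refine Finset.sum_congr rfl fun q _ => ?_
    rw [PHS.X, Matrix.transpose_sum, Finset.sum_mul, Finset.sum_mul]
    refine Finset.sum_congr rfl fun p _ => ?_
    rw [Matrix.transpose_smul, Matrix.smul_mul, Matrix.smul_mul]
  have h2 : cm V.J * V.X = ∑ p ∈ Finset.range (w + 1), ∑ q ∈ Finset.range (w + 1),
      ((2 * (q : ℤ) - w : ℤ) : ℂ) • ((V.e p)ᵀ * cm V.J * V.e q) := by
    have h3 : cm V.J * V.X = (1 : Matrix (Fin N) (Fin N) ℂ)ᵀ * (cm V.J * V.X) := by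
      rw [Matrix.transpose_one, Matrix.one_mul]
    rw [h3, ← V.sum, Matrix.transpose_sum, Finset.sum_mul]
    refine Finset.sum_congr rfl fun p _ => ?_
    rw [PHS.X, Finset.mul_sum, Finset.mul_sum]
    refine Finset.sum_congr rfl fun q _ => ?_
    rw [Matrix.mul_smul, Matrix.mul_smul, Matrix.mul_assoc]
  rw [h1, h2, ← Finset.sum_add_distrib]
  refine Finset.sum_eq_zero fun p hp => ?_
  rw [← Finset.sum_add_distrib]
  refine Finset.sum_eq_zero fun q hq => ?_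
  have hp' := Finset.mem_range.1 hp
  have hq' := Finset.mem_range.1 hq
  by_cases h : p + q = w
  · rw [← add_smul, ← Int.cast_add]
    have h4 : (2 * (p : ℤ) - w + (2 * (q : ℤ) - w)) = 0 := by omega
    rw [h4, Int.cast_zero, zero_smul]
  · rw [V.orth p (by omega) q (by omega) h, smul_zero, smul_zero, add_zero]

theorem X_conj : V.X.map (starRingEnd ℂ) = -V.X := by
  have h1 : V.X.map (starRingEnd ℂ) = ∑ p ∈ Finset.range (w + 1),
      ((2 * (p : ℤ) - w : ℤ) : ℂ) • V.e (w - p) := by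
    have h2 : V.X.map (starRingEnd ℂ) = (starRingEnd ℂ).mapMatrix V.X := rfl
    rw [h2, PHS.X, map_sum]
    refine Finset.sum_congr rfl fun p hp => ?_
    rw [← V.conj p (by have := Finset.mem_range.1 hp; omega)]
    ext i j
    show (starRingEnd ℂ) (((2 * (p : ℤ) - w : ℤ) : ℂ) * V.e p i j) =
      ((2 * (p : ℤ) - w : ℤ) : ℂ) * (starRingEnd ℂ) (V.e p i j)
    rw [map_mul, map_intCast]
  rw [h1, ← Finset.sum_flip, PHS.X, ← Finset.sum_neg_distrib]
  refine Finset.sum_congr rfl fun p hp => ?_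
  have hp' := Finset.mem_range.1 hp
  rw [← neg_smul, ← Int.cast_neg]
  have h3 : w - (w - p) = p := by omega
  rw [h3]
  congr 2
  push_cast [Nat.cast_sub (show p ≤ w by omega)]
  ring

end PHS

theorem t_NDG : S_NDG := fun V => ⟨V.det_ne, V.X_skew, V.X_conj⟩

end Pool.Agent.T2h63.MT
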