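import Pool.Agent.T2h63.MT.Stm

set_option autoImplicit false

open Matrix

namespace Pool.Agent.T2h63.MT

namespace TRV

variable {F : Type} [Field F] [CharZero F] {N : ℕ}

/-- the form -/
def w (J : Matrix (Fin N) (Fin N) F) (a b : Fin N → F) : F := a ⬝ᵥ (J *ᵥ b)

/-- transvections -/
def T (J : Matrix (Fin N) (Fin N) F) (v : Fin N → F) (c : F) : Matrix (Fin N) (Fin N) F :=
  1 + c • vecMulVec v (v ᵥ* J)

omit [CharZero F] in
theorem T_mulVec (J : Matrix (Fin N) (Fin N) F) (v : Fin N → F) (c : F) (x : Fin N → F) :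
    T J v c *ᵥ x = x + (c * w J v x) • v := by
  unfold T w
  rw [add_mulVec, one_mulVec, smul_mulVec, vecMulVec_mulVec, ← dotProduct_mulVec]
  congr 1
  ext i
  simp only [Pi.smul_apply, smul_eq_mul, MulOpposite.smul_eq_mul_unop, MulOpposite.unop_op]
  ring

omit [CharZero F] in
theorem w_add_left (J : Matrix (Fin N) (Fin N) F) (a b c : Fin N → F) :
    w J (a + b) c = w J a c + w J b c := by
  unfold w; rw [add_dotProduct]

omit [CharZero F] in
theorem w_add_right (J : Matrix (Fin N) (Fin N) F) (a b c : Fin N → F) :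
    w J a (b + c) = w J a b + w J a c := by
  unfold w; rw [mulVec_add, dotProduct_add]

omit [CharZero F] in
theorem w_sub_left (J : Matrix (Fin N) (Fin N) F) (a b c : Fin N → F) :
    w J (a - b) c = w J a c - w J b c := by
  unfold w; rw [sub_dotProduct]

omit [CharZero F] in
theorem w_smul_left (J : Matrix (Fin N) (Fin N) F) (r : F) (a b : Fin N → F) :
    w J (r • a) b = r * w J a b := by
  unfold w; rw [smul_dotProduct, smul_eq_mul]

omit [CharZero F] in
theorem w_smul_right (J : Matrix (Fin N) (Fin N) F) (r : F) (a b : Fin N → F) :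
    w J a (r • b) = r * w J a b := by
  unfold w; rw [mulVec_smul, dotProduct_smul, smul_eq_mul]

omit [CharZero F] in
theorem w_anti {J : Matrix (Fin N) (Fin N) F} (hJ : Jᵀ = -J) (a b : Fin N → F) :
    w J a b = - w J b a := by
  unfold w
  rw [dotProduct_mulVec, ← mulVec_transpose, hJ, neg_mulVec, neg_dotProduct, dotProduct_comm]

theorem w_self {J : Matrix (Fin N) (Fin N) F} (hJ : Jᵀ = -J) (a : Fin N → F) : w J a a = 0 := by
  have h := w_anti hJ a a
  have h2 : 2 * w J a a = 0 := by linear_combination h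
  exact (mul_eq_zero.1 h2).resolve_left two_ne_zero

/-- symplectic -/
def Sy (J g : Matrix (Fin N) (Fin N) F) : Prop := ∀ x y, w J (g *ᵥ x) (g *ᵥ y) = w J x y

omit [CharZero F] in
theorem Sy.mul {J g h : Matrix (Fin N) (Fin N) F} (hg : Sy J g) (hh : Sy J h) : Sy J (g * h) := by
  intro x y
  rw [← mulVec_mulVec, ← mulVec_mulVec, hg, hh]

theorem sy_T {J : Matrix (Fin N) (Fin N) F} (hJ : Jᵀ = -J) (v : Fin N → F) (c : F) :
    Sy J (T J v c) := by
  intro x y
  rw [T_mulVec, T_mulVec, w_add_left, w_add_right, w_add_right, w_smul_left, w_smul_left,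
    w_smul_right, w_smul_right, w_self hJ v, w_anti hJ x v]
  ring

theorem T_inv {J : Matrix (Fin N) (Fin N) F} (hJ : Jᵀ = -J) (v : Fin N → F) (c : F) :
    T J v (-c) * T J v c = 1 := by
  refine Matrix.toLin'.injective (LinearMap.ext fun x => ?_)
  rw [Matrix.toLin'_apply, Matrix.toLin'_apply, ← mulVec_mulVec, one_mulVec, T_mulVec, T_mulVec,
    w_add_right, w_smul_right, w_self hJ, mul_zero, add_zero, add_assoc, ← add_smul]
  have : c * w J v x + -c * w J v x = 0 := by ring
  rw [this, zero_smul, add_zero]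

/-- fixed vectors -/
def Fix (g : Matrix (Fin N) (Fin N) F) : Submodule F (Fin N → F) := LinearMap.ker (g - 1).mulVecLin

omit [CharZero F] in
theorem mem_Fix {g : Matrix (Fin N) (Fin N) F} {x : Fin N → F} : x ∈ Fix g ↔ g *ᵥ x = x := by
  unfold Fix
  rw [LinearMap.mem_ker, mulVecLin_apply, sub_mulVec, one_mulVec, sub_eq_zero]

/-- case A -/
theorem stepA {J g : Matrix (Fin N) (Fin N) F} (hJ : Jᵀ = -J) (hg : Sy J g) {u : Fin N → F}
    (hu : w J u (g *ᵥ u) ≠ 0) : ∃ v c, Module.finrank F (Fix g) < Module.finrank F (Fix (T J v c * g)) := by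
  refine ⟨g *ᵥ u - u, (w J u (g *ᵥ u))⁻¹, Submodule.finrank_lt_finrank_of_lt ?_⟩
  rw [SetLike.lt_iff_le_and_exists]
  refine ⟨fun x hx => ?_, u, ?_, ?_⟩
  · rw [mem_Fix] at hx ⊢
    rw [← mulVec_mulVec, hx, T_mulVec]
    have h1 : w J (g *ᵥ u - u) x = 0 := by
      rw [w_sub_left]
      nth_rewrite 1 [← hx]
      rw [hg, sub_self]
    rw [h1, mul_zero, zero_smul, add_zero]
  · rw [mem_Fix, ← mulVec_mulVec, T_mulVec]
    have h1 : w J (g *ᵥ u - u) (g *ᵥ u) = - w J u (g *ᵥ u) := by
      rw [w_sub_left, w_self hJ, zero_sub]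
    rw [h1, mul_neg, inv_mul_cancel₀ hu, neg_smul, one_smul]
    abel
  · intro h
    rw [mem_Fix] at h
    rw [h] at hu
    exact hu (w_self hJ u)

omit [CharZero F] in
theorem exists_ne {J : Matrix (Fin N) (Fin N) F} (hd : J.det ≠ 0) {z : Fin N → F} (hz : z ≠ 0) :
    ∃ u, w J u z ≠ 0 := by
  by_contra hcon
  push Not at hcon
  apply hz
  have h1 : J *ᵥ z = 0 := by
    ext i
    have h2 := hcon (Pi.single i 1)
    unfold w at h2
    rw [single_dotProduct, one_mul] at h2
    rw [h2, Pi.zero_apply]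
  exact Matrix.eq_zero_of_mulVec_eq_zero hd h1

omit [CharZero F] in
theorem surj {J g : Matrix (Fin N) (Fin N) F} (hd : J.det ≠ 0) (hg : Sy J g)
    (y : Fin N → F) : ∃ x, g *ᵥ x = y := by
  have hinj : Function.Injective g.mulVecLin := by
    rw [← LinearMap.ker_eq_bot, LinearMap.ker_eq_bot']
    intro x hx
    rw [mulVecLin_apply] at hx
    by_contra hx0
    obtain ⟨u, hu⟩ := exists_ne hd hx0
    have h1 := hg u x
    rw [hx] at h1
    unfold w at h1 hu
    rw [mulVec_zero, dotProduct_zero] at h1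
    exact hu h1.symm
  obtain ⟨x, hx⟩ := (LinearMap.injective_iff_surjective.1 hinj) y
  exact ⟨x, hx⟩

theorem main {J : Matrix (Fin N) (Fin N) F} (hJ : Jᵀ = -J) (hd : J.det ≠ 0)
    (M : Submonoid (Matrix (Fin N) (Fin N) F)) (hM : ∀ v c, T J v c ∈ M) :
    ∀ k : ℕ, ∀ g, Sy J g → N ≤ Module.finrank F (Fix g) + k → g ∈ M := by
  have hback : ∀ (v : Fin N → F) (c : F) (g : Matrix (Fin N) (Fin N) F), T J v c * g ∈ M → g ∈ M := by
    intro v c g h
    have h1 : g = T J v (-c) * (T J v c * g) := by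
      rw [← Matrix.mul_assoc, T_inv hJ, Matrix.one_mul]
    rw [h1]
    exact M.mul_mem (hM _ _) h
  have hone : ∀ g : Matrix (Fin N) (Fin N) F, (∀ x, g *ᵥ x = x) → g = 1 := by
    intro g h
    refine Matrix.toLin'.injective (LinearMap.ext fun x => ?_)
    rw [Matrix.toLin'_apply, Matrix.toLin'_apply, one_mulVec, h]
  intro k
  induction k with
  | zero =>
    intro g _ hk
    have h1 : Fix g = ⊤ := by
      apply Submodule.eq_top_of_finrank_eq
      apply le_antisymm (Submodule.finrank_le _)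
      rw [Module.finrank_fin_fun]
      exact hk
    have h2 : g = 1 := hone g fun x => mem_Fix.1 (by rw [h1]; trivial)
    rw [h2]
    exact M.one_mem
  | succ k ih =>
    have hA : ∀ g, Sy J g → N ≤ Module.finrank F (Fix g) + (k + 1) →
        (∃ u, w J u (g *ᵥ u) ≠ 0) → g ∈ M := by
      rintro g hg hk ⟨u, hu⟩
      obtain ⟨v, c, hvc⟩ := stepA hJ hg hu
      exact hback v c g (ih _ ((sy_T hJ v c).mul hg) (by omega))
    intro g hg hk
    by_cases hu : ∃ u, w J u (g *ᵥ u) ≠ 0
    · exact hA g hg hk hu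
    push Not at hu
    by_cases h1 : ∀ x, g *ᵥ x = x
    · rw [hone g h1]
      exact M.one_mem
    push Not at h1
    obtain ⟨y, hy⟩ := h1
    set z := g *ᵥ y - y with hz
    have hz0 : z ≠ 0 := sub_ne_zero.2 hy
    refine hback z 1 g (hA _ ((sy_T hJ z 1).mul hg) ?_ ?_)
    · have hle : Fix g ≤ Fix (T J z 1 * g) := by
        intro x hx
        rw [mem_Fix] at hx ⊢
        rw [← mulVec_mulVec, hx, T_mulVec]
        have h1 : w J z x = 0 := by
          rw [hz, w_sub_left]
          nth_rewrite 1 [← hx]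
          rw [hg, sub_self]
        rw [h1, mul_zero, zero_smul, add_zero]
      exact hk.trans (Nat.add_le_add_right (Submodule.finrank_mono hle) _)
    · have key : ∀ u, w J u ((T J z 1 * g) *ᵥ u) = w J z (g *ᵥ u) * w J u z := by
        intro u
        rw [← mulVec_mulVec, T_mulVec, w_add_right, w_smul_right, hu u, one_mul, zero_add]
      obtain ⟨u2, hu2⟩ := exists_ne hd hz0
      obtain ⟨u1, hu1⟩ := surj hd hg u2
      have hf1 : w J z (g *ᵥ u1) ≠ 0 := by
        rw [hu1, w_anti hJ]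
        exact neg_ne_zero.2 hu2
      by_cases h3 : w J u1 z = 0
      · by_cases h4 : w J z (g *ᵥ u2) = 0
        · refine ⟨u1 + u2, ?_⟩
          rw [key, mulVec_add, w_add_right, w_add_left, h3, h4, add_zero, zero_add]
          exact mul_ne_zero hf1 hu2
        · exact ⟨u2, by rw [key]; exact mul_ne_zero h4 hu2⟩
      · exact ⟨u1, by rw [key]; exact mul_ne_zero hf1 h3⟩

end TRV

/-- **TRV.** The symplectic group is generated by the transvections. -/
theorem t_TRV : S_TRV := by
  intro F _ _ N J hJ hd M hM g hg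
  refine TRV.main hJ hd M hM N g ?_ (by omega)
  intro x y
  unfold TRV.w
  rw [← vecMul_transpose g x, ← dotProduct_mulVec]
  nth_rewrite 2 [← hg]
  rw [← mulVec_mulVec, ← mulVec_mulVec]

end Pool.Agent.T2h63.MT
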