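import Pool.Agent.T2h63.MT.Stm
import Pool.Agent.Y95.MT.Unip

/-!
# Task UNI: one-parameter unipotent groups
-/

set_option autoImplicit false

namespace Pool.Agent.T2h63.MT

open MvPolynomial Pool.Agent.W528.ZC
open Pool.Agent.Y95.MT

namespace UNI

variable {K : Type} [Field K] {ι : Type} [Fintype ι] [DecidableEq ι]

theorem Ph_X {n : Matrix ι ι K} (q : ι × ι) :
    Ph2 n 0 (X q) = Polynomial.C (X q) + Polynomial.X * Polynomial.C (lin n q) := by
  rw [Ph2_X, lin_zero]
  simp

theorem Ph_lin (n b : Matrix ι ι K) (q : ι × ι) :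
    Ph2 n 0 (lin b q) = Polynomial.C (lin b q) + Polynomial.X * Polynomial.C (lin (n * b) q) := by
  have h1 : lin b q = ∑ j, C (b j q.2) * X (q.1, j) := rfl
  rw [← lin_lin, h1, map_sum, map_sum, map_sum, Finset.mul_sum, ← Finset.sum_add_distrib]
  refine Finset.sum_congr rfl fun j _ => ?_
  rw [map_mul, Ph2_C, Ph_X, Polynomial.C_mul, Polynomial.C_mul]
  ring

theorem der {n : Matrix ι ι K} (hn : n * n = 0) (f : MvPolynomial (ι × ι) K) :
    Polynomial.derivative (Ph2 n 0 f) = Ph2 n 0 (D n f) := by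
  induction f using MvPolynomial.induction_on with
  | C a => rw [Ph2_C, D_C', map_zero, Polynomial.derivative_C]
  | add f g hf hg => rw [map_add, Polynomial.derivative_add, hf, hg, map_add, map_add]
  | mul_X f q hf =>
    rw [map_mul, Polynomial.derivative_mul, hf, Derivation.leibniz, D_X', map_add, smul_eq_mul,
      smul_eq_mul, map_mul, map_mul, Ph_lin, hn, lin_zero, Ph_X]
    simp only [Polynomial.derivative_add, Polynomial.derivative_C, Polynomial.derivative_mul,
      Polynomial.derivative_X, map_zero, mul_zero, add_zero, one_mul, zero_add]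
    ring

theorem coeff_mem [CharZero K] {n : Matrix ι ι K} (hn : n * n = 0)
    {S : Submodule K (MvPolynomial (ι × ι) K)} (hS : n ∈ LS S) (k : ℕ) :
    ∀ f ∈ S, (Ph2 n 0 f).coeff k ∈ S := by
  induction k with
  | zero =>
    intro f hf
    rw [(Ph2_coeff n 0 f).1]
    exact hf
  | succ k ih =>
    intro f hf
    have h1 := ih _ (hS f hf)
    rw [← der hn, Polynomial.coeff_derivative] at h1
    have h2 : ((k : K) + 1) ≠ 0 := by exact_mod_cast Nat.succ_ne_zero k
    have h3 : (Ph2 n 0 f).coeff (k + 1) = ((k : K) + 1)⁻¹ •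
        ((Ph2 n 0 f).coeff (k + 1) * ((k : MvPolynomial (ι × ι) K) + 1)) := by
      have h4 : ((k : MvPolynomial (ι × ι) K) + 1) = C ((k : K) + 1) := by
        rw [C_add, C_1, map_natCast]
      rw [h4, mul_comm, ← smul_eq_C_mul, smul_smul, inv_mul_cancel₀ h2, one_smul]
    rw [h3]
    exact S.smul_mem _ h1

end UNI

/-- **UNI.** One-parameter unipotent groups. -/
theorem t_UNI : S_UNI := by
  intro K _ _ ι _ _ S n hn hn2 f hf
  have h1 := eval_Ph2 n 0 1 f
  rw [one_smul, smul_zero, add_zero, C_1, Polynomial.eval_eq_sum_range] at h1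
  rw [← h1]
  refine S.sum_mem fun k _ => ?_
  rw [one_pow, mul_one]
  exact UNI.coeff_mem hn2 hn k f hf

end Pool.Agent.T2h63.MT
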