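import Mathlib

/-!
# Hodge structures of Calabi-Yau type of odd weight: definitions
-/

set_option autoImplicit false

open Matrix

namespace Pool.Agent.T2h63.MT

variable {N w : ℕ}

/-- A rational matrix as a complex matrix. -/
noncomputable abbrev cm (A : Matrix (Fin N) (Fin N) ℚ) : Matrix (Fin N) (Fin N) ℂ :=
  A.map (algebraMap ℚ ℂ)

/-- A polarised rational Hodge structure of odd weight `w` on `ℚ^N` with the types `(p, w - p)`,
`0 ≤ p ≤ w`: the projections `e p` to the pieces of type `(p, w - p)` of `ℂ^N`, and the alternating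
form with the matrix `J`. -/
structure PHS (N w : ℕ) where
  /-- the projections -/
  e : ℕ → Matrix (Fin N) (Fin N) ℂ
  mul : ∀ p ≤ w, ∀ q ≤ w, e p * e q = if p = q then e p else 0
  sum : ∑ p ∈ Finset.range (w + 1), e p = 1
  conj : ∀ p ≤ w, (e p).map (starRingEnd ℂ) = e (w - p)
  /-- the matrix of the form -/
  J : Matrix (Fin N) (Fin N) ℚ
  alt : Jᵀ = -J
  orth : ∀ p ≤ w, ∀ q ≤ w, p + q ≠ w → (e p)ᵀ * cm J * e q = 0
  pos : ∀ p ≤ w, ∀ v : Fin N → ℂ, v ≠ 0 → e p *ᵥ v = v →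
    0 < (Complex.I ^ (2 * (p : ℤ) - w) * (star v ⬝ᵥ (cm J *ᵥ v))).re

/-- The action of `ℂ^×`: multiplication by `z ^ (-p) * conj z ^ (p - w)` on the piece of type
`(p, w - p)`. -/
noncomputable def PHS.h (V : PHS N w) (z : ℂ) : Matrix (Fin N) (Fin N) ℂ :=
  ∑ p ∈ Finset.range (w + 1), (z ^ (-(p : ℤ)) * starRingEnd ℂ z ^ ((p : ℤ) - w)) • V.e p

/-- The operator which is `p - (w - p)` on the piece of type `(p, w - p)`. -/
noncomputable def PHS.X (V : PHS N w) : Matrix (Fin N) (Fin N) ℂ :=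
  ∑ p ∈ Finset.range (w + 1), ((2 * (p : ℤ) - w : ℤ) : ℂ) • V.e p

/-- The complex Lie algebra generated by the conjugates of the operator `V.X` under the automorphisms
of the complex numbers (the Lie algebra of the Hodge group). -/
def PHS.InLie (V : PHS N w) (y : Matrix (Fin N) (Fin N) ℂ) : Prop :=
  ∀ 𝔤 : Submodule ℂ (Matrix (Fin N) (Fin N) ℂ), (∀ a ∈ 𝔤, ∀ b ∈ 𝔤, a * b - b * a ∈ 𝔤) →
    (∀ σ : ℂ ≃+* ℂ, V.X.map σ ∈ 𝔤) → y ∈ 𝔤

/-- The Hodge structure is of Calabi-Yau type: the piece of type `(w, 0)`, `w ≥ 3`, is of dimension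
one, the endomorphisms are rational numbers, and the Lie algebra of the Hodge group has a nonzero
element of type `(j, -j)` for some `j` with `|j| > w - 2`. -/
structure PHS.IsCY (V : PHS N w) : Prop where
  odd : Odd w
  three : 3 ≤ w
  one : (V.e w).trace = 1
  scalar : ∀ A : Matrix (Fin N) (Fin N) ℚ, (∀ p ≤ w, cm A * V.e p = V.e p * cm A) →
    ∃ c : ℚ, A = c • (1 : Matrix (Fin N) (Fin N) ℚ)
  level : ∃ y, V.InLie y ∧ y ≠ 0 ∧ ∃ j : ℤ, (w : ℤ) - 2 < |j| ∧
    V.X * y - y * V.X = ((2 * j : ℤ) : ℂ) • y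

end Pool.Agent.T2h63.MT
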