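import Pool.Agent.T2h63.MT.Stm
import Pool.Agent.Y95.MT.Main
import Pool.Agent.R932.Even

/-!
# The Mumford-Tate conjecture for Hodge structures of Calabi-Yau type: the proof
-/

set_option autoImplicit false
set_option linter.unusedSectionVars false
set_option maxHeartbeats 400000

open Matrix Polynomial Filter Topology NumberField IsDedekindDomain
open Pool.Agent.Y142.ZO Pool.Agent.Y142.ZI
open Pool.Agent.Y142.ZS (NiceP GenP Sim)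
open Pool.Agent.Y142.SS Pool.Agent.Y142.SI Pool.Agent.Y142.SU

namespace Pool.Agent.T2h63.MT

open Pool.Agent.Y95.MT (LS St SH MTgroup InMT InG0 MTC exists_emb LS_br)

variable {N w : ℕ}

/-- The form over the `ℓ`-adic numbers. -/
noncomputable abbrev PHS.Jl (V : PHS N w) (ℓ : ℕ) [Fact ℓ.Prime] : Matrix (Fin N) (Fin N) ℚ_[ℓ] :=
  V.J.map (algebraMap ℚ ℚ_[ℓ])

lemma det_map_ne {V : PHS N w} (h : V.J.det ≠ 0) {F : Type} [Field F] [Algebra ℚ F] :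
    (V.J.map (algebraMap ℚ F)).det ≠ 0 := by
  have h1 := (algebraMap ℚ F).map_det V.J
  rw [RingHom.mapMatrix_apply] at h1
  rw [← h1]
  exact (_root_.map_ne_zero _).2 h

lemma alt_map (V : PHS N w) {F : Type} [Field F] [Algebra ℚ F] :
    (V.J.map (algebraMap ℚ F))ᵀ = -V.J.map (algebraMap ℚ F) := by
  rw [← Matrix.transpose_map, V.alt]
  ext i j
  simp

/-- The conjecture at one prime. -/
theorem mtc_of_full (hMTX : S_MTX) (hMTH : S_MTH) (hMTG : S_MTG) (hNDG : S_NDG) (hLIE : S_LIE)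
    {ℓ : ℕ} [Fact ℓ.Prime] {V : PHS N w} (hV : V.IsCY)
    {Γ : Type} [Group Γ] [TopologicalSpace Γ] [IsTopologicalGroup Γ] [CompactSpace Γ]
    {ρ : Γ →* Matrix (Fin N) (Fin N) ℚ_[ℓ]} (hρ : Continuous ρ)
    (hs : ∀ γ, ∃ c : ℚ_[ℓ], (ρ γ)ᵀ * V.Jl ℓ * ρ γ = c • V.Jl ℓ)
    (hγ : ∃ γ, ∃ c : ℚ_[ℓ], (ρ γ)ᵀ * V.Jl ℓ * ρ γ = c • V.Jl ℓ ∧ ∀ m : ℕ, 0 < m → c ^ m ≠ 1)
    (hfull : ∀ X, Xᵀ * V.Jl ℓ + V.Jl ℓ * X = 0 → IsTangent ℓ ρ X) : MTC V.h ρ := by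
  intro g hg
  obtain ⟨e⟩ := exists_emb ℓ
  have h3 := hV.three
  have h1 := hMTG ℓ N Γ ρ hρ (V.Jl ℓ) (alt_map V) (det_map_ne (hNDG V).1) hs hγ hfull g hg
  have h2 := hMTH V (by omega) (fun A hA => hLIE V hV A hA (LS (SH V.h))
    (fun a ha b hb => LS_br ha hb) fun σ => hMTX V σ) (AlgebraicClosure ℚ_[ℓ]) e g hg
  have h4 : (V.Jl ℓ).map (algebraMap ℚ_[ℓ] (AlgebraicClosure ℚ_[ℓ])) =
      V.J.map (algebraMap ℚ (AlgebraicClosure ℚ_[ℓ])) := by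
    rw [Matrix.map_map]
    rfl
  rw [h4] at h1
  exact h1.trans h2.symm

theorem density_bounded {A : Set ℕ} {b : ℕ} (hA : ∀ ℓ ∈ A, ℓ ≤ b) : Y142.ZI.DensityZero A := by
  have h1 : Tendsto (fun n : ℕ => ((b + 1 : ℕ) : ℝ) / (Nat.primeCounting n : ℝ)) atTop (𝓝 0) := by
    refine Tendsto.div_atTop tendsto_const_nhds ?_
    exact tendsto_natCast_atTop_atTop.comp Nat.tendsto_primeCounting
  refine squeeze_zero (fun n => by positivity) (fun n => ?_) h1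
  apply div_le_div_of_nonneg_right _ (Nat.cast_nonneg _)
  have h2 : Nat.card {ℓ : ℕ // ℓ ≤ n ∧ ℓ ∈ A} ≤ Nat.card (Fin (b + 1)) :=
    Nat.card_le_card_of_injective (fun x => (⟨x.1, Nat.lt_succ_of_le (hA _ x.2.2)⟩ : Fin (b + 1)))
      (fun x y h => by
        apply Subtype.ext
        exact congrArg (fun z : Fin (b + 1) => z.1) h)
  rw [Nat.card_fin] at h2
  exact_mod_cast h2

variable {K : Type} [Field K] [NumberField K] {S : Set (HeightOneSpectrum (𝓞 K))}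
  {P : HeightOneSpectrum (𝓞 K) → ℚ[X]}

/-- The multiplier of the Frobenius at `v`. -/
noncomputable def qv (w : ℕ) (v : HeightOneSpectrum (𝓞 K)) : ℚ := (Ideal.absNorm v.asIdeal : ℚ) ^ w

lemma one_lt_norm (v : HeightOneSpectrum (𝓞 K)) : 1 < Ideal.absNorm v.asIdeal := by
  have h0 : Ideal.absNorm v.asIdeal ≠ 0 := by
    rw [Ne, Ideal.absNorm_eq_zero_iff]
    exact v.ne_bot
  have h1 : Ideal.absNorm v.asIdeal ≠ 1 := by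
    rw [Ne, Ideal.absNorm_eq_one_iff]
    exact v.isPrime.ne_top
  omega

/-- **The conjecture at 100 percent of the primes.** -/
theorem main (hMTX : S_MTX) (hMTH : S_MTH) (hMTG : S_MTG) (hNDG : S_NDG) (hLIE : S_LIE)
    {V : PHS N w} (hV : V.IsCY) (hS : S.Finite)
    (ρ : ∀ (ℓ : ℕ) [Fact ℓ.Prime], GK K →* Matrix (Fin N) (Fin N) ℚ_[ℓ])
    (hρ : ∀ (ℓ : ℕ) [Fact ℓ.Prime], Continuous (ρ ℓ))
    (hs : ∀ (ℓ : ℕ) [Fact ℓ.Prime] (γ : GK K), ∃ c : ℚ_[ℓ], (ρ ℓ γ)ᵀ * V.Jl ℓ * ρ ℓ γ = c • V.Jl ℓ)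
    (hF : ∀ (ℓ : ℕ) [Fact ℓ.Prime], ∀ v ∉ S, (ℓ : 𝓞 K) ∉ v.asIdeal → ∀ σ : GK K,
      IsFrobenius v σ → (ρ ℓ σ⁻¹).charpoly = (P v).map (algebraMap ℚ ℚ_[ℓ]) ∧
        (ρ ℓ σ⁻¹)ᵀ * V.Jl ℓ * ρ ℓ σ⁻¹ = ((Ideal.absNorm v.asIdeal : ℚ_[ℓ]) ^ w) • V.Jl ℓ)
    {v₀ : HeightOneSpectrum (𝓞 K)} (hv₀ : GenP S P (qv w) v₀)
    {m : ℕ} (u : Fin (m + 1) → HeightOneSpectrum (𝓞 K)) (hu : ∀ i, NiceP S P (u i))
    (hI : ∀ (g : GK ℚ) (d : ℕ), 0 < d → d < N →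
      ∃ v, NiceP S P v ∧ ∃ w ∈ NoSet d (P v), w⁻¹ * g ∈ Subgroup.closure (⋃ i, Fix (P (u i))))
    (hII : ∀ g : GK ℚ, ∃ v, NiceP S P v ∧ ∃ w : GK ℚ, (∃ x : QQ, aeval x (P v) = 0 ∧ w x = x) ∧
      w⁻¹ * g ∈ Subgroup.closure (⋃ i, Fix (P (u i)))) :
    Y142.ZI.DensityZero {ℓ | ∃ _ : Fact ℓ.Prime, ¬ MTC V.h (ρ ℓ)} := by
  have hN : 0 < N := by
    rcases Nat.eq_zero_or_pos N with h | h
    · subst h
      have h1 := hV.one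
      rw [Matrix.trace, Finset.univ_eq_empty, Finset.sum_empty] at h1
      exact absurd h1.symm one_ne_zero
    · exact h
  have hw : 0 < w := by have := hV.three; omega
  have hq : ∀ (ℓ : ℕ) [Fact ℓ.Prime] (v : HeightOneSpectrum (𝓞 K)),
      ((qv w v : ℚ) : ℚ_[ℓ]) = (Ideal.absNorm v.asIdeal : ℚ_[ℓ]) ^ w := by
    intro ℓ _ v
    rw [qv]
    push_cast
    rfl
  have h1 := Pool.Agent.R932.density_even (K := K) (S := S) (P := P) (q := qv w) hN hS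
    (MonoidHom.id (GK K)) continuous_id (fun ℓ _ => ρ ℓ)
    (fun ℓ _ => ⟨hρ ℓ, fun v hv hvℓ σ hσ => (hF ℓ v hv hvℓ σ hσ).1⟩)
    (fun ℓ _ => V.Jl ℓ)
    (fun ℓ _ => ⟨Or.inr (alt_map V), det_map_ne (hNDG V).1, hs ℓ, fun v hv hvℓ σ hσ => by
      show (ρ ℓ σ⁻¹)ᵀ * V.Jl ℓ * ρ ℓ σ⁻¹ = ((qv w v : ℚ) : ℚ_[ℓ]) • V.Jl ℓ
      rw [hq ℓ v]
      exact (hF ℓ v hv hvℓ σ hσ).2⟩)
    hv₀ u hu hI hII
  refine Y142.ZI.DensityZero.mono (h1.union (density_bounded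
    (A := {ℓ | ℓ ≤ Ideal.absNorm v₀.asIdeal}) (b := Ideal.absNorm v₀.asIdeal) fun ℓ h => h)) ?_
  rintro ℓ ⟨hp, hno⟩
  by_cases hle : ℓ ≤ Ideal.absNorm v₀.asIdeal
  · exact Or.inr hle
  left
  refine ⟨hp, fun hfull => hno ?_⟩
  obtain ⟨σ, hσ⟩ := Pool.Agent.W401.Frob.exists_frob v₀
  have h2 := (hF ℓ v₀ hv₀.1 (not_mem_of_lt v₀ hp.out (not_le.1 hle)) σ hσ).2
  refine mtc_of_full hMTX hMTH hMTG hNDG hLIE hV (hρ ℓ) (hs ℓ) ⟨σ⁻¹, _, h2, fun k hk h3 => ?_⟩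
    fun X hX => hfull X hX
  rw [← pow_mul] at h3
  have h4 : (Ideal.absNorm v₀.asIdeal) ^ (w * k) = 1 := by exact_mod_cast h3
  have h5 : 1 < (Ideal.absNorm v₀.asIdeal) ^ (w * k) :=
    Nat.one_lt_pow (Nat.mul_ne_zero hw.ne' hk.ne') (one_lt_norm v₀)
  omega

end Pool.Agent.T2h63.MT
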