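import Pool.Agent.T2h63.MT.Main
import Pool.Agent.T2h63.MT.MTI
import Pool.Agent.R932.SumDens

/-!
# Sums with Hodge structures of Calabi-Yau type: the proof
-/

set_option autoImplicit false
set_option linter.unusedSectionVars false
set_option maxHeartbeats 400000

open Matrix Filter Topology NumberField IsDedekindDomain
open Pool.Agent.Y142.ZO Pool.Agent.Y142.ZI
open Pool.Agent.Y142.ZS (NiceP GenP Sim)
open Pool.Agent.Y142.SS Pool.Agent.Y142.SI Pool.Agent.Y142.SU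

namespace Pool.Agent.T2h63.MT

open Pool.Agent.Y95.MT

variable {κ : Type} [Fintype κ] [DecidableEq κ] {N w : ℕ}

theorem row_QGroup (o : κ) : IsQGroup {m : Matrix κ κ ℂ | m.det ≠ 0 ∧ I.Row o m} := by
  refine ⟨⟨{f | ∃ i, i ≠ o ∧ f = MvPolynomial.X (o, i)}, fun g => ?_⟩, ?_, ?_, ?_⟩
  · refine and_congr_right fun _ => ⟨?_, ?_⟩
    · rintro h _ ⟨i, hi, rfl⟩
      unfold vQ
      rw [MvPolynomial.aeval_X]
      exact h i hi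
    · intro h i hi
      have h1 := h _ ⟨i, hi, rfl⟩
      unfold vQ at h1
      rwa [MvPolynomial.aeval_X] at h1
  · exact ⟨by rw [Matrix.det_one]; exact one_ne_zero, I.Row_one⟩
  · rintro a ⟨ha, ha'⟩ b ⟨hb, hb'⟩
    exact ⟨by rw [Matrix.det_mul]; exact mul_ne_zero ha hb, I.Row_mul ha' hb'⟩
  · rintro a ⟨ha, ha'⟩
    refine ⟨?_, (I.row_inv ha' ha).1⟩
    rw [Matrix.det_nonsing_inv, Ring.inverse_eq_inv']
    exact inv_ne_zero ha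

theorem row_InMT {h : ℂ → Matrix κ κ ℂ} (hd : ∀ z, z ≠ 0 → (h z).det ≠ 0) {o : κ}
    (ho : TateAt h w o) {R : Type} [Field R] [Algebra ℚ R] {g : Matrix κ κ R} (hg : InMT h g) :
    I.Row o g := by
  intro i hi
  have h1 := hg (MvPolynomial.X (o, i)) fun m hm => by
    have h2 := (hm _ (row_QGroup o) fun z hz => ⟨hd z hz, (ho z hz).2⟩).2 i hi
    unfold vQ
    rw [MvPolynomial.aeval_X]
    exact h2
  unfold vQ at h1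
  rwa [MvPolynomial.aeval_X] at h1

theorem row_InG0 {ℓ : ℕ} [Fact ℓ.Prime] {Γ : Type} [Group Γ] {a : Γ →* Matrix κ κ ℚ_[ℓ]} {o : κ}
    (ho : ∀ γ i, i ≠ o → a γ o i = 0) {g : Matrix κ κ (AlgebraicClosure ℚ_[ℓ])}
    (hg : InG0 a g) : I.Row o g := by
  intro i hi
  have h1 := hg (MvPolynomial.X (o, i)) ⟨⊤, inferInstance, fun s _ => by
    rw [MvPolynomial.aeval_X, ho s i hi, map_zero]⟩
  rwa [MvPolynomial.aeval_X] at h1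

lemma Jl_map (V : PHS N w) (ℓ : ℕ) [Fact ℓ.Prime] :
    (V.Jl ℓ).map (algebraMap ℚ_[ℓ] (AlgebraicClosure ℚ_[ℓ])) =
      V.J.map (algebraMap ℚ (AlgebraicClosure ℚ_[ℓ])) := by
  rw [Matrix.map_map]
  rfl

/-- The conjecture for the sum. -/
theorem mtc_iff (hMTI : S_MTI) (hGAI : S_GAI) (hLAG : S_LAG) {ℓ : ℕ} [Fact ℓ.Prime] {V : PHS N w}
    (hJ : V.J.det ≠ 0) {h : ℂ → Matrix κ κ ℂ} (hd : ∀ z, z ≠ 0 → (h z).det ≠ 0) {o : κ}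
    (ho : TateAt h w o)
    (hL : ∀ Z, Zᵀ * cm V.J + cm V.J * Z = 0 → fromBlocks 0 0 0 Z ∈ LS (SH (hSum h V)))
    {Γ : Type} [Group Γ] {a : Γ →* Matrix κ κ ℚ_[ℓ]} {ρ : Γ →* Matrix (Fin N) (Fin N) ℚ_[ℓ]}
    (hm : Mul ℓ κ N Γ a ρ (V.Jl ℓ) o)
    (hG : ∀ Z, Zᵀ * (V.Jl ℓ).map (algebraMap ℚ_[ℓ] (AlgebraicClosure ℚ_[ℓ])) +
        (V.Jl ℓ).map (algebraMap ℚ_[ℓ] (AlgebraicClosure ℚ_[ℓ])) * Z = 0 →
      fromBlocks 0 0 0 Z ∈ LS (IG (dsum a ρ) (algebraMap ℚ_[ℓ] (AlgebraicClosure ℚ_[ℓ])))) :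
    MTC (hSum h V) (dsum a ρ) ↔ MTC h a := by
  obtain ⟨e⟩ := exists_emb ℓ
  have h1 := fun (G : Matrix (κ ⊕ Fin N) (κ ⊕ Fin N) (AlgebraicClosure ℚ_[ℓ])) (hGd : G.det ≠ 0) =>
    hGAI ℓ κ N Γ a ρ (V.Jl ℓ) o hm hG G hGd
  have h2 := fun (G : Matrix (κ ⊕ Fin N) (κ ⊕ Fin N) (AlgebraicClosure ℚ_[ℓ])) (hGd : G.det ≠ 0) =>
    hMTI h hd V o ho hL (AlgebraicClosure ℚ_[ℓ]) e G hGd
  simp only [Jl_map] at h1
  constructor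
  · intro H g hg
    by_cases hr : I.Row o g
    · have hgo := I.row_ne hr hg
      obtain ⟨D, hD1, hD2⟩ := hLAG (AlgebraicClosure ℚ_[ℓ]) N
        (V.J.map (algebraMap ℚ (AlgebraicClosure ℚ_[ℓ]))) (alt_map V) (det_map_ne hJ)
      have hdet : (fromBlocks g 0 0 (I.dd D (g o o))).det ≠ 0 := by
        rw [fb_det]
        exact mul_ne_zero hg (I.dd_det hD1 hgo)
      have h3 := H _ hdet
      rw [h1 _ hdet, h2 _ hdet, Matrix.toBlocks_fromBlocks₁₁, Matrix.toBlocks_fromBlocks₂₂] at h3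
      have h4 := I.dd_sim hD1 hD2 (g o o)
      exact ⟨fun h => (h3.1 ⟨rfl, h, h4⟩).2.1, fun h => (h3.2 ⟨rfl, h, h4⟩).2.1⟩
    · exact ⟨fun h => absurd (row_InG0 hm.row h) hr, fun h => absurd (row_InMT hd ho h) hr⟩
  · intro H G hGd
    rw [h1 G hGd, h2 G hGd]
    refine and_congr_right fun h3 => and_congr_left fun _ => ?_
    refine H _ fun h4 => hGd ?_
    rw [h3, fb_det, h4, zero_mul]

theorem gas (hGAE : S_GAE) (hGAC : S_GAC) (hIDL : S_IDL) {ℓ : ℕ} [Fact ℓ.Prime] {Γ : Type}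
    [Group Γ] [TopologicalSpace Γ] [IsTopologicalGroup Γ] [CompactSpace Γ]
    {a : Γ →* Matrix κ κ ℚ_[ℓ]} {ρ : Γ →* Matrix (Fin N) (Fin N) ℚ_[ℓ]} (hρ : Continuous ρ)
    {J : Matrix (Fin N) (Fin N) ℚ_[ℓ]} {o : κ} (hm : Mul ℓ κ N Γ a ρ J o)
    (hfull : ∀ X, Xᵀ * J + J * X = 0 → IsTangent ℓ ρ X)
    {γ : Γ} (hI : Pool.Agent.R932.Ind ((a γ).map (algebraMap ℚ_[ℓ] (AlgebraicClosure ℚ_[ℓ])))
      ((ρ γ).map (algebraMap ℚ_[ℓ] (AlgebraicClosure ℚ_[ℓ]))) ⊤)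
    (Z : Matrix (Fin N) (Fin N) (AlgebraicClosure ℚ_[ℓ]))
    (hZ : Zᵀ * J.map (algebraMap ℚ_[ℓ] (AlgebraicClosure ℚ_[ℓ])) +
        J.map (algebraMap ℚ_[ℓ] (AlgebraicClosure ℚ_[ℓ])) * Z = 0) :
    fromBlocks 0 0 0 Z ∈ LS (IG (dsum a ρ) (algebraMap ℚ_[ℓ] (AlgebraicClosure ℚ_[ℓ]))) := by
  obtain ⟨j, hj⟩ : ∃ j, j = algebraMap ℚ_[ℓ] (AlgebraicClosure ℚ_[ℓ]) := ⟨_, rfl⟩
  rw [← hj] at hI hZ ⊢
  obtain ⟨Z₀, h0, h1, h2⟩ := hGAE ℓ κ N Γ a ρ J o hm (AlgebraicClosure ℚ_[ℓ]) j γ hI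
  let 𝔞 : Submodule (AlgebraicClosure ℚ_[ℓ]) (Matrix (Fin N) (Fin N) (AlgebraicClosure ℚ_[ℓ])) :=
    { carrier := {Z | fromBlocks 0 0 0 Z ∈ LS (IG (dsum a ρ) j)}
      add_mem' := fun {x y} hx hy => by
        have h3 := (LS (IG (dsum a ρ) j)).add_mem hx hy
        rw [Matrix.fromBlocks_add, add_zero, add_zero, add_zero] at h3
        exact h3
      zero_mem' := by
        show fromBlocks 0 0 0 0 ∈ LS (IG (dsum a ρ) j)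
        rw [Matrix.fromBlocks_zero]
        exact Submodule.zero_mem _
      smul_mem' := fun c x hx => by
        have h3 := (LS (IG (dsum a ρ) j)).smul_mem c hx
        rw [Matrix.fromBlocks_smul, smul_zero, smul_zero, smul_zero] at h3
        exact h3 }
  have hJK : (J.map j)ᵀ = -(J.map j) := by
    rw [← Matrix.transpose_map, hm.alt]
    ext x y
    simp
  have hdK : (J.map j).det ≠ 0 := by
    rw [← RingHom.mapMatrix_apply, ← RingHom.map_det]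
    exact (_root_.map_ne_zero j).2 hm.det
  exact hIDL (AlgebraicClosure ℚ_[ℓ]) N (J.map j) hJK hdK 𝔞
    (fun A hA B hB => hGAC ℓ κ N Γ a ρ hρ J hm.alt hm.det hfull (AlgebraicClosure ℚ_[ℓ]) j B hB A hA)
    Z₀ h2 h1 h0 Z hZ

variable {K : Type} [Field K] [NumberField K] {S : Set (HeightOneSpectrum (𝓞 K))}
  {P : HeightOneSpectrum (𝓞 K) → Polynomial ℚ} {Γ : Type} [Group Γ] [TopologicalSpace Γ]
  [IsTopologicalGroup Γ] [CompactSpace Γ]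

/-- **The conjecture for the sum at 100 percent of the primes.** -/
theorem main2 (hMTS : S_MTS) (hMTI : S_MTI) (hGAI : S_GAI) (hGAE : S_GAE) (hGAC : S_GAC)
    (hIDL : S_IDL) (hLAG : S_LAG) (hNDG : S_NDG)
    {V : PHS N w} (hV : V.IsCY) (V' : RHS κ)
    (hlev : ∀ y ∈ lieMT V'.h, ∀ j : ℤ, (w : ℤ) ≤ |j| →
      V'.X * y - y * V'.X = ((2 * j : ℤ) : ℂ) • y → y = 0)
    {o : κ} (ho : TateAt V'.h w o)
    (hS : S.Finite) (s : GK K →* Γ) (hs : Continuous s)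
    (a : ∀ (ℓ : ℕ) [Fact ℓ.Prime], Γ →* Matrix κ κ ℚ_[ℓ])
    (ρ : ∀ (ℓ : ℕ) [Fact ℓ.Prime], Γ →* Matrix (Fin N) (Fin N) ℚ_[ℓ])
    (hρ : ∀ (ℓ : ℕ) [Fact ℓ.Prime], Continuous (ρ ℓ))
    (hm : ∀ (ℓ : ℕ) [Fact ℓ.Prime], (∀ γ i, i ≠ o → a ℓ γ o i = 0) ∧
      ∀ γ, (ρ ℓ γ)ᵀ * V.Jl ℓ * ρ ℓ γ = a ℓ γ o o • V.Jl ℓ)
    (hF : ∀ (ℓ : ℕ) [Fact ℓ.Prime], ∀ v ∉ S, (ℓ : 𝓞 K) ∉ v.asIdeal → ∀ σ : GK K,
      IsFrobenius v σ → (ρ ℓ (s σ⁻¹)).charpoly = (P v).map (algebraMap ℚ ℚ_[ℓ]) ∧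
        (ρ ℓ (s σ⁻¹))ᵀ * V.Jl ℓ * ρ ℓ (s σ⁻¹) =
          ((Ideal.absNorm v.asIdeal : ℚ_[ℓ]) ^ w) • V.Jl ℓ)
    {v₀ : HeightOneSpectrum (𝓞 K)} (hv₀ : GenP S P (qv w) v₀)
    {m : ℕ} (u : Fin (m + 1) → HeightOneSpectrum (𝓞 K)) (hu : ∀ i, NiceP S P (u i))
    (hI : ∀ (g : GK ℚ) (d : ℕ), 0 < d → d < N →
      ∃ v, NiceP S P v ∧ ∃ w ∈ NoSet d (P v), w⁻¹ * g ∈ Subgroup.closure (⋃ i, Fix (P (u i))))
    (hII : ∀ g : GK ℚ, ∃ v, NiceP S P v ∧ ∃ w : GK ℚ,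
      (∃ x : QQ, Polynomial.aeval x (P v) = 0 ∧ w x = x) ∧
      w⁻¹ * g ∈ Subgroup.closure (⋃ i, Fix (P (u i))))
    {v₂ : HeightOneSpectrum (𝓞 K)} (hv₂ : v₂ ∉ S) {R : Polynomial ℚ}
    (hα : ∀ (ℓ : ℕ) [Fact ℓ.Prime], (ℓ : 𝓞 K) ∉ v₂.asIdeal → ∀ σ : GK K, IsFrobenius v₂ σ →
      (a ℓ (s σ⁻¹)).charpoly = R.map (algebraMap ℚ ℚ_[ℓ]))
    {x : ℂˣ} (hx : Polynomial.aeval (x : ℂ) (P v₂) = 0)
    (hxm : ∀ m : ℕ, 0 < m →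
      x ^ m ∉ Subgroup.closure {y : ℂˣ | Polynomial.aeval (y : ℂ) R = 0}) :
    Y142.ZI.DensityZero {ℓ | ∃ _ : Fact ℓ.Prime,
      ¬ (MTC (hSum V'.h V) (dsum (a ℓ) (ρ ℓ)) ↔ MTC V'.h (a ℓ))} := by
  have hN : 0 < N := by
    rcases Nat.eq_zero_or_pos N with h | h
    · subst h
      have h1 := hV.one
      rw [Matrix.trace, Finset.univ_eq_empty, Finset.sum_empty] at h1
      exact absurd h1.symm one_ne_zero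
    · exact h
  have hq : ∀ (ℓ : ℕ) [Fact ℓ.Prime] (v : HeightOneSpectrum (𝓞 K)),
      ((qv w v : ℚ) : ℚ_[ℓ]) = (Ideal.absNorm v.asIdeal : ℚ_[ℓ]) ^ w := by
    intro ℓ _ v
    rw [qv]
    push_cast
    rfl
  have h1 := Pool.Agent.R932.density_even (K := K) (S := S) (P := P) (q := qv w) hN hS
    s hs (fun ℓ _ => ρ ℓ)
    (fun ℓ _ => ⟨hρ ℓ, fun v hv hvℓ σ hσ => (hF ℓ v hv hvℓ σ hσ).1⟩)
    (fun ℓ _ => V.Jl ℓ)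
    (fun ℓ _ => ⟨Or.inr (alt_map V), det_map_ne (hNDG V).1, fun γ => ⟨_, (hm ℓ).2 γ⟩,
      fun v hv hvℓ σ hσ => by
      show (ρ ℓ (s σ⁻¹))ᵀ * V.Jl ℓ * ρ ℓ (s σ⁻¹) = ((qv w v : ℚ) : ℚ_[ℓ]) • V.Jl ℓ
      rw [hq ℓ v]
      exact (hF ℓ v hv hvℓ σ hσ).2⟩)
    hv₀ u hu hI hII
  refine Y142.ZI.DensityZero.mono (h1.union (density_bounded
    (A := {ℓ | ℓ ≤ Ideal.absNorm v₂.asIdeal}) (b := Ideal.absNorm v₂.asIdeal) fun ℓ h => h)) ?_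
  rintro ℓ ⟨hp, hno⟩
  by_cases hle : ℓ ≤ Ideal.absNorm v₂.asIdeal
  · exact Or.inr hle
  left
  refine ⟨hp, fun hfull => hno ?_⟩
  have hvℓ := not_mem_of_lt v₂ hp.out (not_le.1 hle)
  obtain ⟨σ, hσ⟩ := Pool.Agent.W401.Frob.exists_frob v₂
  have h5 := Pool.Agent.R932.ind_of_complex hx hxm (hα ℓ hvℓ σ hσ) (hF ℓ v₂ hv₂ hvℓ σ hσ).1
  have hmul : Mul ℓ κ N Γ (a ℓ) (ρ ℓ) (V.Jl ℓ) o :=
    ⟨alt_map V, det_map_ne (hNDG V).1, (hm ℓ).1, (hm ℓ).2⟩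
  exact mtc_iff hMTI hGAI hLAG (hNDG V).1 V'.h_det ho (hMTS V' V hV hlev) hmul
    (gas hGAE hGAC hIDL (hρ ℓ) hmul (fun X hX => hfull X hX) h5)

end Pool.Agent.T2h63.MT
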