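import Pool.Agent.T2h63.MT.Stm
import Pool.Agent.Y95.MT.RHS
import Pool.Agent.R932.TorSum

/-!
# Sums with Hodge structures of Calabi-Yau type: statements
-/

set_option autoImplicit false

open Matrix

namespace Pool.Agent.T2h63.MT

open Pool.Agent.Y95.MT (LS St SH IG MTgroup InMT InG0 RHS lieMT)
open Pool.Agent.Y142.ZO (IsTangent)
open Pool.Agent.R932 (Ind)

/-- The direct sum of two representations. -/
def dsum {R Γ κ ι : Type} [CommRing R] [Group Γ] [Fintype κ] [DecidableEq κ] [Fintype ι]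
    [DecidableEq ι] (a : Γ →* Matrix κ κ R) (b : Γ →* Matrix ι ι R) :
    Γ →* Matrix (κ ⊕ ι) (κ ⊕ ι) R where
  toFun γ := fromBlocks (a γ) 0 0 (b γ)
  map_one' := by rw [map_one, map_one, fromBlocks_one]
  map_mul' x y := by
    rw [map_mul, map_mul, fromBlocks_multiply]
    simp

/-- The action of `ℂ^×` on the direct sum. -/
noncomputable def hSum {κ : Type} {N w : ℕ} (h : ℂ → Matrix κ κ ℂ) (V : PHS N w) (z : ℂ) :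
    Matrix (κ ⊕ Fin N) (κ ⊕ Fin N) ℂ := fromBlocks (h z) 0 0 (V.h z)

/-- The coordinate with the index `o` is a morphism to `ℚ(-w)`. -/
def TateAt {κ : Type} (h : ℂ → Matrix κ κ ℂ) (w : ℕ) (o : κ) : Prop :=
  ∀ z, z ≠ 0 → h z o o = (z * starRingEnd ℂ z) ^ (-(w : ℤ)) ∧ ∀ i, i ≠ o → h z o i = 0

/-- **LAG.** There are Lagrangian decompositions: `D` is a projection to a Lagrangian subspace. Then
`1 - D + c D` multiplies the form by `c`. -/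
def S_LAG : Prop := ∀ (F : Type) [Field F] [CharZero F] (N : ℕ) (J : Matrix (Fin N) (Fin N) F)
  (_ : Jᵀ = -J) (_ : J.det ≠ 0), ∃ D : Matrix (Fin N) (Fin N) F, D * D = D ∧ Dᵀ * J + J * D = J

/-- **IDL.** The symplectic Lie algebra is simple. -/
def S_IDL : Prop := ∀ (F : Type) [Field F] [CharZero F] (N : ℕ) (J : Matrix (Fin N) (Fin N) F)
  (_ : Jᵀ = -J) (_ : J.det ≠ 0) (𝔞 : Submodule F (Matrix (Fin N) (Fin N) F))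
  (_ : ∀ A, Aᵀ * J + J * A = 0 → ∀ B ∈ 𝔞, A * B - B * A ∈ 𝔞) (Z : Matrix (Fin N) (Fin N) F)
  (_ : Z ∈ 𝔞) (_ : Zᵀ * J + J * Z = 0) (_ : Z ≠ 0) (A : Matrix (Fin N) (Fin N) F)
  (_ : Aᵀ * J + J * A = 0), A ∈ 𝔞

/-- **MTS.** The Lie algebra of the Mumford-Tate group of the sum contains `0 × sp(V)`, if `V'` is of
level less than `w`. -/
def S_MTS : Prop := ∀ {κ : Type} [Fintype κ] [DecidableEq κ] (V' : RHS κ) {N w : ℕ} (V : PHS N w)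
  (_ : V.IsCY) (_ : ∀ y ∈ lieMT V'.h, ∀ j : ℤ, (w : ℤ) ≤ |j| →
    V'.X * y - y * V'.X = ((2 * j : ℤ) : ℂ) • y → y = 0)
  (Z : Matrix (Fin N) (Fin N) ℂ) (_ : Zᵀ * cm V.J + cm V.J * Z = 0),
  fromBlocks 0 0 0 Z ∈ LS (SH (hSum V'.h V))

/-- **MTI.** The Mumford-Tate group of the sum. -/
def S_MTI : Prop := ∀ {κ : Type} [Fintype κ] [DecidableEq κ] (h : ℂ → Matrix κ κ ℂ)
  (_ : ∀ z, z ≠ 0 → (h z).det ≠ 0) {N w : ℕ} (V : PHS N w) (o : κ) (_ : TateAt h w o)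
  (_ : ∀ Z, Zᵀ * cm V.J + cm V.J * Z = 0 → fromBlocks 0 0 0 Z ∈ LS (SH (hSum h V)))
  (R : Type) [Field R] [Algebra ℚ R] (_ : R →+* ℂ) (G : Matrix (κ ⊕ Fin N) (κ ⊕ Fin N) R)
  (_ : G.det ≠ 0),
  InMT (hSum h V) G ↔ G = fromBlocks G.toBlocks₁₁ 0 0 G.toBlocks₂₂ ∧ InMT h G.toBlocks₁₁ ∧
    G.toBlocks₂₂ᵀ * V.J.map (algebraMap ℚ R) * G.toBlocks₂₂ =
      G.toBlocks₁₁ o o • V.J.map (algebraMap ℚ R)

section

variable (ℓ : ℕ) [Fact ℓ.Prime] (κ : Type) [Fintype κ] [DecidableEq κ] (N : ℕ) (Γ : Type) [Group Γ]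

/-- The multiplier of `ρ` is the coordinate of `a` with the index `o`. -/
structure Mul (a : Γ →* Matrix κ κ ℚ_[ℓ]) (ρ : Γ →* Matrix (Fin N) (Fin N) ℚ_[ℓ])
    (J : Matrix (Fin N) (Fin N) ℚ_[ℓ]) (o : κ) : Prop where
  alt : Jᵀ = -J
  det : J.det ≠ 0
  row : ∀ γ i, i ≠ o → a γ o i = 0
  mul : ∀ γ, (ρ γ)ᵀ * J * ρ γ = a γ o o • J

end

/-- **GAE.** A nonzero element of the Lie algebra from an independent eigenvalue. -/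
def S_GAE : Prop := ∀ (ℓ : ℕ) [Fact ℓ.Prime] (κ : Type) [Fintype κ] [DecidableEq κ] (N : ℕ)
  (Γ : Type) [Group Γ] (a : Γ →* Matrix κ κ ℚ_[ℓ]) (ρ : Γ →* Matrix (Fin N) (Fin N) ℚ_[ℓ])
  (J : Matrix (Fin N) (Fin N) ℚ_[ℓ]) (o : κ) (_ : Mul ℓ κ N Γ a ρ J o)
  (K : Type) [Field K] [CharZero K] [IsAlgClosed K] (j : ℚ_[ℓ] →+* K) (γ : Γ)
  (_ : Ind ((a γ).map j) ((ρ γ).map j) ⊤),
  ∃ Z : Matrix (Fin N) (Fin N) K, Z ≠ 0 ∧ Zᵀ * J.map j + J.map j * Z = 0 ∧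
    fromBlocks 0 0 0 Z ∈ LS (IG (dsum a ρ) j)

/-- **GAC.** The Lie algebra of the second summand is an ideal of the symplectic Lie algebra. -/
def S_GAC : Prop := ∀ (ℓ : ℕ) [Fact ℓ.Prime] (κ : Type) [Fintype κ] [DecidableEq κ] (N : ℕ)
  (Γ : Type) [Group Γ] [TopologicalSpace Γ] [IsTopologicalGroup Γ] [CompactSpace Γ]
  (a : Γ →* Matrix κ κ ℚ_[ℓ]) (ρ : Γ →* Matrix (Fin N) (Fin N) ℚ_[ℓ]) (_ : Continuous ρ)
  (J : Matrix (Fin N) (Fin N) ℚ_[ℓ]) (_ : Jᵀ = -J) (_ : J.det ≠ 0)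
  (_ : ∀ X, Xᵀ * J + J * X = 0 → IsTangent ℓ ρ X)
  (K : Type) [Field K] [CharZero K] [IsAlgClosed K] (j : ℚ_[ℓ] →+* K)
  (Z : Matrix (Fin N) (Fin N) K) (_ : fromBlocks 0 0 0 Z ∈ LS (IG (dsum a ρ) j))
  (A : Matrix (Fin N) (Fin N) K) (_ : Aᵀ * J.map j + J.map j * A = 0),
  fromBlocks 0 0 0 (A * Z - Z * A) ∈ LS (IG (dsum a ρ) j)

/-- **GAI.** The monodromy group of the sum. -/
def S_GAI : Prop := ∀ (ℓ : ℕ) [Fact ℓ.Prime] (κ : Type) [Fintype κ] [DecidableEq κ] (N : ℕ)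
  (Γ : Type) [Group Γ] (a : Γ →* Matrix κ κ ℚ_[ℓ]) (ρ : Γ →* Matrix (Fin N) (Fin N) ℚ_[ℓ])
  (J : Matrix (Fin N) (Fin N) ℚ_[ℓ]) (o : κ) (_ : Mul ℓ κ N Γ a ρ J o)
  (_ : ∀ Z, Zᵀ * J.map (algebraMap ℚ_[ℓ] (AlgebraicClosure ℚ_[ℓ])) +
      J.map (algebraMap ℚ_[ℓ] (AlgebraicClosure ℚ_[ℓ])) * Z = 0 →
    fromBlocks 0 0 0 Z ∈ LS (IG (dsum a ρ) (algebraMap ℚ_[ℓ] (AlgebraicClosure ℚ_[ℓ]))))
  (G : Matrix (κ ⊕ Fin N) (κ ⊕ Fin N) (AlgebraicClosure ℚ_[ℓ])) (_ : G.det ≠ 0),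
  InG0 (dsum a ρ) G ↔ G = fromBlocks G.toBlocks₁₁ 0 0 G.toBlocks₂₂ ∧ InG0 a G.toBlocks₁₁ ∧
    G.toBlocks₂₂ᵀ * J.map (algebraMap ℚ_[ℓ] (AlgebraicClosure ℚ_[ℓ])) * G.toBlocks₂₂ =
      G.toBlocks₁₁ o o • J.map (algebraMap ℚ_[ℓ] (AlgebraicClosure ℚ_[ℓ]))

end Pool.Agent.T2h63.MT
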